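import Pool.Agent.T2h25.Iv.Sm
import Pool.Agent.H721R2.Quart.Per

/-!
# Periodic points of the round ball

The regular polygons inscribed in the unit sphere: the phase points have dimension `2 d - 3`.
-/

set_option autoImplicit false

open MeasureTheory Set Filter Topology
open scoped InnerProductSpace NNReal ENNReal
open Pool.Agent.H721R2.Ivrii

namespace Pool.Agent.T2h25.Iv

section

variable {E : Type*} [NormedAddCommGroup E] [InnerProductSpace ℝ E]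

theorem grad_norm_sq [CompleteSpace E] (x : E) :
    HasGradientAt (fun y : E => ‖y‖ ^ 2 - 1) ((2 : ℝ) • x) x := by
  rw [hasGradientAt_iff_hasFDerivAt]
  refine ((hasStrictFDerivAt_norm_sq x).hasFDerivAt.sub_const 1).congr_fderiv ?_
  ext w
  simp

theorem localDef_ball [CompleteSpace E] {q : E} (hq : ‖q‖ = 1) :
    LocalDef (Metric.ball (0 : E) 1) q (fun y : E => ‖y‖ ^ 2 - 1) := by
  refine ⟨?_, ?_, ?_, ?_⟩
  · exact ((contDiff_norm_sq ℝ).sub contDiff_const).contDiffAt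
  · simp [hq]
  · rw [(grad_norm_sq q).gradient]
    intro h
    have : q = 0 := by simpa using h
    rw [this, norm_zero] at hq
    exact zero_ne_one hq
  · refine Eventually.of_forall fun x => ?_
    rw [mem_ball_zero_iff, sub_neg]
    constructor
    · intro h; nlinarith [norm_nonneg x]
    · intro h; nlinarith [norm_nonneg x]

/-- The combination of two vectors with the coefficients `x`, `y`. -/
def cb (q w : E) (x y : ℝ) : E := x • q + y • w

theorem cb_inner {q w : E} (hq : ‖q‖ = 1) (hw : ‖w‖ = 1) (h : ⟪q, w⟫_ℝ = 0) (x y x' y' : ℝ) :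
    ⟪cb q w x y, cb q w x' y'⟫_ℝ = x * x' + y * y' := by
  have h1 : ⟪q, q⟫_ℝ = 1 := by rw [real_inner_self_eq_norm_sq, hq]; norm_num
  have h2 : ⟪w, w⟫_ℝ = 1 := by rw [real_inner_self_eq_norm_sq, hw]; norm_num
  have h3 : ⟪w, q⟫_ℝ = 0 := by rw [real_inner_comm]; exact h
  unfold cb
  simp only [inner_add_left, inner_add_right, real_inner_smul_left, real_inner_smul_right, h, h1,
    h2, h3]
  ring

/-- The regular `n`-gon inscribed in the unit sphere is a billiard orbit in the ball. -/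
theorem gon_orbit [CompleteSpace E] {n : ℕ} (hn : 2 ≤ n) {q w : E} (hq : ‖q‖ = 1) (hw : ‖w‖ = 1)
    (h : ⟪q, w⟫_ℝ = 0) : ∃ p u : ℕ → E, Orbit (Metric.ball (0 : E) 1) n p u ∧
      (p 0, u 0) = (q, cb q w (-Real.sin (Real.pi / n)) (Real.cos (Real.pi / n))) := by
  have hn0 : (0 : ℝ) < n := by exact_mod_cast (by omega : 0 < n)
  obtain ⟨β, hβ⟩ : ∃ β, β = Real.pi / n := ⟨_, rfl⟩
  obtain ⟨p, hp⟩ : ∃ p : ℕ → E, ∀ k, p k =
      cb q w (Real.cos (k * (2 * β))) (Real.sin (k * (2 * β))) := ⟨_, fun k => rfl⟩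
  obtain ⟨u, hu⟩ : ∃ u : ℕ → E, ∀ k, u k =
      cb q w (-Real.sin (k * (2 * β) + β)) (Real.cos (k * (2 * β) + β)) := ⟨_, fun k => rfl⟩
  have hper : ∀ k : ℕ, ((k + n : ℕ) : ℝ) * (2 * β) = k * (2 * β) + 2 * Real.pi := by
    intro k; push_cast; rw [hβ]; field_simp
  have hsβ : 0 < Real.sin β := by
    rw [hβ]
    refine Real.sin_pos_of_pos_of_lt_pi (by positivity) ?_
    rw [div_lt_iff₀ hn0]
    have h2 : (2 : ℝ) ≤ n := by exact_mod_cast hn
    nlinarith [Real.pi_pos]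
  have nrm : ∀ x y : ℝ, x * x + y * y = 1 → ‖cb q w x y‖ = 1 := by
    intro x y hxy
    have h1 := cb_inner hq hw h x y x y
    rw [hxy, real_inner_self_eq_norm_sq] at h1
    exact (pow_eq_one_iff_of_nonneg (norm_nonneg _) two_ne_zero).1 h1
  have hpn : ∀ k, ‖p k‖ = 1 := by
    intro k; rw [hp]; apply nrm
    have := Real.sin_sq_add_cos_sq (k * (2 * β))
    linear_combination this
  have hun : ∀ k, ‖u k‖ = 1 := by
    intro k; rw [hu]; apply nrm
    have := Real.sin_sq_add_cos_sq (k * (2 * β) + β)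
    linear_combination this
  have hpu : ∀ k, ⟪p k, u k⟫_ℝ = -Real.sin β := by
    intro k
    rw [hp, hu, cb_inner hq hw h, Real.sin_add, Real.cos_add]
    have := Real.sin_sq_add_cos_sq (k * (2 * β))
    linear_combination (-Real.sin β) * this
  have hup : ∀ k, ⟪u k, p (k + 1)⟫_ℝ = Real.sin β := by
    intro k
    rw [hp, hu, cb_inner hq hw h]
    obtain ⟨α, hα⟩ : ∃ α, α = k * (2 * β) + β := ⟨_, rfl⟩
    have e1 : ((k + 1 : ℕ) : ℝ) * (2 * β) = α + β := by rw [hα]; push_cast; ring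
    rw [e1, ← hα, Real.sin_add, Real.cos_add]
    have := Real.sin_sq_add_cos_sq α
    linear_combination (Real.sin β) * this
  have hstep : ∀ k, p (k + 1) = p k + (2 * Real.sin β) • u k := by
    intro k
    rw [hp, hp, hu]
    obtain ⟨α, hα⟩ : ∃ α, α = k * (2 * β) + β := ⟨_, rfl⟩
    have e1 : ((k + 1 : ℕ) : ℝ) * (2 * β) = α + β := by rw [hα]; push_cast; ring
    have e2 : (k : ℝ) * (2 * β) = α - β := by rw [hα]; ring
    rw [e1, ← hα, e2, Real.cos_add, Real.sin_add, Real.cos_sub, Real.sin_sub]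
    unfold cb
    module
  have href : ∀ k, u (k + 1) = u k - (2 * Real.sin β) • p (k + 1) := by
    intro k
    rw [hu, hu, hp]
    obtain ⟨α, hα⟩ : ∃ α, α = ((k + 1 : ℕ) : ℝ) * (2 * β) := ⟨_, rfl⟩
    have e2 : (k : ℝ) * (2 * β) + β = α - β := by rw [hα]; push_cast; ring
    rw [← hα, e2, Real.cos_add, Real.sin_add, Real.cos_sub, Real.sin_sub]
    unfold cb
    module
  refine ⟨p, u, ⟨by omega, hun 0, fun k => ?_, fun k => ?_, fun k => ?_⟩, ?_⟩
  · rw [hp, hp, hper, Real.cos_add_two_pi, Real.sin_add_two_pi]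
  · rw [hu, hu, hper]
    have e : (k : ℝ) * (2 * β) + 2 * Real.pi + β = k * (2 * β) + β + 2 * Real.pi := by ring
    rw [e, Real.cos_add_two_pi, Real.sin_add_two_pi]
  · refine ⟨2 * Real.sin β, by linarith, hstep k, fun s hs => ?_, _, localDef_ball (hpn _), ?_, ?_⟩
    · rw [mem_ball_zero_iff]
      have h1 : ‖p k + s • u k‖ ^ 2 = 1 - 2 * s * Real.sin β + s ^ 2 := by
        rw [norm_add_sq_real, hpn, norm_smul, hun, inner_smul_right, hpu, mul_one,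
          Real.norm_eq_abs, sq_abs]
        ring
      have h2 : s * (2 * Real.sin β - s) > 0 := mul_pos hs.1 (by linarith [hs.2])
      have h3 : ‖p k + s • u k‖ ^ 2 < 1 := by rw [h1]; linarith
      nlinarith [norm_nonneg (p k + s • u k)]
    · rw [(grad_norm_sq _).gradient, inner_smul_right, hup]
      positivity
    · rw [(grad_norm_sq _).gradient, inner_smul_right, hup, norm_smul, hpn, href k, smul_smul]
      congr 2
      norm_num
      ring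
  · rw [hp, hu]
    simp only [Nat.cast_zero, zero_mul, Real.cos_zero, Real.sin_zero, zero_add]
    rw [hβ]
    unfold cb
    simp

theorem tri_mem [CompleteSpace E] {q w : E} (hq : ‖q‖ = 1) (hw : ‖w‖ = 1) (h : ⟪q, w⟫_ℝ = 0) :
    (q, cb q w (-Real.sin (Real.pi / (3 : ℕ))) (Real.cos (Real.pi / (3 : ℕ)))) ∈
      PerMod {AffineIsometryEquiv.refl ℝ E} (Metric.ball (0 : E) 1) := by
  obtain ⟨p, u, ho, he⟩ := gon_orbit (n := 3) (by norm_num) hq hw h
  refine ⟨AffineIsometryEquiv.refl ℝ E, rfl, 3, p, u, ⟨by norm_num, ho.unit, ho.perp, ho.peru,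
    ho.step⟩, he, ?_⟩
  have h1 : {k | k < 3 ∧ ¬ ZeroCurv (Metric.ball (0 : E) 1) (p k)} ⊆ Set.Iio 3 := fun k hk => hk.1
  refine (Set.ncard_le_ncard h1 (Set.finite_Iio 3)).trans ?_
  simp

theorem four_mem [CompleteSpace E] {q w : E} (hq : ‖q‖ = 1) (hw : ‖w‖ = 1) (h : ⟪q, w⟫_ℝ = 0) :
    (q, cb q w (-Real.sin (Real.pi / (4 : ℕ))) (Real.cos (Real.pi / (4 : ℕ)))) ∈
      Pool.Agent.H721R2.Quart.PerFour (Metric.ball (0 : E) 1) := by
  obtain ⟨p, u, ho, he⟩ := gon_orbit (n := 4) (by norm_num) hq hw h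
  exact ⟨p, u, ho, he⟩

end

section
variable {E : Type*} [NormedAddCommGroup E] [InnerProductSpace ℝ E] [FiniteDimensional ℝ E]

omit [FiniteDimensional ℝ E] in
/-- The pairs of orthogonal unit vectors project onto a neighbourhood of zero. -/
theorem pair_surj {e1 e2 : E} (h1 : ‖e1‖ = 1) (h2 : ‖e2‖ = 1) (h12 : ⟪e1, e2⟫_ℝ = 0)
    {y1 y2 : E} (hy1 : ⟪e1, y1⟫_ℝ = 0) (hy21 : ⟪e1, y2⟫_ℝ = 0) (hy22 : ⟪e2, y2⟫_ℝ = 0)
    (hn1 : ‖y1‖ < 1 / 4) (hn2 : ‖y2‖ < 1 / 4) :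
    ∃ q w : E, ‖q‖ = 1 ∧ ‖w‖ = 1 ∧ ⟪q, w⟫_ℝ = 0 ∧ (∃ a : ℝ, q = a • e1 + y1) ∧
      ∃ α β : ℝ, w = (α • e1 + β • e2) + y2 := by
  have i1 : ⟪e1, e1⟫_ℝ = 1 := by rw [real_inner_self_eq_norm_sq, h1]; norm_num
  have i2 : ⟪e2, e2⟫_ℝ = 1 := by rw [real_inner_self_eq_norm_sq, h2]; norm_num
  have p1 := norm_nonneg y1
  have p2 := norm_nonneg y2
  obtain ⟨b, hb⟩ : ∃ b, b = ⟪y1, e2⟫_ℝ := ⟨_, rfl⟩
  obtain ⟨m, hm⟩ : ∃ m, m = ⟪y1, y2⟫_ℝ := ⟨_, rfl⟩
  have hm1 : |m| ≤ ‖y1‖ * ‖y2‖ := by rw [hm]; exact abs_real_inner_le_norm _ _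
  have hm2 : m ^ 2 ≤ 1 / 256 := by
    have h3 : |m| ≤ 1 / 16 := hm1.trans (by nlinarith)
    rw [← sq_abs]
    nlinarith [abs_nonneg m]
  obtain ⟨a, ha, ha0⟩ : ∃ a : ℝ, a ^ 2 = 1 - ‖y1‖ ^ 2 ∧ 0 ≤ a :=
    ⟨Real.sqrt (1 - ‖y1‖ ^ 2), Real.sq_sqrt (by nlinarith), Real.sqrt_nonneg _⟩
  have ha1 : 15 / 16 ≤ a ^ 2 := by rw [ha]; nlinarith
  obtain ⟨ρ, hρ, hρ0⟩ : ∃ ρ : ℝ, ρ ^ 2 = a ^ 2 + b ^ 2 ∧ 0 ≤ ρ :=
    ⟨Real.sqrt (a ^ 2 + b ^ 2), Real.sq_sqrt (by positivity), Real.sqrt_nonneg _⟩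
  have hρ1 : 15 / 16 ≤ ρ ^ 2 := by rw [hρ]; nlinarith [sq_nonneg b]
  have hρne : ρ ≠ 0 := by rintro rfl; norm_num at hρ1
  obtain ⟨c, hc⟩ : ∃ c, c = -m / ρ := ⟨_, rfl⟩
  have hcρ : c * ρ = -m := by rw [hc]; field_simp
  have hc2 : c ^ 2 ≤ 1 / 2 := by
    have h3 : c ^ 2 * ρ ^ 2 = m ^ 2 := by rw [← mul_pow, hcρ]; ring
    nlinarith [sq_nonneg c]
  obtain ⟨s, hs⟩ : ∃ s : ℝ, s ^ 2 = 1 - ‖y2‖ ^ 2 - c ^ 2 :=
    ⟨Real.sqrt (1 - ‖y2‖ ^ 2 - c ^ 2), Real.sq_sqrt (by nlinarith)⟩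
  obtain ⟨α, hα⟩ : ∃ α, α = (c * a - s * b) / ρ := ⟨_, rfl⟩
  obtain ⟨β, hβ⟩ : ∃ β, β = (c * b + s * a) / ρ := ⟨_, rfl⟩
  have hαβ : α ^ 2 + β ^ 2 = 1 - ‖y2‖ ^ 2 := by
    rw [hα, hβ, div_pow, div_pow, ← add_div, hρ]
    have h3 : (c * a - s * b) ^ 2 + (c * b + s * a) ^ 2 = (c ^ 2 + s ^ 2) * (a ^ 2 + b ^ 2) := by
      ring
    rw [h3, hs, mul_div_assoc, div_self (by rw [← hρ]; positivity)]
    ring
  have hab : a * α + b * β = -m := by
    rw [hα, hβ]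
    have h3 : a * ((c * a - s * b) / ρ) + b * ((c * b + s * a) / ρ) = c * (a ^ 2 + b ^ 2) / ρ := by
      ring
    rw [h3, ← hρ, ← hcρ]
    field_simp
  have j0 : ⟪y1, e1⟫_ℝ = 0 := by rw [real_inner_comm]; exact hy1
  have j1 : ⟪y2, e1⟫_ℝ = 0 := by rw [real_inner_comm]; exact hy21
  have j2 : ⟪y2, e2⟫_ℝ = 0 := by rw [real_inner_comm]; exact hy22
  have j3 : ⟪e2, e1⟫_ℝ = 0 := by rw [real_inner_comm]; exact h12
  have k1 : ⟪y1, y1⟫_ℝ = ‖y1‖ ^ 2 := real_inner_self_eq_norm_sq _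
  have k2 : ⟪y2, y2⟫_ℝ = ‖y2‖ ^ 2 := real_inner_self_eq_norm_sq _
  refine ⟨a • e1 + y1, (α • e1 + β • e2) + y2, ?_, ?_, ?_, ⟨a, rfl⟩, ⟨α, β, rfl⟩⟩
  · have h3 : ‖a • e1 + y1‖ ^ 2 = 1 := by
      rw [← real_inner_self_eq_norm_sq]
      simp only [inner_add_left, inner_add_right, real_inner_smul_left, real_inner_smul_right, i1,
        hy1, j0, k1]
      linear_combination ha
    exact (pow_eq_one_iff_of_nonneg (norm_nonneg _) two_ne_zero).1 h3
  · have h3 : ‖(α • e1 + β • e2) + y2‖ ^ 2 = 1 := by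
      rw [← real_inner_self_eq_norm_sq]
      simp only [inner_add_left, inner_add_right, real_inner_smul_left, real_inner_smul_right, i1,
        i2, hy21, hy22, j1, j2, j3, h12, k2]
      linear_combination hαβ
    exact (pow_eq_one_iff_of_nonneg (norm_nonneg _) two_ne_zero).1 h3
  · simp only [inner_add_left, inner_add_right, real_inner_smul_left, real_inner_smul_right, i1,
      hy21, h12, j0, ← hb, ← hm]
    linear_combination hab

/-- A set of phase points which contains all regular polygons of one kind. -/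
theorem tri_pos [MeasurableSpace E] [BorelSpace E] {m : ℕ} (hd : Module.finrank ℝ E = m + 2)
    {S : Set (E × E)} {x y : ℝ} (hy0 : y ≠ 0) (hS : ∀ q w : E, ‖q‖ = 1 → ‖w‖ = 1 → ⟪q, w⟫_ℝ = 0 →
      (q, cb q w x y) ∈ S) : 0 < μH[((2 * m + 1 : ℕ) : ℝ)] S := by
  -- two orthonormal vectors
  obtain ⟨e1, h1⟩ : ∃ e1 : E, ‖e1‖ = 1 := by
    have : Nontrivial E := Module.nontrivial_of_finrank_pos (R := ℝ) (by omega)
    exact exists_norm_eq E zero_le_one
  have hfr1 : Module.finrank ℝ (ℝ ∙ e1)ᗮ = m + 1 := by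
    have h3 := Submodule.finrank_add_finrank_orthogonal (ℝ ∙ e1)
    rw [finrank_span_singleton (by rintro rfl; simp at h1)] at h3
    omega
  obtain ⟨e2, h2, h12⟩ : ∃ e2 : E, ‖e2‖ = 1 ∧ ⟪e1, e2⟫_ℝ = 0 := by
    have : Nontrivial (ℝ ∙ e1)ᗮ := Module.nontrivial_of_finrank_pos (R := ℝ) (by omega)
    obtain ⟨e, he⟩ := exists_norm_eq (ℝ ∙ e1)ᗮ zero_le_one
    exact ⟨e, he, Submodule.mem_orthogonal_singleton_iff_inner_right.1 e.2⟩
  have h21 : ⟪e2, e1⟫_ℝ = 0 := by rw [real_inner_comm]; exact h12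
  have hon : Orthonormal ℝ ![e1, e2] := by
    constructor
    · intro i
      fin_cases i
      · exact h1
      · exact h2
    · intro i j hij
      fin_cases i <;> fin_cases j
      · exact absurd rfl hij
      · exact h12
      · exact h21
      · exact absurd rfl hij
  obtain ⟨P, hP⟩ : ∃ P : Submodule ℝ E, P = Submodule.span ℝ (range ![e1, e2]) := ⟨_, rfl⟩
  have he1 : e1 ∈ P := by rw [hP]; exact Submodule.subset_span ⟨0, rfl⟩
  have he2 : e2 ∈ P := by rw [hP]; exact Submodule.subset_span ⟨1, rfl⟩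
  have hfr2 : Module.finrank ℝ Pᗮ = m := by
    have h3 := Submodule.finrank_add_finrank_orthogonal P
    have h4 : Module.finrank ℝ P = 2 := by
      rw [hP, finrank_span_eq_card hon.linearIndependent, Fintype.card_fin]
    omega
  have hfr : Module.finrank ℝ ((ℝ ∙ e1)ᗮ × Pᗮ) = 2 * m + 1 := by
    rw [Module.finrank_prod, hfr1, hfr2]; omega
  -- the projection
  obtain ⟨Φ, hΦ⟩ : ∃ Φ : E × E →L[ℝ] (ℝ ∙ e1)ᗮ × Pᗮ, ∀ z, Φ z =
      ((ℝ ∙ e1)ᗮ.orthogonalProjectionOnto z.1,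
        Pᗮ.orthogonalProjectionOnto (y⁻¹ • z.2 - (y⁻¹ * x) • z.1)) := by
    refine ⟨((ℝ ∙ e1)ᗮ.orthogonalProjectionOnto.comp (ContinuousLinearMap.fst ℝ E E)).prod
      (Pᗮ.orthogonalProjectionOnto.comp (y⁻¹ • ContinuousLinearMap.snd ℝ E E -
        (y⁻¹ * x) • ContinuousLinearMap.fst ℝ E E)), fun z => rfl⟩
  have hsub : Metric.ball (0 : (ℝ ∙ e1)ᗮ × Pᗮ) (1 / 4) ⊆ Φ '' S := by
    rintro ⟨y1, y2⟩ hy
    rw [mem_ball_zero_iff, Prod.norm_def, max_lt_iff] at hy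
    have hy1 : ⟪e1, (y1 : E)⟫_ℝ = 0 := Submodule.mem_orthogonal_singleton_iff_inner_right.1 y1.2
    obtain ⟨q, w, hq, hw, hqw, ⟨a, ha⟩, α, β, hαβ⟩ := pair_surj h1 h2 h12 hy1
      (y2.2 e1 he1) (y2.2 e2 he2) hy.1 hy.2
    refine ⟨_, hS q w hq hw hqw, ?_⟩
    rw [hΦ]
    have hv : y⁻¹ • cb q w x y - (y⁻¹ * x) • q = w := by
      unfold cb
      rw [smul_add, smul_smul, smul_smul, inv_mul_cancel₀ hy0, one_smul]
      abel
    simp only [hv]
    refine Prod.ext ?_ ?_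
    · simp only
      rw [ha, map_add]
      have h5 : (ℝ ∙ e1)ᗮ.orthogonalProjectionOnto (a • e1) = 0 := by
        rw [Submodule.orthogonalProjectionOnto_apply_of_mem_orthogonal]
        rw [Submodule.orthogonal_orthogonal]
        exact Submodule.smul_mem _ _ (Submodule.mem_span_singleton_self e1)
      rw [h5, zero_add, Submodule.orthogonalProjectionOnto_mem_subspace_eq_self]
    · simp only
      rw [hαβ, map_add]
      have h5 : Pᗮ.orthogonalProjectionOnto (α • e1 + β • e2) = 0 := by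
        rw [Submodule.orthogonalProjectionOnto_apply_of_mem_orthogonal]
        rw [Submodule.orthogonal_orthogonal]
        exact P.add_mem (P.smul_mem _ he1) (P.smul_mem _ he2)
      rw [h5, zero_add, Submodule.orthogonalProjectionOnto_mem_subspace_eq_self]
  have hpos : 0 < μH[((2 * m + 1 : ℕ) : ℝ)] (Metric.ball (0 : (ℝ ∙ e1)ᗮ × Pᗮ) (1 / 4)) := by
    rw [← hfr]
    exact Metric.isOpen_ball.measure_pos _ ⟨0, Metric.mem_ball_self (by norm_num)⟩
  have hlip := (Φ.lipschitz.lipschitzOnWith (s := S)).hausdorffMeasure_image_le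
    (d := ((2 * m + 1 : ℕ) : ℝ)) (Nat.cast_nonneg _)
  by_contra hcon
  have h0 : μH[((2 * m + 1 : ℕ) : ℝ)] S = 0 := nonpos_iff_eq_zero.1 (not_lt.1 hcon)
  rw [h0, mul_zero] at hlip
  exact absurd (measure_mono_null hsub (nonpos_iff_eq_zero.1 hlip)) hpos.ne'

end

end Pool.Agent.T2h25.Iv
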