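import Pool.Agent.T2h25.Iv.D3

set_option autoImplicit false

open MeasureTheory Set Filter Topology
open scoped InnerProductSpace
open Pool.Agent.H721R2.Quart Pool.Agent.H721R2.Ivrii Pool.Agent.TH746

namespace Pool.Agent.T2h25.Iv

section D
variable {E : Type*} [NormedAddCommGroup E] [InnerProductSpace ℝ E] [FiniteDimensional ℝ E]
  [MeasurableSpace E] [BorelSpace E]

/-- All families with the given period and the given flat mirrors are negligible. -/
def AllNullS (E : Type*) [NormedAddCommGroup E] [InnerProductSpace ℝ E] [FiniteDimensional ℝ E]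
    [MeasurableSpace E] [BorelSpace E] (n : ℕ) (M : Set ℕ) : Prop :=
  ∀ (a b : E) (r : ℕ) (_ : Module.finrank ℝ ((ℝ ∙ a)ᗮ × (ℝ ∙ b)ᗮ) = r + 1)
    (F : Cyc E ((ℝ ∙ a)ᗮ × (ℝ ∙ b)ᗮ)), F.q = n → MeasurableSet F.A →
    (∀ z v w, ⟪F.V z v, F.V z w⟫_ℝ = ⟪v, w⟫_ℝ) → (∀ k, k ∉ M → ∀ z ∈ F.A, F.S k z = 0) →
    smM _ r F.A = 0

theorem allNull_two (hd : 3 ≤ Module.finrank ℝ E) (M : Set ℕ) : AllNullS E 2 M :=
  fun _ _ _ hfr F hq hA _ _ => null_two hfr F hd hq hA

theorem allNull_three (hd : 3 ≤ Module.finrank ℝ E) {n b c : ℕ} (hb : 0 < b) (hbc : b < c)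
    (hcn : c < n) : AllNullS E n (Set.range (idx3 n b c)) := by
  intro a b' r hfr F hq hA hV hS
  have h := null_three hfr (Cyc.contract F (idx3 n b c) 3 (idx3_mono hb hbc hcn)
    (idx3_zero n b c) (fun i => by rw [hq]; exact idx3_add n b c i) hV hS) hd rfl hA
  exact h

theorem local_null (hd : 3 ≤ Module.finrank ℝ E) {Ω : Set E} {g : E ≃ᵃⁱ[ℝ] E}
    (hg : g ⁻¹' Ω = Ω) {n : ℕ} {p u : ℕ → E} (h : OrbitMod Ω g n p u) (M : Set ℕ)
    (hM : ∀ k, k + n ∈ M ↔ k ∈ M) (hnull : AllNullS E n M) (m : ℕ) (hm : m ≤ n) :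
    ∃ Y : Set (E × E), smM (E × E) (2 * Module.finrank ℝ E - 3) Y = 0 ∧
      ∀ᶠ w : (ℕ → E) × (ℕ → E) in 𝓝 (p, u), (OrbitMod Ω g n w.1 w.2 ∧
        ∀ k < n, k ∉ M → ZeroCurv Ω (w.1 k)) → (w.1 m, w.2 m) ∈ Y := by
  obtain ⟨a, b, C, ha, hb, hCN, hCg, hLip, hev⟩ := exists_chn hg h
  have hfr : Module.finrank ℝ ((ℝ ∙ a)ᗮ × (ℝ ∙ b)ᗮ) = (2 * Module.finrank ℝ E - 3) + 1 := by
    have h1 := Submodule.finrank_add_finrank_orthogonal (ℝ ∙ a)
    have h2 := Submodule.finrank_add_finrank_orthogonal (ℝ ∙ b)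
    rw [finrank_span_singleton ha] at h1
    rw [finrank_span_singleton hb] at h2
    rw [Module.finrank_prod]
    omega
  obtain ⟨F, hFq, hFA, hFm, hFn, hFV, hFS⟩ := exists_cycS C hfr M (by rw [hCN]; exact hM)
  have h0 := hnull a b _ hfr F (by rw [hFq, hCN]) hFm hFV hFS
  have hRA : Sm (2 * Module.finrank ℝ E - 3) (C.A M) := by
    refine smM_eq_zero.1 (measure_mono_null (t := F.A ∪ (C.A M \ F.A)) ?_
      (measure_union_null h0 hFn))
    intro z hz
    by_cases h : z ∈ F.A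
    · exact Or.inl h
    · exact Or.inr ⟨hz, h⟩
  obtain ⟨K, hK⟩ := hLip m hm
  refine ⟨(fun z => (C.x m z, C.e m z)) '' (C.A M), ?_, ?_⟩
  · have hK' : LipschitzOnWith K (fun z => (C.x m z, C.e m z)) (C.A M) :=
      hK.mono fun z hz => hz.1
    exact smM_eq_zero.2 (hRA.image_lip hK')
  · filter_upwards [hev] with w hw hor
    obtain ⟨z, hzU, hz1, hz2, hz3⟩ := hw hor.1
    refine ⟨z, ⟨hzU, ?_, ?_, hz2, ?_⟩, ?_⟩
    · rw [hCN, (hz1 n le_rfl).1, (hz1 0 (Nat.zero_le _)).1, hCg]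
      have := hor.1.perp 0
      rwa [zero_add] at this
    · rw [hCN, (hz1 n le_rfl).2, (hz1 0 (Nat.zero_le _)).2, C.G_apply, hCg]
      have := hor.1.peru 0
      rwa [zero_add] at this
    · intro k hk hkM
      rw [hCN] at hk
      exact hz3 k hk (hor.2 k hk hkM)
    · simp only
      rw [(hz1 m hm).1, (hz1 m hm).2]

theorem pc_null (hd : 3 ≤ Module.finrank ℝ E) {Ω : Set E} {g : E ≃ᵃⁱ[ℝ] E}
    (hg : g ⁻¹' Ω = Ω) {n : ℕ} (M : Set ℕ)
    (hM : ∀ k, k + n ∈ M ↔ k ∈ M) (hnull : AllNullS E n M) (m : ℕ) (hm : m ≤ n) :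
    smM (E × E) (2 * Module.finrank ℝ E - 3) (Pc Ω g n M m) = 0 := by
  apply null_of_locally_null
  rintro ⟨p, u⟩ ⟨h, -⟩
  exact local_null hd hg h M hM hnull m hm

/-- Pulling back by an isometry preserves negligible sets. -/
theorem pull (g : E ≃ᵃⁱ[ℝ] E) (d : ℕ) (Y : Set (E × E))
    (hY : smM (E × E) d Y = 0) :
    smM (E × E) d {z : E × E | (g z.1, g.linearIsometryEquiv z.2) ∈ Y} = 0 := by
  have hlip : LipschitzWith 1
      (fun z : E × E => (g.symm z.1, g.linearIsometryEquiv.symm z.2)) := by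
    refine LipschitzWith.of_dist_le_mul fun x y => ?_
    simp only [Prod.dist_eq, LinearIsometryEquiv.dist_map, AffineIsometryEquiv.dist_map,
      NNReal.coe_one, one_mul]
    exact le_rfl
  have h0 := (smM_eq_zero.1 hY).image_lip (hlip.lipschitzOnWith (s := Y))
  refine smM_eq_zero.2 (h0.mono ?_)
  intro z hz
  exact ⟨_, hz, by simp⟩

/-- The main theorem. -/
theorem perMod_null_dimS (hd : 3 ≤ Module.finrank ℝ E) (Ω : Set E) (Γ : Set (E ≃ᵃⁱ[ℝ] E))
    (hΓ : Γ.Countable) (hinv : ∀ g ∈ Γ, g ⁻¹' Ω = Ω) :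
    smM (E × E) (2 * Module.finrank ℝ E - 3) (PerMod Γ Ω) = 0 := by
  obtain ⟨R, hR⟩ : ∃ R : ℕ → ℕ → ℕ → Set ℕ, R = fun n b c => Set.range (idx3 n b c) := ⟨_, rfl⟩
  refine measure_mono_null (t := ⋃ g ∈ Γ,
    ((Pc Ω g 2 univ 0 ∪ Pc Ω (g * (g * g)) 3 (R 3 1 2) 0) ∪
      ⋃ n : ℕ, ⋃ b : ℕ, ⋃ c : ℕ, ⋃ m : ℕ, ⋃ (_ : 0 < b ∧ b < c ∧ c < n ∧ m ≤ n),
        {z : E × E | (g z.1, g.linearIsometryEquiv z.2) ∈ Pc Ω g n (R n b c) m})) ?_ ?_
  · rintro z ⟨g, hgΓ, n, p, u, h, rfl, hcard⟩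
    have hg := hinv g hgΓ
    refine mem_iUnion₂.2 ⟨g, hgΓ, ?_⟩
    have hpos := h.pos
    rcases Nat.lt_or_ge n 3 with hn | hn
    · have : n = 1 ∨ n = 2 := by omega
      rcases this with rfl | rfl
      · -- period one
        left; right
        refine ⟨(p, u), ⟨⟨by norm_num, h.unit, fun k => ?_, fun k => ?_, h.step⟩, ?_⟩, rfl⟩
        · have e1 := h.perp k
          have e2 := h.perp (k + 1)
          have e3 := h.perp (k + 1 + 1)
          change p (k + 1 + 1 + 1) = g (g (g (p k)))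
          rw [e3, e2, e1]
        · have e1 := h.peru k
          have e2 := h.peru (k + 1)
          have e3 := h.peru (k + 1 + 1)
          rw [lin_mul', lin_mul']
          change u (k + 1 + 1 + 1) = _
          rw [e3, e2, e1]
        · intro k hk hkM
          exfalso
          apply hkM
          rw [hR]
          exact idx3_mem 3 1 2 k (by omega)
      · left; left
        exact ⟨(p, u), ⟨h, fun k _ hk => absurd (mem_univ k) hk⟩, rfl⟩
    right
    obtain ⟨a, b, c, hab, hbc, hcn, hf⟩ := three_indices n hn (fun k => ¬ ZeroCurv Ω (p k)) hcard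
    have hf' : ∀ k, k < n → k ≠ a → k ≠ b → k ≠ c → ZeroCurv Ω (p k) := by
      intro k hk h1 h2 h3
      by_contra hcon
      rcases hf k hk hcon with h4 | h4 | h4
      · exact h1 h4
      · exact h2 h4
      · exact h3 h4
    refine mem_iUnion.2 ⟨n, mem_iUnion.2 ⟨b - a, mem_iUnion.2 ⟨c - a, mem_iUnion.2 ⟨n - a,
      mem_iUnion.2 ⟨⟨by omega, by omega, by omega, by omega⟩, ?_⟩⟩⟩⟩⟩
    refine ⟨(fun k => p (k + a), fun k => u (k + a)), ⟨OrbitMod.shift' h a, ?_⟩, ?_⟩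
    · intro k hk hkM
      have hk3 : k ≠ 0 ∧ k ≠ b - a ∧ k ≠ c - a := by
        refine ⟨fun h => hkM ?_, fun h => hkM ?_, fun h => hkM ?_⟩ <;> rw [hR] <;>
          exact idx3_mem _ _ _ _ (by tauto)
      obtain ⟨k1, k2, k3⟩ := hk3
      change ZeroCurv Ω (p (k + a))
      rcases Nat.lt_or_ge (k + a) n with h1 | h1
      · exact hf' _ h1 (by omega) (by omega) (by omega)
      · have e : k + a = (k + a - n) + n := by omega
        rw [e, h.perp]
        have h5 : ZeroCurv Ω (p (k + a - n)) := hf' _ (by omega) (by omega) (by omega) (by omega)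
        have h6 : ZeroCurv Ω (g.symm (g (p (k + a - n)))) := by
          rw [g.symm_apply_apply]; exact h5
        have h7 := h6.comp g.symm
        rwa [preimage_symm hg] at h7
    · have e : n - a + a = 0 + n := by omega
      simp only [e, h.perp, h.peru]
  · refine (measure_biUnion_null_iff hΓ).2 fun g hgΓ => ?_
    have hg := hinv g hgΓ
    have hg3 : (g * (g * g)) ⁻¹' Ω = Ω := by
      change (fun x => g (g (g x))) ⁻¹' Ω = Ω
      have e : (fun x => g (g (g x))) = g ∘ (g ∘ g) := rfl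
      rw [e, preimage_comp, preimage_comp, hg, hg, hg]
    refine measure_union_null (measure_union_null
      (pc_null hd hg univ (fun k => by simp) (allNull_two hd _) 0 (by norm_num)) ?_) ?_
    · rw [hR]
      exact pc_null hd hg3 _ (idx3_per (by norm_num) (by norm_num) (by norm_num))
        (allNull_three hd (by norm_num) (by norm_num) (by norm_num)) 0 (by norm_num)
    · refine measure_iUnion_null fun n => measure_iUnion_null fun b => measure_iUnion_null fun c =>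
        measure_iUnion_null fun m => measure_iUnion_null fun hbc => ?_
      obtain ⟨h1, h2, h3, h4⟩ := hbc
      rw [hR]
      exact pull g _ _ (pc_null hd hg _ (idx3_per h1 h2 h3) (allNull_three hd h1 h2 h3) m h4)

end D

end Pool.Agent.T2h25.Iv
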