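import Pool.Agent.TH318.IvK
import Pool.Agent.T2h25.Iv.F3

/-!
# Weak focusing: the dimension of the set of periodic points
-/

set_option autoImplicit false

open MeasureTheory Set Filter Topology
open scoped InnerProductSpace
open Pool.Agent.H721R2.Quart Pool.Agent.H721R2.Ivrii Pool.Agent.TH746 Pool.Agent.TH318.Iv

namespace Pool.Agent.T2h25.Iv

section J
variable {E : Type*} [NormedAddCommGroup E] [InnerProductSpace ℝ E] [FiniteDimensional ℝ E]
variable [MeasurableSpace E] [BorelSpace E]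

theorem local_nullJ (hd : 2 ≤ Module.finrank ℝ E) {Ω : Set E} {g : E ≃ᵃⁱ[ℝ] E}
    (hg : g ⁻¹' Ω = Ω) {n : ℕ} {p u : ℕ → E} (h : OrbitMod Ω g n p u) (m : ℕ) (hm : m ≤ n) :
    ∃ Y : Set (E × E), smM (E × E) (2 * Module.finrank ℝ E - 3) Y = 0 ∧
      ∀ᶠ w : (ℕ → E) × (ℕ → E) in 𝓝 (p, u), (OrbitMod Ω g n w.1 w.2 ∧
        WeakPath Ω (Par g n) n w.1 w.2) → (w.1 m, w.2 m) ∈ Y := by
  obtain ⟨a, b, C, ha, hb, hCN, hCg, hLip, hev⟩ := exists_chn2 hg h
  have hfr : Module.finrank ℝ ((ℝ ∙ a)ᗮ × (ℝ ∙ b)ᗮ) = (2 * Module.finrank ℝ E - 3) + 1 := by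
    have h1 := Submodule.finrank_add_finrank_orthogonal (ℝ ∙ a)
    have h2 := Submodule.finrank_add_finrank_orthogonal (ℝ ∙ b)
    rw [finrank_span_singleton ha] at h1
    rw [finrank_span_singleton hb] at h2
    rw [Module.finrank_prod]
    omega
  obtain ⟨B, hBA, hBm, hBn, hBg⟩ := exists_goodC C hfr univ
  obtain ⟨R, hR⟩ : ∃ R : Set ((ℝ ∙ a)ᗮ × (ℝ ∙ b)ᗮ), R = {z | z ∈ C.A univ ∧
      BadC C z (fun k => ∑ j ∈ Finset.range k, C.L j z)} := ⟨_, rfl⟩
  have hRA : smM ((ℝ ∙ a)ᗮ × (ℝ ∙ b)ᗮ) (2 * Module.finrank ℝ E - 3) R = 0 := by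
    refine measure_mono_null ?_ hBn
    rw [hR]
    rintro z ⟨hz, hzw⟩
    refine ⟨hz, fun hzB => ?_⟩
    exact not_bad C hz.1 hz.2.2.1 hz.2.2.2.1 (hBg z hzB).1 (hBg z hzB).2.1 (hBg z hzB).2.2 hzw
  obtain ⟨K, hK⟩ := hLip m hm
  refine ⟨(fun z => (C.x m z, C.e m z)) '' R, ?_, ?_⟩
  · have hK' : LipschitzOnWith K (fun z => (C.x m z, C.e m z)) R :=
      hK.mono fun z hz => by rw [hR] at hz; exact hz.1.1
    exact smM_eq_zero.2 ((smM_eq_zero.1 hRA).image_lip hK')
  · filter_upwards [hev] with w hw hor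
    obtain ⟨z, hzU, hz1, hz2, hz3⟩ := hw hor.1
    refine ⟨z, ?_, ?_⟩
    swap
    · simp only
      rw [(hz1 m hm).1, (hz1 m hm).2]
    rw [hR]
    refine ⟨⟨hzU, ?_, ?_, hz2, fun k _ hk => absurd (mem_univ k) hk⟩, ?_⟩
    · rw [hCN, (hz1 n le_rfl).1, (hz1 0 (Nat.zero_le _)).1, hCg]
      have := hor.1.perp 0
      rwa [zero_add] at this
    · rw [hCN, (hz1 n le_rfl).2, (hz1 0 (Nat.zero_le _)).2, C.G_apply, hCg]
      have := hor.1.peru 0
      rwa [zero_add] at this
    -- the weak focusing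
    have hunit := unit_steps hor.1.step hor.1.unit
    have hlen : ∀ j < n, C.L j z = ‖w.1 (j + 1) - w.1 j‖ := by
      intro j hj
      have h1 := C.step j (by omega) z
      rw [(hz1 (j + 1) hj).1, (hz1 j hj.le).1, (hz1 j hj.le).2] at h1
      have h2 : ‖w.2 j‖ = 1 := by
        have h5 := hunit j
        rw [real_inner_self_eq_norm_sq] at h5
        nlinarith [norm_nonneg (w.2 j)]
      rw [h1, add_sub_cancel_left, norm_smul, h2, mul_one, Real.norm_eq_abs,
        abs_of_pos (C.Lpos j (by omega) z hzU)]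
    have hsum : ∀ k ≤ n, ∑ j ∈ Finset.range k, C.L j z = pos w.1 k := by
      intro k hk
      exact Finset.sum_congr rfl fun j hj => hlen j (by have := Finset.mem_range.1 hj; omega)
    have hpos : ∀ k, k + 1 < C.N → 0 < ⟪C.n (k + 1) z, C.e k z⟫_ℝ := by
      intro k hk
      rw [hCN] at hk
      obtain ⟨F, hF, hn, -⟩ := hz3 (k + 1) hk
      rw [hn, (hz1 k (by omega)).2]
      unfold dir
      rw [real_inner_smul_left]
      exact mul_pos (inv_pos.2 (norm_pos_iff.2 hF.grad)) (step_pos (hor.1.step k) hF)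
    have hCF : ∀ k, k + 1 < C.N → ∀ (r : ℕ) (β : ℝ), FocLe Ω (w.1 (k + 1)) (w.2 (k + 1)) r β →
        CF C z k r β := by
      intro k hk r β h2
      have hp := hpos k hk
      have hk' := hk
      rw [hCN] at hk'
      obtain ⟨F, hF, hn, hS⟩ := hz3 (k + 1) hk'
      obtain ⟨c, hc⟩ := focLe_def h2 hF
      refine ⟨c, fun a ha hi => ?_⟩
      have hr := C.refl k (by omega) z
      have hnn := C.nn (k + 1) hk z hzU
      -- the outgoing direction
      have ho : ⟪C.n (k + 1) z, C.e (k + 1) z⟫_ℝ = -⟪C.n (k + 1) z, C.e k z⟫_ℝ := by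
        rw [hr]; unfold rf
        rw [inner_sub_right, inner_smul_right, hnn]
        ring
      have he : ⟪C.e (k + 1) z, a⟫_ℝ = ⟪C.e k z, a⟫_ℝ := by
        rw [hr, G3_rf_sym, G3_rf_tan ha]
      have hN : 0 < ‖gradient F (w.1 (k + 1))‖ := norm_pos_iff.2 hF.grad
      have hga : ⟪gradient F (w.1 (k + 1)), a⟫_ℝ = 0 := by
        rw [hn] at ha
        unfold dir at ha
        rw [real_inner_smul_left] at ha
        exact (mul_eq_zero.1 ha).resolve_left (inv_ne_zero hN.ne')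
      have h3 := hc a hga hi
      have h4 : |⟪gradient F (w.1 (k + 1)), w.2 (k + 1)⟫_ℝ| =
          ‖gradient F (w.1 (k + 1))‖ * ⟪C.n (k + 1) z, C.e k z⟫_ℝ := by
        have h5 : ⟪gradient F (w.1 (k + 1)), w.2 (k + 1)⟫_ℝ =
            ‖gradient F (w.1 (k + 1))‖ * ⟪C.n (k + 1) z, C.e (k + 1) z⟫_ℝ := by
          rw [hn, (hz1 (k + 1) (by omega)).2]
          unfold dir
          rw [real_inner_smul_left, mul_inv_cancel_left₀ hN.ne']
        rw [h5, ho, abs_mul, abs_of_pos hN, abs_neg, abs_of_pos hp]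
      rw [h4, ← (hz1 (k + 1) (by omega)).2, he] at h3
      rw [hS a ha]
      have h6 : ‖gradient F (w.1 (k + 1))‖ ^ 2 * (-(2 * ⟪C.n (k + 1) z, C.e k z⟫_ℝ *
          -(‖gradient F (w.1 (k + 1))‖⁻¹ * fderiv ℝ (fderiv ℝ F) (w.1 (k + 1)) a a))) ≤
          ‖gradient F (w.1 (k + 1))‖ ^ 2 * (β * (‖a‖ ^ 2 - ⟪C.e k z, a⟫_ℝ ^ 2)) := by
        have h7 : ‖gradient F (w.1 (k + 1))‖ ^ 2 * (-(2 * ⟪C.n (k + 1) z, C.e k z⟫_ℝ *
          -(‖gradient F (w.1 (k + 1))‖⁻¹ * fderiv ℝ (fderiv ℝ F) (w.1 (k + 1)) a a))) =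
          2 * (‖gradient F (w.1 (k + 1))‖ * ⟪C.n (k + 1) z, C.e k z⟫_ℝ) *
            fderiv ℝ (fderiv ℝ F) (w.1 (k + 1)) a a := by
          field_simp
        rw [h7]
        linarith [h3]
      exact le_of_mul_le_mul_left h6 (pow_pos hN 2)
    have hLn := hsum n le_rfl
    have hp0 : ∀ k, 0 < k → k ≤ n → 0 < pos w.1 k := by
      intro k hk hkn
      rw [← hsum k hkn]
      refine Finset.sum_pos (fun j hj => C.Lpos j (by have := Finset.mem_range.1 hj; omega) z hzU)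
        ⟨0, Finset.mem_range.2 hk⟩
    have hpn : ∀ k, k < n → pos w.1 k < pos w.1 n := by
      intro k hk
      rw [← hsum k hk.le, ← hsum n le_rfl]
      refine Finset.sum_lt_sum_of_subset (i := k) (Finset.range_mono hk.le)
        (Finset.mem_range.2 hk) (by simp) (C.Lpos k (by omega) z hzU) ?_
      intro j hj _
      exact (C.Lpos j (by have := Finset.mem_range.1 hj; omega) z hzU).le
    rcases hor.2 with ⟨r, β, hβ, hr, hw2⟩ | ⟨hpar, hw2⟩
    · left
      refine ⟨r, β, fun k hk => ?_, by rw [hCN]; exact hr, ?_⟩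
      · have h1 := hβ (k + 1) (Nat.succ_pos k) (by rw [hCN] at hk; exact hk)
        exact ⟨h1.1, hCF k hk _ _ h1.2⟩
      · simp only
        rw [hCN, hLn]
        refine lt_of_le_of_lt (le_of_eq (Finset.sum_congr rfl fun k hk => ?_)) hw2
        rw [hsum k (Finset.mem_Ioo.1 hk).2.le]
    · right
      constructor
      · rw [hCN, ← hpar, mul_comm]
        congr 2
        apply LinearMap.ext
        intro v
        change C.G v = _
        rw [C.G_apply, hCg]
        rfl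
      · intro t ht0 ht1
        beta_reduce at ht1 ⊢
        rw [hCN, hLn] at ht1
        rcases hw2 t ht0 ht1 with ⟨β, hβ, hs⟩ | ⟨β, hβ, hs⟩
        · left
          refine ⟨β, fun k hk hkt => ?_, ?_⟩
          · rw [hCN] at hk
            rw [hsum (k + 1) hk.le] at hkt
            have h1 := hβ (k + 1) (Nat.succ_pos k) hk (hp0 (k + 1) (Nat.succ_pos k) hk.le) hkt
            exact ⟨h1.1, hCF k (by omega) _ _ h1.2⟩
          · rw [hCN]
            refine lt_of_le_of_lt (le_of_eq ?_) (lt_of_lt_of_eq hs (sub_zero t))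
            refine Finset.sum_congr ?_ fun k hk => ?_
            · ext k
              simp only [Finset.mem_filter, Finset.mem_Ioo]
              constructor
              · rintro ⟨⟨h1, h2⟩, h3⟩
                rw [hsum k h2.le] at h3
                exact ⟨⟨h1, h2⟩, hp0 k h1 h2.le, h3⟩
              · rintro ⟨⟨h1, h2⟩, -, h3⟩
                refine ⟨⟨h1, h2⟩, ?_⟩
                rw [hsum k h2.le]
                exact h3
            · simp only [Finset.mem_filter, Finset.mem_Ioo] at hk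
              rw [hsum k hk.1.2.le, sub_zero]
        · right
          refine ⟨β, fun k hk hkt => ?_, ?_⟩
          · rw [hCN] at hk
            rw [hsum (k + 1) hk.le] at hkt
            have h1 := hβ (k + 1) (Nat.succ_pos k) hk hkt (hpn (k + 1) hk)
            exact ⟨h1.1, hCF k (by omega) _ _ h1.2⟩
          · rw [hCN, hLn]
            refine lt_of_le_of_lt (le_of_eq ?_) hs
            refine Finset.sum_congr ?_ fun k hk => ?_
            · ext k
              simp only [Finset.mem_filter, Finset.mem_Ioo]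
              constructor
              · rintro ⟨⟨h1, h2⟩, h3⟩
                rw [hsum k h2.le] at h3
                exact ⟨⟨h1, h2⟩, h3, hpn k h2⟩
              · rintro ⟨⟨h1, h2⟩, h3, -⟩
                refine ⟨⟨h1, h2⟩, ?_⟩
                rw [hsum k h2.le]
                exact h3
            · simp only [Finset.mem_filter, Finset.mem_Ioo] at hk
              rw [hsum k hk.1.2.le]

theorem pw_nullJ (hd : 2 ≤ Module.finrank ℝ E) {Ω : Set E} {g : E ≃ᵃⁱ[ℝ] E}
    (hg : g ⁻¹' Ω = Ω) (n m : ℕ) (hm : m ≤ n) :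
    smM (E × E) (2 * Module.finrank ℝ E - 3) (Pw Ω g n m) = 0 := by
  apply null_of_locally_null
  rintro ⟨p, u⟩ ⟨h, -⟩
  exact local_nullJ hd hg h m hm

/-- The main theorem. -/
theorem weakPer_nullJ (hd : 2 ≤ Module.finrank ℝ E) (Ω : Set E) (Γ : Set (E ≃ᵃⁱ[ℝ] E))
    (hΓ : Γ.Countable) (hinv : ∀ g ∈ Γ, g ⁻¹' Ω = Ω) :
    smM (E × E) (2 * Module.finrank ℝ E - 3) (WeakPer Γ Ω) = 0 := by
  refine measure_mono_null (t := ⋃ g ∈ Γ, ⋃ n : ℕ, ⋃ m : ℕ, ⋃ (_ : m ≤ n),
    {z : E × E | (g z.1, g.linearIsometryEquiv z.2) ∈ Pw Ω g n m}) ?_ ?_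
  · rintro z ⟨g, hgΓ, n, p, u, i, h, rfl, hin, hw⟩
    refine mem_iUnion₂.2 ⟨g, hgΓ, mem_iUnion.2 ⟨n, mem_iUnion.2 ⟨n - i,
      mem_iUnion.2 ⟨Nat.sub_le _ _, ?_⟩⟩⟩⟩
    refine ⟨(fun k => p (k + i), fun k => u (k + i)), ⟨OrbitMod.shift2 h i, hw⟩, ?_⟩
    have e : n - i + i = 0 + n := by omega
    simp only [e, h.perp, h.peru]
  · refine (measure_biUnion_null_iff hΓ).2 fun g hgΓ => ?_
    refine measure_iUnion_null fun n => measure_iUnion_null fun m =>
      measure_iUnion_null fun hm => ?_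
    exact pull g _ _ (pw_nullJ hd (hinv g hgΓ) n m hm)

end J

end Pool.Agent.T2h25.Iv
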