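import Pool.Agent.T2h25.Iv.Sm
import Pool.Agent.H721R2.Quart.G6

set_option autoImplicit false

open MeasureTheory Set Filter Topology
open scoped InnerProductSpace
open Pool.Agent.H721R2.Quart Pool.Agent.H721R2.Quart.Fam Pool.Agent.H721R2

namespace Pool.Agent.T2h25.Iv

section Q
variable {E Z : Type*} [NormedAddCommGroup E] [InnerProductSpace ℝ E] [FiniteDimensional ℝ E]
  [NormedAddCommGroup Z] [NormedSpace ℝ Z] [FiniteDimensional ℝ Z] [MeasurableSpace Z]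
  [BorelSpace Z]

theorem A1_goodS {r : ℕ} (hfr : Module.finrank ℝ Z = r + 1) (F : Fam E Z) (hA : MeasurableSet F.A) :
    ∃ B ⊆ F.A, MeasurableSet B ∧ smM Z r (F.A \ B) = 0 ∧ ∀ z ∈ B, F.Good z := by
  obtain ⟨B1, s1, m1, n1, g1⟩ := ae_zero' hfr hA (f := F.fnu) (fun z hz => A1_nu F hz)
  obtain ⟨B2, s2, m2, n2, g2⟩ := ae_zero' hfr hA (f := F.fplan) (fun z hz => A1_plan F hz)
  obtain ⟨B3, s3, m3, n3, g3⟩ := ae_zero' hfr hA (f := F.fumb) (fun z hz => A1_umb F hz)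
  obtain ⟨B4, s4, m4, n4, g4⟩ := ae_zero' hfr hA (f := F.ftau) (fun z hz => A1_tau F hz)
  obtain ⟨B5, s5, m5, n5, g5⟩ := ae_zero' hfr hA (f := F.fT) (fun z hz => A1_T F hz)
  obtain ⟨B6, s6, m6, n6, g6⟩ := ae_zero' hfr hA (f := F.fPhi) (fun z hz => A1_Phi F hz)
  obtain ⟨B7, s7, m7, n7, g7⟩ := ae_zero' hfr hA (f := F.fH) (fun z hz => A1_H F hz)
  refine ⟨B1 ∩ (B2 ∩ (B3 ∩ (B4 ∩ (B5 ∩ (B6 ∩ B7))))), fun z hz => s1 hz.1,
    m1.inter (m2.inter (m3.inter (m4.inter (m5.inter (m6.inter m7))))), ?_, ?_⟩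
  · have h : F.A \ (B1 ∩ (B2 ∩ (B3 ∩ (B4 ∩ (B5 ∩ (B6 ∩ B7)))))) ⊆
        (F.A \ B1) ∪ ((F.A \ B2) ∪ ((F.A \ B3) ∪ ((F.A \ B4) ∪ ((F.A \ B5) ∪
          ((F.A \ B6) ∪ (F.A \ B7)))))) := by
      rw [Set.sdiff_inter, Set.sdiff_inter, Set.sdiff_inter, Set.sdiff_inter, Set.sdiff_inter,
        Set.sdiff_inter]
    refine measure_mono_null h ?_
    exact measure_union_null n1 (measure_union_null n2 (measure_union_null n3
      (measure_union_null n4 (measure_union_null n5 (measure_union_null n6 n7)))))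
  · rintro z ⟨h1, h2, h3, h4, h5, h6, h7⟩
    exact ⟨g1 z h1, g2 z h2, g3 z h3, g4 z h4, g5 z h5, g6 z h6, g7 z h7⟩

/-- A2 (uses A1) -/
theorem exists_goodQ {r : ℕ} (hfr : Module.finrank ℝ Z = r + 1) (F : Fam E Z)
    (hA : MeasurableSet F.A) :
    ∃ B ⊆ F.A, MeasurableSet B ∧ smM Z r (F.A \ B) = 0 ∧ ∀ z ∈ B, ∀ j, (F.shift j).Good z := by
  have h : ∀ j, ∃ B ⊆ F.A, MeasurableSet B ∧ smM Z r (F.A \ B) = 0 ∧
      ∀ z ∈ B, (F.shift j).Good z := fun j => A1_goodS hfr (F.shift j) hA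
  choose B s m n g using h
  refine ⟨⋂ j, B j, fun z hz => s 0 (mem_iInter.mp hz 0), MeasurableSet.iInter m, ?_, ?_⟩
  · rw [Set.sdiff_iInter]
    exact measure_iUnion_null n
  · exact fun z hz j => g j z (mem_iInter.mp hz j)

/-- F5 -/
theorem null_AQ {r : ℕ} (hfr : Module.finrank ℝ Z = r + 1) (F : Fam E Z) (hd : 3 ≤ Module.finrank ℝ E)
    (hA : MeasurableSet F.A) : smM Z r F.A = 0 := by
  obtain ⟨B, hBA, hBm, hB0, hB⟩ := exists_goodQ hfr F hA
  have h1 : B = ∅ := by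
    rw [Set.eq_empty_iff_forall_notMem]
    intro z hz
    exact F.no_good' hd (hBA hz) (hB z hz)
  rw [h1, sdiff_empty] at hB0
  exact hB0

/-- G3 -/
theorem exists_famQ (R : Raw E Z) {r : ℕ}
    (hfr : Module.finrank ℝ Z = r + 1) :
    ∃ F : Fam E Z, F.A ⊆ R.A ∧ MeasurableSet F.A ∧ smM Z r (R.A \ F.A) = 0 := by
  obtain ⟨f3, hf3d⟩ : ∃ f3 : Z → E, f3 = fun z => R.e 3 z - rf (R.n 3 z) (R.e 2 z) := ⟨_, rfl⟩
  obtain ⟨f0, hf0d⟩ : ∃ f0 : Z → E, f0 = fun z => R.e 0 z - rf (R.n 0 z) (R.e 3 z) := ⟨_, rfl⟩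
  have hf3 : ∀ z ∈ R.U, DifferentiableAt ℝ f3 z := by
    intro z hz
    rw [hf3d]
    exact (R.de 3 z hz).sub (G3_rf_diff (R.dn 3 z hz) (R.de 2 z hz))
  have hf0 : ∀ z ∈ R.U, DifferentiableAt ℝ f0 z := by
    intro z hz
    rw [hf0d]
    exact (R.de 0 z hz).sub (G3_rf_diff (R.dn 0 z hz) (R.de 3 z hz))
  have hmeas : ∀ f : Z → E, (∀ z ∈ R.U, DifferentiableAt ℝ f z) →
      MeasurableSet (R.U ∩ f ⁻¹' {0}) := by
    intro f hf
    have hc : ContinuousOn f R.U := fun z hz => (hf z hz).continuousAt.continuousWithinAt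
    have ho := hc.isOpen_inter_preimage R.hU (isOpen_compl_singleton (x := (0 : E)))
    have he : R.U ∩ f ⁻¹' {0} = R.U \ (R.U ∩ f ⁻¹' {0}ᶜ) := by
      ext z; simp only [mem_inter_iff, mem_preimage, mem_singleton_iff, Set.mem_sdiff, mem_compl_iff]
      tauto
    rw [he]
    exact R.hU.measurableSet.diff ho.measurableSet
  have hAmeas : MeasurableSet R.A := by
    have hA : R.A = (R.U ∩ f3 ⁻¹' {0}) ∩ (R.U ∩ f0 ⁻¹' {0}) := by
      ext z
      simp only [Raw.A, mem_ofPred_eq, mem_inter_iff, mem_preimage, mem_singleton_iff, hf3d, hf0d,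
        sub_eq_zero]
      tauto
    rw [hA]
    exact (hmeas f3 hf3).inter (hmeas f0 hf0)
  obtain ⟨B1, hB1, hB1m, hB1z, hB1d⟩ := ae_zero' hfr hAmeas (f := f3) (fun z hz => hf3 z hz.1)
  obtain ⟨B2, hB2, hB2m, hB2z, hB2d⟩ := ae_zero' hfr hB1m (f := f0) (fun z hz => hf0 z (hB1 hz).1)
  have hsub : B2 ⊆ R.A := hB2.trans hB1
  have hU : ∀ z ∈ B2, z ∈ R.U := fun z hz => (hsub hz).1
  have hrefl : ∀ k, ∀ z ∈ B2, R.e (k + 1) z = rf (R.n (k + 1) z) (R.e k z) := by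
    apply G3_per
    · exact fun z hz => R.refl1 z (hU z hz)
    · exact fun z hz => R.refl2 z (hU z hz)
    · exact fun z hz => (hsub hz).2.1
    · intro z hz
      have h1 : R.e 4 = R.e 0 := R.pe 0
      have h2 : R.n 4 = R.n 0 := R.pn 0
      show R.e 4 z = rf (R.n 4 z) (R.e 3 z)
      rw [h1, h2]
      exact (hsub hz).2.2
    · intro k hk z hz
      have := hk z hz
      rw [show k + 4 + 1 = k + 1 + 4 by omega, R.pe, R.pn, R.pe]
      exact this
  have hrj : ∀ k, ∀ z ∈ B2, ∀ ζ, fderiv ℝ (R.e (k + 1)) z ζ =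
      rf (R.n (k + 1) z) (fderiv ℝ (R.e k) z ζ)
      - (2 * ⟪fderiv ℝ (R.n (k + 1)) z ζ, R.e k z⟫_ℝ) • R.n (k + 1) z
      - (2 * ⟪R.n (k + 1) z, R.e k z⟫_ℝ) • fderiv ℝ (R.n (k + 1)) z ζ := by
    apply G3_per
    · intro z hz ζ
      have h1 : R.e 1 =ᶠ[𝓝 z] fun z => rf (R.n 1 z) (R.e 0 z) := by
        filter_upwards [R.hU.mem_nhds (hU z hz)] with y hy using R.refl1 y hy
      show fderiv ℝ (R.e 1) z ζ = _
      rw [h1.fderiv_eq]
      exact G3_rf_fderiv (R.dn 1 z (hU z hz)) (R.de 0 z (hU z hz)) ζ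
    · intro z hz ζ
      have h1 : R.e 2 =ᶠ[𝓝 z] fun z => rf (R.n 2 z) (R.e 1 z) := by
        filter_upwards [R.hU.mem_nhds (hU z hz)] with y hy using R.refl2 y hy
      show fderiv ℝ (R.e 2) z ζ = _
      rw [h1.fderiv_eq]
      exact G3_rf_fderiv (R.dn 2 z (hU z hz)) (R.de 1 z (hU z hz)) ζ
    · intro z hz ζ
      have h0 : fderiv ℝ f3 z = 0 := hB1d z (hB2 hz) (by
        rw [hf3d]; exact sub_eq_zero.2 (hsub hz).2.1)
      have h1 : HasFDerivAt f3 (fderiv ℝ (R.e 3) z -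
          fderiv ℝ (fun z => rf (R.n 3 z) (R.e 2 z)) z) z := by
        rw [hf3d]
        exact (R.de 3 z (hU z hz)).hasFDerivAt.sub
          (G3_rf_diff (R.dn 3 z (hU z hz)) (R.de 2 z (hU z hz))).hasFDerivAt
      rw [h1.fderiv, sub_eq_zero] at h0
      show fderiv ℝ (R.e 3) z ζ = _
      rw [h0]
      exact G3_rf_fderiv (R.dn 3 z (hU z hz)) (R.de 2 z (hU z hz)) ζ
    · intro z hz ζ
      have h0 : fderiv ℝ f0 z = 0 := hB2d z hz (by
        rw [hf0d]; exact sub_eq_zero.2 (hsub hz).2.2)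
      have h1 : HasFDerivAt f0 (fderiv ℝ (R.e 0) z -
          fderiv ℝ (fun z => rf (R.n 0 z) (R.e 3 z)) z) z := by
        rw [hf0d]
        exact (R.de 0 z (hU z hz)).hasFDerivAt.sub
          (G3_rf_diff (R.dn 0 z (hU z hz)) (R.de 3 z (hU z hz))).hasFDerivAt
      rw [h1.fderiv, sub_eq_zero] at h0
      have e4 : R.e 4 = R.e 0 := R.pe 0
      have n4 : R.n 4 = R.n 0 := R.pn 0
      show fderiv ℝ (R.e 4) z ζ = rf (R.n 4 z) (fderiv ℝ (R.e 3) z ζ)
        - (2 * ⟪fderiv ℝ (R.n 4) z ζ, R.e 3 z⟫_ℝ) • R.n 4 z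
        - (2 * ⟪R.n 4 z, R.e 3 z⟫_ℝ) • fderiv ℝ (R.n 4) z ζ
      rw [e4, n4, h0]
      exact G3_rf_fderiv (R.dn 0 z (hU z hz)) (R.de 3 z (hU z hz)) ζ
    · intro k hk z hz ζ
      have := hk z hz ζ
      rw [show k + 4 + 1 = k + 1 + 4 by omega, R.pe, R.pn, R.pe]
      exact this
  have hej : ∀ k, ∀ z ∈ B2, ∀ ζ, ⟪R.e k z, fderiv ℝ (R.e k) z ζ⟫_ℝ = 0 := fun k z hz ζ =>
    G3_unit R.hU (hU z hz) (R.de k z (hU z hz)) (R.ee k) ζ
  have hsj : ∀ k, ∀ z ∈ B2, ∀ ζ, fderiv ℝ (R.x (k + 1)) z ζ =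
      fderiv ℝ (R.x k) z ζ + fderiv ℝ (R.L k) z ζ • R.e k z + R.L k z • fderiv ℝ (R.e k) z ζ :=
    fun k z hz ζ => G3_step R.hU (hU z hz) (R.dx k z (hU z hz)) (R.de k z (hU z hz))
      (R.dL k z (hU z hz)) (R.step k) ζ
  refine ⟨{ A := B2, x := R.x, e := R.e, n := R.n, L := R.L, S := R.S
            px := R.px, pe := R.pe, pn := R.pn, pL := R.pL, pS := R.pS
            dx := fun k z hz => R.dx k z (hU z hz)
            de := fun k z hz => R.de k z (hU z hz)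
            dn := fun k z hz => R.dn k z (hU z hz)
            dL := fun k z hz => R.dL k z (hU z hz)
            dS := fun k z hz => R.dS k z (hU z hz)
            Lpos := fun k z hz => R.Lpos k z (hU z hz)
            ee := fun k z hz => R.ee k z (hU z hz)
            nn := fun k z hz => R.nn k z (hU z hz)
            step := fun k z hz => R.step k z (hU z hz)
            refl := hrefl
            tr := fun k z hz => R.tr k z (hU z hz)
            sym := fun k z hz => R.sym k z (hU z hz)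
            Sn := fun k z hz => R.Sn k z (hU z hz)
            ejac := hej
            tan := fun k z hz => R.tan k z (hU z hz)
            njac := fun k z hz => R.njac k z (hU z hz)
            Sjac := fun k z hz => R.Sjac k z (hU z hz)
            stepjac := hsj
            refljac := hrj
            piv := ?_ }, hsub, hB2m, ?_⟩
  · intro k z hz
    exact G3_piv (fun k => R.e k z) (fun k => R.n k z) (fun k => R.L k z)
      (fun k v => R.S k z v) (fun k ζ => fderiv ℝ (R.x k) z ζ) (fun k ζ => fderiv ℝ (R.e k) z ζ)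
      (fun k ζ => fderiv ℝ (R.L k) z ζ) (fun k => R.ee k z (hU z hz)) (fun k => R.nn k z (hU z hz))
      (fun k => R.Lpos k z (hU z hz)) (fun k => hrefl k z hz) (fun k => R.tr k z (hU z hz))
      (fun k => R.sym k z (hU z hz)) (fun k => R.Sn k z (hU z hz)) (fun k => hej k z hz)
      (fun k => R.tan k z (hU z hz)) (fun k => hsj k z hz)
      (fun k ζ => by
        have := hrj k z hz ζ
        rw [R.njac (k + 1) z (hU z hz) ζ] at this
        exact this)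
      (fun X Y hX hY => R.surj z (hU z hz) X Y hX hY)
      (fun k => by simp only [R.pe k]) (fun k => by simp only [R.px k])
      (fun k => by simp only [R.pe k]) k
  · have h1 : R.A \ B2 ⊆ (R.A \ B1) ∪ (B1 \ B2) := by
      intro z hz
      by_cases h : z ∈ B1
      · exact Or.inr ⟨h, hz.2⟩
      · exact Or.inl ⟨hz.1, h⟩
    refine measure_mono_null h1 ?_
    exact (measure_union_null hB1z hB2z)

end Q

section G
variable {E : Type*} [NormedAddCommGroup E] [InnerProductSpace ℝ E] [FiniteDimensional ℝ E]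

/-- G5 -/
theorem local_nullQ [MeasurableSpace E] [BorelSpace E] (hd : 3 ≤ Module.finrank ℝ E)
    (F : ℕ → E → ℝ) (hp : ∀ k, F (k + 4) = F k)
    (w0 : E × E × E × E) (hF : ∀ k, ContDiffAt ℝ 3 (F k) (quad w0 k))
    (hg : ∀ k, gradient (F k) (quad w0 k) ≠ 0) (hR : Rel4 F w0) :
    ∃ N : Set (E × E), smM (E × E) (2 * Module.finrank ℝ E - 3) N = 0 ∧
      ∀ᶠ w in 𝓝 w0, Rel4 F w → (quad w 1, dir (quad w 2 - quad w 1)) ∈ N := by
  obtain ⟨R, ⟨K, hK⟩, hev⟩ := exists_raw F hp w0 hF hg hR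
  have hfr : Module.finrank ℝ ((ℝ ∙ gradient (F 1) (quad w0 1))ᗮ ×
      (ℝ ∙ gradient (F 2) (quad w0 2))ᗮ) = (2 * Module.finrank ℝ E - 3) + 1 := by
    have h1 := Submodule.finrank_add_finrank_orthogonal (ℝ ∙ gradient (F 1) (quad w0 1))
    have h2 := Submodule.finrank_add_finrank_orthogonal (ℝ ∙ gradient (F 2) (quad w0 2))
    rw [finrank_span_singleton (hg 1)] at h1
    rw [finrank_span_singleton (hg 2)] at h2
    rw [Module.finrank_prod]
    omega
  obtain ⟨Fm, hFA, hFm, hFn⟩ := exists_famQ R hfr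
  have h0 := null_AQ hfr Fm hd hFm
  have hRA : Sm (2 * Module.finrank ℝ E - 3) R.A := by
    refine smM_eq_zero.1 (measure_mono_null (t := Fm.A ∪ (R.A \ Fm.A)) ?_
      (measure_union_null h0 hFn))
    intro z hz
    by_cases h : z ∈ Fm.A
    · exact Or.inl h
    · exact Or.inr ⟨hz, h⟩
  refine ⟨(fun z => (R.x 1 z, R.e 1 z)) '' R.A, ?_, ?_⟩
  · have hK' : LipschitzOnWith K (fun z => (R.x 1 z, R.e 1 z)) R.A :=
      hK.mono fun z hz => hz.1
    exact smM_eq_zero.2 (hRA.image_lip hK')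
  · filter_upwards [hev] with w hw hRw
    obtain ⟨z, hz, h1, h2⟩ := hw hRw
    exact ⟨z, hz, by rw [Prod.mk.injEq]; exact ⟨h1, h2⟩⟩

end G

/-- G6 -/
theorem perFour_nullS {E : Type*} [NormedAddCommGroup E] [InnerProductSpace ℝ E]
    [FiniteDimensional ℝ E] [MeasurableSpace E] [BorelSpace E] (hd : 3 ≤ Module.finrank ℝ E)
    (Ω : Set E) : smM (E × E) (2 * Module.finrank ℝ E - 3) (PerFour Ω) = 0 := by
  obtain ⟨W, hW⟩ : ∃ W : Set (E × E × E × E), W = {w | ∃ F : ℕ → E → ℝ,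
      (∀ k, F (k + 4) = F k) ∧ (∀ k, Ivrii.LocalDef Ω (quad w k) (F k)) ∧ Rel4 F w} := ⟨_, rfl⟩
  have hsub : PerFour Ω ⊆ (fun w : E × E × E × E => (quad w 1, dir (quad w 2 - quad w 1))) '' W := by
    rintro z ⟨p, u, ho, rfl⟩
    obtain ⟨F, h1, h2, h3, h4⟩ := G6_orbit ho
    refine ⟨(p 3, p 0, p 1, p 2), ?_, ?_⟩
    · rw [hW]
      exact ⟨F, h1, h2, h3⟩
    · simp only
      rw [h4]
      rfl
  refine measure_mono_null hsub ?_
  apply G6_null_of_locally_null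
  intro w hw
  rw [hW] at hw
  obtain ⟨F, h1, h2, h3⟩ := hw
  obtain ⟨N, hN, hN'⟩ := local_nullQ hd F h1 w (fun k => (h2 k).smooth) (fun k => (h2 k).grad) h3
  refine ⟨N, hN, ?_⟩
  have hnear : ∀ᶠ w' in 𝓝 w, ∀ k ∈ Finset.range 4, ∀ F' : E → ℝ,
      Ivrii.LocalDef Ω (quad w' k) F' → Ivrii.LocalDef Ω (quad w' k) (F k) := by
    rw [Filter.eventually_all_finset]
    intro k _
    exact ((G6_quad_cont k).tendsto w).eventually (Ivrii.localDef_near (h2 k))
  filter_upwards [hN', hnear] with w' z0 z1 hw'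
  rw [hW] at hw'
  obtain ⟨F', h1', h2', h3'⟩ := hw'
  have key : ∀ k, Ivrii.LocalDef Ω (quad w' k) (F k) := by
    intro k
    have h4 := z1 (k % 4) (Finset.mem_range.mpr (Nat.mod_lt _ (by norm_num))) (F' (k % 4))
      (h2' (k % 4))
    rw [G6_quad_mod, G6_per_mod F h1 k] at h4
    exact h4
  exact z0 (G6_change h3' (fun k => (key k).zero) fun k => Ivrii.grad_parallel (h2' k) (key k))

end Pool.Agent.T2h25.Iv
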