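import Pool.Agent.T2h25.Iv.Sm
import Pool.Agent.TH746.Final

set_option autoImplicit false

open MeasureTheory Set Filter Topology
open scoped InnerProductSpace
open Pool.Agent.H721R2.Quart Pool.Agent.H721R2.Ivrii Pool.Agent.TH746

namespace Pool.Agent.T2h25.Iv

variable {E Z : Type*} [NormedAddCommGroup E] [InnerProductSpace ℝ E] [FiniteDimensional ℝ E]
  [NormedAddCommGroup Z] [NormedSpace ℝ Z] [FiniteDimensional ℝ Z] [MeasurableSpace Z]
  [BorelSpace Z]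

section Chain

open Pool.Agent.TH746.Chn

theorem exists_goodC (C : Chn E Z) {m : ℕ} (hfr : Module.finrank ℝ Z = m + 1) (M : Set ℕ) :
    ∃ B ⊆ C.A M, MeasurableSet B ∧ smM Z m (C.A M \ B) = 0 ∧ ∀ z ∈ B,
      (∀ ζ, fderiv ℝ (C.x C.N) z ζ = C.G (fderiv ℝ (C.x 0) z ζ)) ∧
      (∀ ζ, fderiv ℝ (C.e C.N) z ζ = C.G (fderiv ℝ (C.e 0) z ζ)) ∧
      (∀ ζ, fderiv ℝ (C.n C.N) z ζ = C.G (fderiv ℝ (C.n 0) z ζ)) := by
  have hN := C.hN
  have d1 : ∀ z ∈ C.U, HasFDerivAt (fun z => C.x C.N z - C.g (C.x 0 z))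
      (fderiv ℝ (C.x C.N) z - C.G.comp (fderiv ℝ (C.x 0) z)) z := by
    intro z hz
    exact (C.dx C.N le_rfl z hz).hasFDerivAt.sub
      ((isom_hasFDerivAt C.g (C.x 0 z)).comp z (C.dx 0 hN.le z hz).hasFDerivAt)
  have d2 : ∀ z ∈ C.U, HasFDerivAt (fun z => C.e C.N z - C.G (C.e 0 z))
      (fderiv ℝ (C.e C.N) z - C.G.comp (fderiv ℝ (C.e 0) z)) z := by
    intro z hz
    exact (C.de C.N le_rfl z hz).hasFDerivAt.sub
      (C.G.hasFDerivAt.comp z (C.de 0 hN.le z hz).hasFDerivAt)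
  have d3 : ∀ z ∈ C.U, HasFDerivAt (fun z => C.n C.N z - C.G (C.n 0 z))
      (fderiv ℝ (C.n C.N) z - C.G.comp (fderiv ℝ (C.n 0) z)) z := by
    intro z hz
    exact (C.dn C.N le_rfl z hz).hasFDerivAt.sub
      (C.G.hasFDerivAt.comp z (C.dn 0 hN.le z hz).hasFDerivAt)
  have hAm : MeasurableSet (C.A M) := by
    have hA : C.A M = ((C.U ∩ (fun z => C.x C.N z - C.g (C.x 0 z)) ⁻¹' {0}) ∩
        ((C.U ∩ (fun z => C.e C.N z - C.G (C.e 0 z)) ⁻¹' {0}) ∩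
        (C.U ∩ (fun z => C.n C.N z - C.G (C.n 0 z)) ⁻¹' {0}))) ∩
        ⋂ k ∈ {k : ℕ | k < C.N ∧ k ∉ M}, (C.U ∩ (C.S k) ⁻¹' {0}) := by
      ext z
      simp only [A, mem_ofPred_eq, mem_inter_iff, mem_preimage, mem_singleton_iff, sub_eq_zero,
        mem_iInter]
      constructor
      · rintro ⟨h1, h2, h3, h4, h5⟩
        exact ⟨⟨⟨h1, h2⟩, ⟨h1, h3⟩, ⟨h1, h4⟩⟩, fun k hk => ⟨h1, h5 k hk.1 hk.2⟩⟩
      · rintro ⟨⟨⟨h1, h2⟩, ⟨-, h3⟩, ⟨-, h4⟩⟩, h5⟩
        exact ⟨h1, h2, h3, h4, fun k hk hkM => (h5 k ⟨hk, hkM⟩).2⟩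
    rw [hA]
    refine ((C.meas_zero fun z hz => (d1 z hz).continuousAt).inter
      ((C.meas_zero fun z hz => (d2 z hz).continuousAt).inter
      (C.meas_zero fun z hz => (d3 z hz).continuousAt))).inter
      (MeasurableSet.biInter (Set.to_countable _) fun k hk => ?_)
    exact C.meas_zero fun z hz => (C.dS k hk.1 z hz).continuousAt
  obtain ⟨B1, s1, m1, n1, g1⟩ := ae_zero' hfr hAm (f := fun z => C.x C.N z - C.g (C.x 0 z))
    (fun z hz => (d1 z hz.1).differentiableAt)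
  obtain ⟨B2, s2, m2, n2, g2⟩ := ae_zero' hfr hAm (f := fun z => C.e C.N z - C.G (C.e 0 z))
    (fun z hz => (d2 z hz.1).differentiableAt)
  obtain ⟨B3, s3, m3, n3, g3⟩ := ae_zero' hfr hAm (f := fun z => C.n C.N z - C.G (C.n 0 z))
    (fun z hz => (d3 z hz.1).differentiableAt)
  refine ⟨B1 ∩ (B2 ∩ B3), fun z hz => s1 hz.1, m1.inter (m2.inter m3), ?_, ?_⟩
  · have h : C.A M \ (B1 ∩ (B2 ∩ B3)) ⊆ (C.A M \ B1) ∪ ((C.A M \ B2) ∪ (C.A M \ B3)) := by
      rw [Set.sdiff_inter, Set.sdiff_inter]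
    exact measure_mono_null h (measure_union_null n1 (measure_union_null n2 n3))
  · rintro z ⟨h1, h2, h3⟩
    have hzA := s1 h1
    have hz := hzA.1
    refine ⟨fun ζ => ?_, fun ζ => ?_, fun ζ => ?_⟩
    · have h4 := g1 z h1 (sub_eq_zero.2 hzA.2.1)
      rw [(d1 z hz).fderiv, sub_eq_zero] at h4
      rw [h4]; rfl
    · have h4 := g2 z h2 (sub_eq_zero.2 hzA.2.2.1)
      rw [(d2 z hz).fderiv, sub_eq_zero] at h4
      rw [h4]; rfl
    · have h4 := g3 z h3 (sub_eq_zero.2 hzA.2.2.2.1)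
      rw [(d3 z hz).fderiv, sub_eq_zero] at h4
      rw [h4]; rfl

theorem exists_cycS (C : Chn E Z) {m : ℕ} (hfr : Module.finrank ℝ Z = m + 1) (M : Set ℕ)
    (hM : ∀ k, k + C.N ∈ M ↔ k ∈ M) :
    ∃ F : Cyc E Z, F.q = C.N ∧ F.A ⊆ C.A M ∧ MeasurableSet F.A ∧ smM Z m (C.A M \ F.A) = 0 ∧
      (∀ z v w, ⟪F.V z v, F.V z w⟫_ℝ = ⟪v, w⟫_ℝ) ∧ (∀ k, k ∉ M → ∀ z ∈ F.A, F.S k z = 0) := by
  obtain ⟨B, hB, hBm, hBn, hd⟩ := exists_goodC C hfr M
  have hN := C.hN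
  have hU : ∀ z ∈ B, z ∈ C.U := fun z hz => (hB hz).1
  obtain ⟨xt, xt0, xta⟩ : ∃ xt : ℕ → Z → E, (∀ k < C.N, xt k = C.x k) ∧
      ∀ k, xt (k + C.N) = fun z => C.g (xt k z) :=
    ⟨qext (fun f z => C.g (f z)) C.N C.x, fun k hk => qext_lt _ _ hk, fun k => qext_add _ hN _ _⟩
  obtain ⟨et, et0, eta⟩ : ∃ xt : ℕ → Z → E, (∀ k < C.N, xt k = C.e k) ∧
      ∀ k, xt (k + C.N) = fun z => C.G (xt k z) :=
    ⟨qext (fun f z => C.G (f z)) C.N C.e, fun k hk => qext_lt _ _ hk, fun k => qext_add _ hN _ _⟩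
  obtain ⟨nt, nt0, nta⟩ : ∃ xt : ℕ → Z → E, (∀ k < C.N, xt k = C.n k) ∧
      ∀ k, xt (k + C.N) = fun z => C.G (xt k z) :=
    ⟨qext (fun f z => C.G (f z)) C.N C.n, fun k hk => qext_lt _ _ hk, fun k => qext_add _ hN _ _⟩
  obtain ⟨Lt, Lt0, Lta⟩ : ∃ xt : ℕ → Z → ℝ, (∀ k < C.N, xt k = C.L k) ∧
      ∀ k, xt (k + C.N) = xt k :=
    ⟨qext (fun f => f) C.N C.L, fun k hk => qext_lt _ _ hk, fun k => qext_add _ hN _ _⟩
  obtain ⟨St, St0, Sta⟩ : ∃ xt : ℕ → Z → E →L[ℝ] E, (∀ k < C.N, xt k = C.S k) ∧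
      ∀ k, xt (k + C.N) = fun z => C.G.comp ((xt k z).comp C.Gi) :=
    ⟨qext (fun f z => C.G.comp ((f z).comp C.Gi)) C.N C.S, fun k hk => qext_lt _ _ hk,
      fun k => qext_add _ hN _ _⟩
  -- differentiability
  have dx : ∀ k, ∀ z ∈ B, DifferentiableAt ℝ (xt k) z := by
    refine per_ind hN (fun k hk z hz => ?_) (fun k h z hz => ?_)
    · rw [xt0 k hk]; exact C.dx k hk.le z (hU z hz)
    · rw [xta]
      exact ((isom_hasFDerivAt C.g (xt k z)).comp z (h z hz).hasFDerivAt).differentiableAt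
  have de : ∀ k, ∀ z ∈ B, DifferentiableAt ℝ (et k) z := by
    refine per_ind hN (fun k hk z hz => ?_) (fun k h z hz => ?_)
    · rw [et0 k hk]; exact C.de k hk.le z (hU z hz)
    · rw [eta]
      exact (C.G.hasFDerivAt.comp z (h z hz).hasFDerivAt).differentiableAt
  have dn : ∀ k, ∀ z ∈ B, DifferentiableAt ℝ (nt k) z := by
    refine per_ind hN (fun k hk z hz => ?_) (fun k h z hz => ?_)
    · rw [nt0 k hk]; exact C.dn k hk.le z (hU z hz)
    · rw [nta]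
      exact (C.G.hasFDerivAt.comp z (h z hz).hasFDerivAt).differentiableAt
  have dL : ∀ k, ∀ z ∈ B, DifferentiableAt ℝ (Lt k) z := by
    refine per_ind hN (fun k hk z hz => ?_) (fun k h z hz => ?_)
    · rw [Lt0 k hk]; exact C.dL k hk z (hU z hz)
    · rw [Lta]; exact h z hz
  have dS : ∀ k, ∀ z ∈ B, DifferentiableAt ℝ (St k) z := by
    refine per_ind hN (fun k hk z hz => ?_) (fun k h z hz => ?_)
    · rw [St0 k hk]; exact C.dS k hk z (hU z hz)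
    · rw [Sta]
      exact (differentiableAt_const _).clm_comp ((h z hz).clm_comp (differentiableAt_const _))
  -- quasi-periodicity of the derivatives
  have fx : ∀ k, ∀ z ∈ B, ∀ ζ, fderiv ℝ (xt (k + C.N)) z ζ = C.G (fderiv ℝ (xt k) z ζ) := by
    intro k z hz ζ
    have h := (isom_hasFDerivAt C.g (xt k z)).comp z (dx k z hz).hasFDerivAt
    have h2 : xt (k + C.N) = C.g ∘ xt k := by rw [xta]; rfl
    rw [h2, h.fderiv]; rfl
  have fe : ∀ k, ∀ z ∈ B, ∀ ζ, fderiv ℝ (et (k + C.N)) z ζ = C.G (fderiv ℝ (et k) z ζ) := by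
    intro k z hz ζ
    have h := C.G.hasFDerivAt.comp z (de k z hz).hasFDerivAt
    have h2 : et (k + C.N) = C.G ∘ et k := by rw [eta]; rfl
    rw [h2, h.fderiv]; rfl
  have fn : ∀ k, ∀ z ∈ B, ∀ ζ, fderiv ℝ (nt (k + C.N)) z ζ = C.G (fderiv ℝ (nt k) z ζ) := by
    intro k z hz ζ
    have h := C.G.hasFDerivAt.comp z (dn k z hz).hasFDerivAt
    have h2 : nt (k + C.N) = C.G ∘ nt k := by rw [nta]; rfl
    rw [h2, h.fderiv]; rfl
  -- the values up to the index `N`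
  have ve : ∀ k ≤ C.N, ∀ z ∈ B, et k z = C.e k z := by
    intro k hk z hz
    rcases Nat.lt_or_ge k C.N with h | h
    · rw [et0 k h]
    · obtain rfl : k = C.N := le_antisymm hk h
      have h1 := eta 0
      rw [zero_add] at h1
      rw [h1, et0 0 hN, (hB hz).2.2.1]
  have vn : ∀ k ≤ C.N, ∀ z ∈ B, nt k z = C.n k z := by
    intro k hk z hz
    rcases Nat.lt_or_ge k C.N with h | h
    · rw [nt0 k h]
    · obtain rfl : k = C.N := le_antisymm hk h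
      have h1 := nta 0
      rw [zero_add] at h1
      rw [h1, nt0 0 hN, (hB hz).2.2.2.1]
  have wx : ∀ k ≤ C.N, ∀ z ∈ B, ∀ ζ, fderiv ℝ (xt k) z ζ = fderiv ℝ (C.x k) z ζ := by
    intro k hk z hz ζ
    rcases Nat.lt_or_ge k C.N with h | h
    · rw [xt0 k h]
    · obtain rfl : k = C.N := le_antisymm hk h
      have h1 := fx 0 z hz ζ
      rw [zero_add] at h1
      rw [h1, xt0 0 hN, (hd z hz).1]
  have we : ∀ k ≤ C.N, ∀ z ∈ B, ∀ ζ, fderiv ℝ (et k) z ζ = fderiv ℝ (C.e k) z ζ := by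
    intro k hk z hz ζ
    rcases Nat.lt_or_ge k C.N with h | h
    · rw [et0 k h]
    · obtain rfl : k = C.N := le_antisymm hk h
      have h1 := fe 0 z hz ζ
      rw [zero_add] at h1
      rw [h1, et0 0 hN, (hd z hz).2.1]
  have wn : ∀ k ≤ C.N, ∀ z ∈ B, ∀ ζ, fderiv ℝ (nt k) z ζ = fderiv ℝ (C.n k) z ζ := by
    intro k hk z hz ζ
    rcases Nat.lt_or_ge k C.N with h | h
    · rw [nt0 k h]
    · obtain rfl : k = C.N := le_antisymm hk h
      have h1 := fn 0 z hz ζ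
      rw [zero_add] at h1
      rw [h1, nt0 0 hN, (hd z hz).2.2]
  -- the relations
  have ee : ∀ k, ∀ z ∈ B, ⟪et k z, et k z⟫_ℝ = 1 := by
    refine per_ind hN (fun k hk z hz => ?_) (fun k h z hz => ?_)
    · rw [et0 k hk]; exact C.ee k hk z (hU z hz)
    · simp only [eta, C.G_iso]; exact h z hz
  have nn : ∀ k, ∀ z ∈ B, ⟪nt k z, nt k z⟫_ℝ = 1 := by
    refine per_ind hN (fun k hk z hz => ?_) (fun k h z hz => ?_)
    · rw [nt0 k hk]; exact C.nn k hk z (hU z hz)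
    · simp only [nta, C.G_iso]; exact h z hz
  have refl : ∀ k, ∀ z ∈ B, et (k + 1) z = rf (nt (k + 1) z) (et k z) := by
    refine per_ind hN (fun k hk z hz => ?_) (fun k h z hz => ?_)
    · rw [ve (k + 1) hk z hz, vn (k + 1) hk z hz, ve k hk.le z hz, C.refl k hk]
    · rw [show k + C.N + 1 = k + 1 + C.N by omega]
      simp only [eta, nta]
      rw [h z hz, C.G_rf]
  have tr : ∀ k, ∀ z ∈ B, ⟪nt k z, et k z⟫_ℝ ≠ 0 := by
    refine per_ind hN (fun k hk z hz => ?_) (fun k h z hz => ?_)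
    · rw [nt0 k hk, et0 k hk]; exact C.tr k hk z (hU z hz)
    · simp only [eta, nta, C.G_iso]; exact h z hz
  have sym : ∀ k, ∀ z ∈ B, ∀ v w, ⟪St k z v, w⟫_ℝ = ⟪v, St k z w⟫_ℝ := by
    refine per_ind hN (fun k hk z hz => ?_) (fun k h z hz v w => ?_)
    · rw [St0 k hk]; exact C.sym k hk z (hU z hz)
    · simp only [Sta, ContinuousLinearMap.comp_apply]
      rw [C.G_adj, h z hz, ← C.G_iso (C.Gi v), C.G_Gi]
  have Sn : ∀ k, ∀ z ∈ B, St k z (nt k z) = 0 := by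
    refine per_ind hN (fun k hk z hz => ?_) (fun k h z hz => ?_)
    · rw [St0 k hk, nt0 k hk]; exact C.Sn k hk z (hU z hz)
    · simp only [Sta, nta, ContinuousLinearMap.comp_apply]
      rw [C.Gi_G, h z hz, map_zero]
  have ejac : ∀ k, ∀ z ∈ B, ∀ ζ, ⟪et k z, fderiv ℝ (et k) z ζ⟫_ℝ = 0 := by
    refine per_ind hN (fun k hk z hz ζ => ?_) (fun k h z hz ζ => ?_)
    · rw [et0 k hk]
      exact G3_unit C.hU (hU z hz) (C.de k hk.le z (hU z hz)) (C.ee k hk) ζ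
    · rw [fe k z hz]
      simp only [eta, C.G_iso]; exact h z hz ζ
  have tan : ∀ k, ∀ z ∈ B, ∀ ζ, ⟪nt k z, fderiv ℝ (xt k) z ζ⟫_ℝ = 0 := by
    refine per_ind hN (fun k hk z hz ζ => ?_) (fun k h z hz ζ => ?_)
    · rw [nt0 k hk, xt0 k hk]; exact C.tan k hk z (hU z hz) ζ
    · rw [fx k z hz]
      simp only [nta, C.G_iso]; exact h z hz ζ
  have njac : ∀ k, ∀ z ∈ B, ∀ ζ, fderiv ℝ (nt k) z ζ = -St k z (fderiv ℝ (xt k) z ζ) := by
    refine per_ind hN (fun k hk z hz ζ => ?_) (fun k h z hz ζ => ?_)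
    · rw [nt0 k hk, xt0 k hk, St0 k hk]; exact C.njac k hk z (hU z hz) ζ
    · rw [fx k z hz, fn k z hz, h z hz]
      simp only [Sta, ContinuousLinearMap.comp_apply]
      rw [C.Gi_G, map_neg]
  have Sjac : ∀ k, ∀ z ∈ B, ∀ ζ, fderiv ℝ (xt k) z ζ = 0 → fderiv ℝ (St k) z ζ = 0 := by
    refine per_ind hN (fun k hk z hz ζ => ?_) (fun k h z hz ζ hζ => ?_)
    · rw [xt0 k hk, St0 k hk]; exact C.Sjac k hk z (hU z hz) ζ
    · rw [fx k z hz] at hζ
      have h1 : fderiv ℝ (xt k) z ζ = 0 := by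
        rw [← C.Gi_G (fderiv ℝ (xt k) z ζ), hζ, map_zero]
      have h2 := h z hz ζ h1
      have h3 := (hasFDerivAt_const C.G z).clm_comp
        ((dS k z hz).hasFDerivAt.clm_comp (hasFDerivAt_const C.Gi z))
      rw [Sta, h3.fderiv]
      ext v
      simp [h2]
  have stepjac : ∀ k, ∀ z ∈ B, ∀ ζ, fderiv ℝ (xt (k + 1)) z ζ =
      fderiv ℝ (xt k) z ζ + fderiv ℝ (Lt k) z ζ • et k z + Lt k z • fderiv ℝ (et k) z ζ := by
    refine per_ind hN (fun k hk z hz ζ => ?_) (fun k h z hz ζ => ?_)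
    · rw [wx (k + 1) hk z hz, xt0 k hk, Lt0 k hk, et0 k hk]
      exact G3_step C.hU (hU z hz) (C.dx k hk.le z (hU z hz)) (C.de k hk.le z (hU z hz))
        (C.dL k hk z (hU z hz)) (fun z _ => C.step k hk z) ζ
    · rw [show k + C.N + 1 = k + 1 + C.N by omega, fx (k + 1) z hz, fx k z hz, fe k z hz, h z hz,
        Lta, map_add, map_add, map_smul, map_smul]
      simp only [eta]
  have refljac : ∀ k, ∀ z ∈ B, ∀ ζ, fderiv ℝ (et (k + 1)) z ζ =
      rf (nt (k + 1) z) (fderiv ℝ (et k) z ζ)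
      - (2 * ⟪fderiv ℝ (nt (k + 1)) z ζ, et k z⟫_ℝ) • nt (k + 1) z
      - (2 * ⟪nt (k + 1) z, et k z⟫_ℝ) • fderiv ℝ (nt (k + 1)) z ζ := by
    refine per_ind hN (fun k hk z hz ζ => ?_) (fun k h z hz ζ => ?_)
    · rw [we (k + 1) hk z hz, wn (k + 1) hk z hz, vn (k + 1) hk z hz, et0 k hk]
      have h1 : C.e (k + 1) = fun z => rf (C.n (k + 1) z) (C.e k z) := by
        funext z; exact C.refl k hk z
      rw [h1]
      exact G3_rf_fderiv (C.dn (k + 1) hk z (hU z hz)) (C.de k hk.le z (hU z hz)) ζ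
    · rw [show k + C.N + 1 = k + 1 + C.N by omega, fe (k + 1) z hz, fe k z hz, fn (k + 1) z hz,
        h z hz]
      simp only [eta, nta, map_sub, map_smul, C.G_iso, C.G_rf]
  have flat : ∀ k, k ∉ M → ∀ z ∈ B, St k z = 0 := by
    refine per_ind hN (fun k hk hkM z hz => ?_) (fun k h hkM z hz => ?_)
    · rw [St0 k hk]; exact (hB hz).2.2.2.2 k hk hkM
    · rw [Sta]
      simp only
      rw [h (fun h' => hkM ((hM k).2 h')) z hz]
      ext; simp
  refine ⟨{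
    q := C.N
    A := B
    e := et
    n := nt
    L := Lt
    S := St
    X := fun k z ζ => fderiv ℝ (xt k) z ζ
    V := fun _ => C.G
    pe := fun k z => by rw [eta]
    pn := fun k z => by rw [nta]
    pL := fun k z => by rw [Lta]
    pX := fx
    de := de
    dn := dn
    dL := dL
    dS := dS
    dV := fun z _ => hasFDerivAt_const _ _
    iso := fun z _ => C.G_iso
    Lpos := ?_
    ee := ee
    nn := nn
    refl := refl
    tr := tr
    sym := sym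
    Sn := Sn
    ejac := ejac
    tan := tan
    njac := njac
    Sjac := Sjac
    stepjac := stepjac
    refljac := refljac
    surj := ?_ }, rfl, hB, hBm, hBn, fun z => C.G_iso, flat⟩
  · refine per_ind hN (fun k hk z hz => ?_) (fun k h z hz => ?_)
    · rw [Lt0 k hk]; exact C.Lpos k hk z (hU z hz)
    · rw [Lta]; exact h z hz
  · intro k z hz
    exact surj_all (fun k => et k z) (fun k => nt k z) (fun k => Lt k z) (fun k => St k z)
      (fun k ζ => fderiv ℝ (xt k) z ζ) (fun k ζ => fderiv ℝ (et k) z ζ)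
      (fun k ζ => fderiv ℝ (Lt k) z ζ) (fun k => nn k z hz) (fun k => refl k z hz)
      (fun k => tr k z hz) (fun k => sym k z hz) (fun k => Sn k z hz) (fun k => tan k z hz)
      (fun k => stepjac k z hz)
      (fun k ζ => by rw [← njac (k + 1) z hz]; exact refljac k z hz ζ)
      (fun Y δ hY hδ => by
        simp only [xt0 0 hN, et0 0 hN, nt0 0 hN] at hY hδ ⊢
        exact C.surj z (hU z hz) Y δ hY hδ) k


end Chain

section Cyc

open Pool.Agent.TH746.Cyc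

theorem exists_g2 {m : ℕ} (hfr : Module.finrank ℝ Z = m + 1) (F : Cyc E Z) (hq : F.q = 3)
    (hA : MeasurableSet F.A) :
    ∃ B ⊆ F.A, MeasurableSet B ∧ smM Z m (F.A \ B) = 0 ∧
      ∀ z ∈ B, ∀ v, DifferentiableAt ℝ (F.f2 v) z ∧ fderiv ℝ (F.f2 v) z = 0 := by
  set b := stdOrthonormalBasis ℝ E with hb
  have h : ∀ i, ∃ B ⊆ F.A, MeasurableSet B ∧ smM Z m (F.A \ B) = 0 ∧
      ∀ z ∈ B, F.f2 (b i) z = 0 → fderiv ℝ (F.f2 (b i)) z = 0 := fun i =>
    ae_zero' hfr hA (f := F.f2 (b i)) (fun z hz => df2 hz (b i))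
  choose B s mm n g using h
  refine ⟨F.A ∩ ⋂ i, B i, inter_subset_left, hA.inter (MeasurableSet.iInter mm), ?_, ?_⟩
  · rw [Set.sdiff_inter, Set.sdiff_self, empty_union, Set.sdiff_iInter]
    exact measure_iUnion_null n
  · rintro z ⟨hzA, hz⟩ v
    refine ⟨df2 hzA v, ?_⟩
    rw [mem_iInter] at hz
    have h1 : ∀ i, HasFDerivAt (F.f2 (b i)) (0 : Z →L[ℝ] E) z := by
      intro i
      have h2 := (df2 hzA (b i)).hasFDerivAt
      rwa [g i z (hz i) (f2_zero hq hzA _)] at h2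
    have h3 : F.f2 v = fun z => ∑ i, (b.repr v).ofLp i • F.f2 (b i) z := by
      funext z'
      have h4 := congrArg (F.f2L z') (b.sum_repr v)
      rw [map_sum] at h4
      simp only [map_smul, f2L_apply] at h4
      exact h4.symm
    have h5 : HasFDerivAt (fun z => ∑ i, (b.repr v).ofLp i • F.f2 (b i) z)
        (∑ i, (b.repr v).ofLp i • (0 : Z →L[ℝ] E)) z :=
      HasFDerivAt.fun_sum fun i _ => (h1 i).const_smul ((b.repr v).ofLp i)
    rw [h3, h5.fderiv]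
    simp

theorem exists_good0 {m : ℕ} (hfr : Module.finrank ℝ Z = m + 1) (F : Cyc E Z) (hq : F.q = 3)
    (hA : MeasurableSet F.A) :
    ∃ B ⊆ F.A, MeasurableSet B ∧ smM Z m (F.A \ B) = 0 ∧ ∀ z ∈ B, F.Good z := by
  obtain ⟨B1, s1, m1, n1, g1⟩ := ae_zero' hfr hA (f := fun z => F.N1 z - F.e 0 z)
    (fun z hz => (dN1 hz).sub (F.de 0 z hz))
  obtain ⟨B2, s2, m2, n2, g2⟩ := exists_g2 hfr F hq hA
  obtain ⟨B3, s3, m3, n3, g3⟩ := ae_zero' hfr hA
    (f := fun z => F.N1 z + F.W z (F.N1 z) - (2 : ℝ) • F.e 0 z)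
    (fun z hz => ((dN1 hz).add (dW hz (dN1 hz))).sub ((F.de 0 z hz).const_smul (2 : ℝ)))
  obtain ⟨B4, s4, m4, n4, g4⟩ := ae_zero' hfr hA (f := fun z => F.H z - F.W z (F.H z))
    (fun z hz => (dH hz).sub (dW hz (dH hz)))
  obtain ⟨B5, s5, m5, n5, g5⟩ := ae_zero' hfr hA (f := fun z => F.L 0 z - F.L 1 z)
    (fun z hz => (F.dL 0 z hz).sub (F.dL 1 z hz))
  obtain ⟨B6, s6, m6, n6, g6⟩ := ae_zero' hfr hA (f := fun z => F.L 1 z - F.L 2 z)
    (fun z hz => (F.dL 1 z hz).sub (F.dL 2 z hz))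
  obtain ⟨B7, s7, m7, n7, g7⟩ := ae_zero' hfr hA (f := fun z => F.N1 z - F.W z (F.N1 z))
    (fun z hz => (dN1 hz).sub (dW hz (dN1 hz)))
  refine ⟨B1 ∩ (B2 ∩ (B3 ∩ (B4 ∩ (B5 ∩ (B6 ∩ B7))))), fun z hz => s1 hz.1,
    m1.inter (m2.inter (m3.inter (m4.inter (m5.inter (m6.inter m7))))), ?_, ?_⟩
  · have h : F.A \ (B1 ∩ (B2 ∩ (B3 ∩ (B4 ∩ (B5 ∩ (B6 ∩ B7)))))) ⊆
        (F.A \ B1) ∪ ((F.A \ B2) ∪ ((F.A \ B3) ∪ ((F.A \ B4) ∪ ((F.A \ B5) ∪
          ((F.A \ B6) ∪ (F.A \ B7)))))) := by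
      rw [Set.sdiff_inter, Set.sdiff_inter, Set.sdiff_inter, Set.sdiff_inter, Set.sdiff_inter,
        Set.sdiff_inter]
    refine measure_mono_null h ?_
    exact measure_union_null n1 (measure_union_null n2 (measure_union_null n3
      (measure_union_null n4 (measure_union_null n5 (measure_union_null n6 n7)))))
  · rintro z ⟨h1, h2, h3, h4, h5, h6, h7⟩
    exact ⟨g1 z h1, g2 z h2, g3 z h3, g4 z h4, g5 z h5, g6 z h6, g7 z h7⟩

theorem exists_good {m : ℕ} (hfr : Module.finrank ℝ Z = m + 1) (F : Cyc E Z) (hq : F.q = 3)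
    (hA : MeasurableSet F.A) :
    ∃ B ⊆ F.A, MeasurableSet B ∧ smM Z m (F.A \ B) = 0 ∧ ∀ z ∈ B, ∀ j, (F.shift j).Good z := by
  have h : ∀ j, ∃ B ⊆ F.A, MeasurableSet B ∧ smM Z m (F.A \ B) = 0 ∧
      ∀ z ∈ B, (F.shift j).Good z := fun j => exists_good0 hfr (F.shift j) hq hA
  choose B s mm n g using h
  refine ⟨⋂ j, B j, fun z hz => s 0 (mem_iInter.mp hz 0), MeasurableSet.iInter mm, ?_, ?_⟩
  · rw [Set.sdiff_iInter]
    exact measure_iUnion_null n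
  · exact fun z hz j => g j z (mem_iInter.mp hz j)

/-- Three mirrors: the closed trajectories are negligible. -/
theorem null_three {m : ℕ} (hfr : Module.finrank ℝ Z = m + 1) (F : Cyc E Z)
    (hd : 3 ≤ Module.finrank ℝ E) (hq : F.q = 3) (hA : MeasurableSet F.A) : smM Z m F.A = 0 := by
  obtain ⟨B, hB, -, hn, hg⟩ := exists_good hfr F hq hA
  refine measure_mono_null ?_ hn
  intro z hz
  exact ⟨hz, fun hzB => no_three hd hq hz (hg z hzB)⟩

/-- Two mirrors: the closed trajectories are negligible. -/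
theorem null_two {m : ℕ} (hfr : Module.finrank ℝ Z = m + 1) (F : Cyc E Z)
    (hd : 3 ≤ Module.finrank ℝ E) (hq : F.q = 2) (hA : MeasurableSet F.A) : smM Z m F.A = 0 := by
  obtain ⟨B1, s1, m1, n1, g1⟩ := ae_zero' hfr hA (f := fun z => F.L 0 z - F.L 1 z)
    (fun z hz => (F.dL 0 z hz).sub (F.dL 1 z hz))
  obtain ⟨B2, s2, m2, n2, g2⟩ := ae_zero' hfr hA (f := fun z => F.N0 z - F.e 0 z)
    (fun z hz => (dN0 hz).sub (F.de 0 z hz))
  refine measure_mono_null (t := (F.A \ B1) ∪ (F.A \ B2)) ?_ (measure_union_null n1 n2)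
  intro z hz
  by_contra hcon
  rw [mem_union, not_or] at hcon
  have h1 : z ∈ B1 := by by_contra h; exact hcon.1 ⟨hz, h⟩
  have h2 : z ∈ B2 := by by_contra h; exact hcon.2 ⟨hz, h⟩
  obtain ⟨δ, hδ0, hδ, -⟩ := exists_perp hd (F.e 0 z) (F.e 0 z)
  exact no_two hq hz hδ hδ0 (g1 z h1) (g2 z h2)


end Cyc

end Pool.Agent.T2h25.Iv
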