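import Mathlib

/-!
# Rectifiable sets as null sets of a measure

`Sm m S`: the set `S` is covered by countably many Lipschitz images of `ℝ^m`.
These sets form a σ-ideal, they are the null sets of a measure `smM m`, and the set of the zeros
of a function at which it is differentiable with nonvanishing derivative belongs to it, if the
space has dimension `m + 1`.
-/

set_option autoImplicit false

open MeasureTheory Set Filter Topology
open scoped NNReal ENNReal

namespace Pool.Agent.T2h25.Iv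

section Basic

variable {X : Type*} [NormedAddCommGroup X] [NormedSpace ℝ X] [FiniteDimensional ℝ X]
  [MeasurableSpace X] [BorelSpace X]

/-- The set `S` is (countably) `m`-rectifiable: it is covered by countably many Lipschitz images
of `ℝ^m`. -/
def Sm {X : Type*} [NormedAddCommGroup X] (m : ℕ) (S : Set X) : Prop :=
  ∃ f : ℕ → EuclideanSpace ℝ (Fin m) → X, (∀ i, ∃ K : ℝ≥0, LipschitzWith K (f i)) ∧
    S ⊆ ⋃ i, range (f i)

variable {m : ℕ}

omit [NormedSpace ℝ X] [FiniteDimensional ℝ X] [MeasurableSpace X] [BorelSpace X] in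
theorem Sm.mono {S S' : Set X} (h : Sm m S') (hs : S ⊆ S') : Sm m S :=
  let ⟨f, h1, h2⟩ := h
  ⟨f, h1, hs.trans h2⟩

omit [NormedSpace ℝ X] [FiniteDimensional ℝ X] [MeasurableSpace X] [BorelSpace X] in
theorem Sm.empty : Sm m (∅ : Set X) :=
  ⟨fun _ _ => 0, fun _ => ⟨0, LipschitzWith.const 0⟩, empty_subset _⟩

omit [NormedSpace ℝ X] [FiniteDimensional ℝ X] [MeasurableSpace X] [BorelSpace X] in
theorem Sm.iUnion_nat {S : ℕ → Set X} (h : ∀ i, Sm m (S i)) : Sm m (⋃ i, S i) := by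
  choose f h1 h2 using h
  refine ⟨fun k => f (Nat.unpair k).1 (Nat.unpair k).2, fun k => h1 _ _, ?_⟩
  intro x hx
  obtain ⟨i, hi⟩ := mem_iUnion.1 hx
  obtain ⟨j, hj⟩ := mem_iUnion.1 (h2 i hi)
  refine mem_iUnion.2 ⟨Nat.pair i j, ?_⟩
  simpa using hj

omit [NormedSpace ℝ X] [FiniteDimensional ℝ X] [MeasurableSpace X] [BorelSpace X] in
theorem Sm.iUnion {ι : Type*} [Countable ι] {S : ι → Set X} (h : ∀ i, Sm m (S i)) :
    Sm m (⋃ i, S i) := by
  rcases isEmpty_or_nonempty ι with he | he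
  · rw [iUnion_of_empty]; exact Sm.empty
  · obtain ⟨e, he⟩ := exists_surjective_nat ι
    refine (Sm.iUnion_nat (S := fun k => S (e k)) fun k => h _).mono ?_
    intro x hx
    obtain ⟨i, hi⟩ := mem_iUnion.1 hx
    obtain ⟨k, rfl⟩ := he i
    exact mem_iUnion.2 ⟨k, hi⟩

omit [NormedSpace ℝ X] [FiniteDimensional ℝ X] in
theorem Sm.measurable_superset {S : Set X} (h : Sm m S) :
    ∃ B, MeasurableSet B ∧ S ⊆ B ∧ Sm m B := by
  obtain ⟨f, h1, h2⟩ := h
  refine ⟨⋃ i, range (f i), MeasurableSet.iUnion fun i => ?_, h2, f, h1, subset_rfl⟩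
  obtain ⟨K, hK⟩ := h1 i
  have e : range (f i) = ⋃ n : ℕ, f i '' Metric.closedBall 0 n := by
    rw [← image_iUnion, Metric.iUnion_closedBall_nat, image_univ]
  rw [e]
  exact MeasurableSet.iUnion fun n =>
    ((isCompact_closedBall _ _).image hK.continuous).measurableSet

omit [MeasurableSpace X] [BorelSpace X] in
/-- The image under a Lipschitz map. -/
theorem Sm.image_lip {X' : Type*} [NormedAddCommGroup X'] {S : Set X'}
    (h : Sm m S) {K : ℝ≥0} {g : X' → X} (hg : LipschitzOnWith K g S) : Sm m (g '' S) := by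
  obtain ⟨f, h1, h2⟩ := h
  have hex : ∀ i, ∃ F : EuclideanSpace ℝ (Fin m) → X, (∃ K : ℝ≥0, LipschitzWith K F) ∧
      ∀ y, f i y ∈ S → F y = g (f i y) := by
    intro i
    obtain ⟨L, hL⟩ := h1 i
    have h3 : LipschitzOnWith (K * L) (fun y => g (f i y)) (f i ⁻¹' S) :=
      hg.comp (hL.lipschitzOnWith (s := f i ⁻¹' S)) (fun y hy => hy)
    obtain ⟨F, hF1, hF2⟩ := h3.extend_finite_dimension
    exact ⟨F, ⟨_, hF1⟩, fun y hy => (hF2 hy).symm⟩
  choose F hF1 hF2 using hex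
  refine ⟨F, hF1, ?_⟩
  rintro _ ⟨x, hx, rfl⟩
  obtain ⟨i, y, rfl⟩ := mem_iUnion.1 (h2 hx)
  exact mem_iUnion.2 ⟨i, y, hF2 i y hx⟩

omit [MeasurableSpace X] [BorelSpace X] in
/-- The preimage under a map which is antilipschitz on it. -/
theorem Sm.of_antilip {Y : Type*} [NormedAddCommGroup Y] {S : Set X}
    {K : ℝ≥0} {f : X → Y} (hf : ∀ x ∈ S, ∀ y ∈ S, edist x y ≤ K * edist (f x) (f y))
    (h : Sm m (f '' S)) : Sm m S := by
  classical
  rcases S.eq_empty_or_nonempty with rfl | ⟨x0, hx0⟩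
  · exact Sm.empty
  obtain ⟨g, hg⟩ : ∃ g : Y → X, ∀ x ∈ S, g (f x) = x := by
    refine ⟨fun y => if h : ∃ x ∈ S, f x = y then h.choose else x0, fun x hx => ?_⟩
    have h1 : ∃ x' ∈ S, f x' = f x := ⟨x, hx, rfl⟩
    simp only [dif_pos h1]
    have h2 := hf _ h1.choose_spec.1 _ hx
    rw [h1.choose_spec.2, edist_self, mul_zero] at h2
    exact edist_le_zero.1 h2
  have h3 : S = g '' (f '' S) := by
    ext x
    constructor
    · intro hx
      exact ⟨f x, ⟨x, hx, rfl⟩, hg x hx⟩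
    · rintro ⟨_, ⟨y, hy, rfl⟩, rfl⟩
      rw [hg y hy]; exact hy
  rw [h3]
  refine h.image_lip (K := K) ?_
  rintro _ ⟨x, hx, rfl⟩ _ ⟨y, hy, rfl⟩
  rw [hg x hx, hg y hy]
  exact hf x hx y hy

omit [NormedSpace ℝ X] [FiniteDimensional ℝ X] [MeasurableSpace X] [BorelSpace X] in
theorem Sm.dimH_le {S : Set X} (h : Sm m S) : dimH S ≤ m := by
  obtain ⟨f, h1, h2⟩ := h
  refine (dimH_mono h2).trans ?_
  rw [dimH_iUnion]
  refine iSup_le fun i => ?_
  obtain ⟨K, hK⟩ := h1 i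
  rw [← image_univ]
  refine (hK.dimH_image_le _).trans ?_
  rw [Real.dimH_univ_eq_finrank]
  simp

omit [NormedSpace ℝ X] [FiniteDimensional ℝ X] in
/-- A rectifiable set is a countable union of sets of finite measure. -/
theorem Sm.sigmaFinite {S : Set X} (h : Sm m S) :
    ∃ T : ℕ → Set X, S ⊆ ⋃ i, T i ∧ ∀ i, μH[(m : ℝ)] (T i) < ⊤ := by
  obtain ⟨f, h1, h2⟩ := h
  refine ⟨fun k => f (Nat.unpair k).1 '' Metric.closedBall 0 (Nat.unpair k).2, ?_, fun k => ?_⟩
  · refine h2.trans ?_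
    rintro _ ⟨_, ⟨i, rfl⟩, y, rfl⟩
    obtain ⟨n, hn⟩ := exists_nat_ge ‖y‖
    refine mem_iUnion.2 ⟨Nat.pair i n, y, ?_, ?_⟩
    · rw [Nat.unpair_pair, mem_closedBall_zero_iff]
      exact hn
    · rw [Nat.unpair_pair]
  · obtain ⟨K, hK⟩ := h1 (Nat.unpair k).1
    have h3 := (hK.lipschitzOnWith (s := Metric.closedBall 0 ((Nat.unpair k).2 : ℝ))
      ).hausdorffMeasure_image_le (d := (m : ℝ)) (Nat.cast_nonneg _)
    refine lt_of_le_of_lt h3 (ENNReal.mul_lt_top
      (ENNReal.rpow_lt_top_of_nonneg (Nat.cast_nonneg _) ENNReal.coe_ne_top) ?_)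
    have h4 : IsCompact (Metric.closedBall (0 : EuclideanSpace ℝ (Fin m)) (Nat.unpair k).2) :=
      isCompact_closedBall _ _
    have h5 : Module.finrank ℝ (EuclideanSpace ℝ (Fin m)) = m := by simp
    have h6 : (μH[(Module.finrank ℝ (EuclideanSpace ℝ (Fin m)) : ℝ)] :
      Measure (EuclideanSpace ℝ (Fin m))) (Metric.closedBall 0 (Nat.unpair k).2) < ⊤ :=
        h4.measure_lt_top
    rwa [h5] at h6

/-- The measure which is zero on the sets with `Sm m` and infinite on all others. -/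
noncomputable def smM (X : Type*) [NormedAddCommGroup X] [NormedSpace ℝ X]
    [FiniteDimensional ℝ X] [MeasurableSpace X] [BorelSpace X] (m : ℕ) :
    Measure X :=
  open Classical in
  Measure.ofMeasurable (fun S _ => if Sm m S then 0 else ⊤) (by simp [Sm.empty]) (by
    intro f hf hd
    by_cases h : ∀ i, Sm m (f i)
    · rw [if_pos (Sm.iUnion_nat h)]
      simp [h]
    · rw [if_neg fun h' => h fun i => h'.mono (subset_iUnion f i)]
      push Not at h
      obtain ⟨i, hi⟩ := h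
      symm
      refine ENNReal.tsum_eq_top_of_eq_top ⟨i, ?_⟩
      rw [if_neg hi])

theorem smM_eq_zero {S : Set X} : smM X m S = 0 ↔ Sm m S := by
  classical
  have key : ∀ B : Set X, MeasurableSet B → (smM X m B = 0 ↔ Sm m B) := by
    intro B hB
    unfold smM
    rw [Measure.ofMeasurable_apply _ hB]
    by_cases h : Sm m B
    · simp [h]
    · simp [h]
  constructor
  · intro h
    obtain ⟨B, hB, hBm, hB0⟩ := exists_measurable_superset_of_null h
    exact ((key B hBm).1 hB0).mono hB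
  · intro h
    obtain ⟨B, hBm, hB, hBs⟩ := h.measurable_superset
    exact measure_mono_null hB ((key B hBm).2 hBs)

end Basic

section Cone

variable {Z : Type*} [NormedAddCommGroup Z] [NormedSpace ℝ Z] [FiniteDimensional ℝ Z]
  [MeasurableSpace Z] [BorelSpace Z]

omit [MeasurableSpace Z] [BorelSpace Z] in
/-- Every set in an `m`-dimensional space. -/
theorem sm_univ {m : ℕ} (h : Module.finrank ℝ Z = m) (S : Set Z) : Sm m S := by
  have e : EuclideanSpace ℝ (Fin m) ≃L[ℝ] Z :=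
    ContinuousLinearEquiv.ofFinrankEq (by rw [finrank_euclideanSpace_fin, h])
  refine ⟨fun _ => e, fun _ => ⟨_, e.lipschitz⟩, ?_⟩
  intro x _
  exact mem_iUnion.2 ⟨0, e.surjective x⟩

omit [MeasurableSpace Z] [BorelSpace Z] in
/-- A set which satisfies a cone condition at all its points, with a fixed functional. -/
theorem sm_cone {m : ℕ} (h : Module.finrank ℝ Z = m + 1) (l : Z →L[ℝ] ℝ) (a : Z) (ha : l a = 1)
    (S : Set Z) (hS : ∀ x ∈ S, ∀ y ∈ S, |l (x - y)| * (2 * ‖a‖) ≤ ‖x - y‖) : Sm m S := by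
  have hk : Module.finrank ℝ (LinearMap.ker (l : Z →ₗ[ℝ] ℝ)) = m := by
    have h1 := LinearMap.finrank_range_add_finrank_ker (l : Z →ₗ[ℝ] ℝ)
    have h2 : LinearMap.range (l : Z →ₗ[ℝ] ℝ) = ⊤ := by
      rw [LinearMap.range_eq_top]
      intro t
      exact ⟨t • a, by simp [ha]⟩
    rw [h2, finrank_top, Module.finrank_self, h] at h1
    omega
  obtain ⟨f, hf⟩ : ∃ f : Z → LinearMap.ker (l : Z →ₗ[ℝ] ℝ), ∀ x, (f x : Z) = x - l x • a :=
    ⟨fun x => ⟨x - l x • a, by simp [ha]⟩, fun x => rfl⟩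
  refine Sm.of_antilip (K := 2) (f := f) ?_ (sm_univ hk _)
  intro x hx y hy
  have h1 := hS x hx y hy
  have h2 : ‖x - y‖ ≤ 2 * ‖f x - f y‖ := by
    have h3 : ((f x - f y : LinearMap.ker (l : Z →ₗ[ℝ] ℝ)) : Z) = (x - y) - l (x - y) • a := by
      rw [AddSubgroupClass.coe_sub, hf, hf, map_sub]
      module
    have h4 : ‖f x - f y‖ = ‖(x - y) - l (x - y) • a‖ := by
      rw [← h3]; rfl
    have h5 : ‖x - y‖ ≤ ‖(x - y) - l (x - y) • a‖ + ‖l (x - y) • a‖ := by
      have := norm_add_le ((x - y) - l (x - y) • a) (l (x - y) • a)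
      rwa [sub_add_cancel] at this
    rw [norm_smul, Real.norm_eq_abs] at h5
    rw [h4]
    nlinarith
  rw [edist_dist, edist_dist, dist_eq_norm, dist_eq_norm]
  rw [show ((2 : ℝ≥0) : ℝ≥0∞) = ENNReal.ofReal 2 by simp, ← ENNReal.ofReal_mul (by norm_num)]
  exact ENNReal.ofReal_le_ofReal h2

omit [MeasurableSpace Z] [BorelSpace Z] in
/-- The zeros of a function at which it has a nonvanishing derivative. -/
theorem sm_bad {F' : Type*} [NormedAddCommGroup F'] [NormedSpace ℝ F'] {m : ℕ}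
    (h : Module.finrank ℝ Z = m + 1) (f : Z → F') :
    Sm m {z | f z = 0 ∧ DifferentiableAt ℝ f z ∧ fderiv ℝ f z ≠ 0} := by
  obtain ⟨S, hSdef⟩ : ∃ S, S = {z | f z = 0 ∧ DifferentiableAt ℝ f z ∧ fderiv ℝ f z ≠ 0} := ⟨_, rfl⟩
  rw [← hSdef]
  obtain ⟨d, hd⟩ := TopologicalSpace.exists_dense_seq (Z →L[ℝ] ℝ)
  obtain ⟨q, hq⟩ := TopologicalSpace.exists_dense_seq Z
  -- a vector for every functional
  have hvec : ∀ l : Z →L[ℝ] ℝ, ∃ a : Z, l ≠ 0 → l a = 1 ∧ ‖a‖ * ‖l‖ ≤ 2 := by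
    intro l
    by_cases hl : l = 0
    · exact ⟨0, fun h => absurd hl h⟩
    · have hpos : 0 < ‖l‖ := norm_pos_iff.2 hl
      obtain ⟨b, hb⟩ : ∃ b : Z, ‖l‖ / 2 * ‖b‖ < ‖l b‖ := by
        by_contra hcon
        push Not at hcon
        have := l.opNorm_le_bound (by positivity) hcon
        linarith
      have hlb : l b ≠ 0 := by
        intro h0
        rw [h0, norm_zero] at hb
        have : 0 ≤ ‖l‖ / 2 * ‖b‖ := by positivity
        linarith
      refine ⟨(l b)⁻¹ • b, fun _ => ⟨by simp [hlb], ?_⟩⟩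
      rw [norm_smul, norm_inv]
      have h1 : 0 < ‖l b‖ := norm_pos_iff.2 hlb
      rw [mul_assoc, inv_mul_le_iff₀ h1]
      nlinarith
  choose a ha using hvec
  refine Sm.mono (S' := ⋃ j : ℕ, ⋃ k : ℕ, ⋃ i : ℕ,
    {z | z ∈ S ∧ d j ≠ 0 ∧ z ∈ Metric.ball (q i) (1 / (2 * (k + 1))) ∧
      ∀ y ∈ S, ‖y - z‖ < 1 / (k + 1) → |d j (y - z)| * (2 * ‖a (d j)‖) ≤ ‖y - z‖}) ?_ ?_
  · refine Sm.iUnion fun j => Sm.iUnion fun k => Sm.iUnion fun i => ?_
    by_cases hj : d j = 0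
    · refine Sm.empty.mono ?_
      rintro z ⟨-, h1, -⟩
      exact absurd hj h1
    · refine sm_cone h (d j) (a (d j)) (ha _ hj).1 _ ?_
      rintro x ⟨hx, -, hxb, -⟩ y ⟨hy, -, hyb, hyc⟩
      refine hyc x hx ?_
      rw [← dist_eq_norm]
      have h1 := dist_triangle_right x y (q i)
      rw [Metric.mem_ball] at hxb hyb
      have h2 : (1 : ℝ) / (k + 1) = 1 / (2 * (k + 1)) + 1 / (2 * (k + 1)) := by
        field_simp; norm_num
      rw [h2]
      exact lt_of_le_of_lt h1 (add_lt_add hxb hyb)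
  · intro z hz
    have hz' := hz
    rw [hSdef] at hz'
    obtain ⟨h0, hdiff, hne⟩ := hz'
    -- a functional
    obtain ⟨v, hv⟩ : ∃ v, fderiv ℝ f z v ≠ 0 := by
      by_contra hcon
      push Not at hcon
      exact hne (ContinuousLinearMap.ext hcon)
    obtain ⟨φ, hφ1, hφ2⟩ := exists_dual_vector ℝ (fderiv ℝ f z v) (norm_ne_zero_iff.2 hv)
    obtain ⟨l, hl⟩ : ∃ l : Z →L[ℝ] ℝ, l = φ.comp (fderiv ℝ f z) := ⟨_, rfl⟩
    have hl0 : l ≠ 0 := by
      intro h0
      have h1 : l v = 0 := by rw [h0]; rfl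
      rw [hl] at h1
      change φ (fderiv ℝ f z v) = 0 at h1
      rw [hφ2] at h1
      have : ‖fderiv ℝ f z v‖ = 0 := by exact_mod_cast h1
      exact hv (norm_eq_zero.1 this)
    have hlpos : 0 < ‖l‖ := norm_pos_iff.2 hl0
    -- approximation of the functional
    obtain ⟨j, hj⟩ : ∃ j, ‖d j - l‖ < ‖l‖ / 32 := by
      have h1 := Metric.dense_iff.1 hd l (‖l‖ / 32) (by positivity)
      obtain ⟨_, h2, j, rfl⟩ := h1
      exact ⟨j, by rw [← dist_eq_norm]; exact h2⟩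
    have hdj : ‖l‖ / 2 < ‖d j‖ := by
      have h1 := norm_sub_norm_le l (d j)
      rw [norm_sub_rev] at h1
      linarith
    have hdj0 : d j ≠ 0 := by
      intro h0
      rw [h0, norm_zero] at hdj
      linarith
    obtain ⟨ha1, ha2⟩ := ha (d j) hdj0
    have hapos : 0 ≤ ‖a (d j)‖ := norm_nonneg _
    have ha3 : ‖a (d j)‖ * ‖l‖ ≤ 4 := by nlinarith
    -- the derivative
    have hder : ∀ᶠ y in 𝓝 z, ‖f y - f z - fderiv ℝ f z (y - z)‖ ≤ (‖l‖ / 32) * ‖y - z‖ :=
      hdiff.hasFDerivAt.isLittleO.def (by positivity)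
    obtain ⟨r, hr, hball⟩ := Metric.eventually_nhds_iff.1 hder
    obtain ⟨k, hk⟩ := exists_nat_one_div_lt hr
    obtain ⟨i, hi⟩ : ∃ i, z ∈ Metric.ball (q i) (1 / (2 * ((k : ℝ) + 1))) := by
      obtain ⟨_, h2, i, rfl⟩ := Metric.dense_iff.1 hq z (1 / (2 * ((k : ℝ) + 1))) (by positivity)
      exact ⟨i, by rw [Metric.mem_ball, dist_comm]; exact h2⟩
    refine mem_iUnion.2 ⟨j, mem_iUnion.2 ⟨k, mem_iUnion.2 ⟨i, hz, hdj0, hi, ?_⟩⟩⟩
    intro y hy hyz
    have h1 := hball (y := y) (by rw [dist_eq_norm]; exact hyz.trans hk)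
    rw [hSdef] at hy
    rw [hy.1, h0, sub_zero, zero_sub, norm_neg] at h1
    have h2 : |l (y - z)| ≤ (‖l‖ / 32) * ‖y - z‖ := by
      have hly : l (y - z) = φ (fderiv ℝ f z (y - z)) := by rw [hl]; rfl
      rw [hly]
      have h3 := φ.le_opNorm (fderiv ℝ f z (y - z))
      rw [hφ1, one_mul, Real.norm_eq_abs] at h3
      exact h3.trans h1
    have h3 : |d j (y - z)| ≤ (‖l‖ / 16) * ‖y - z‖ := by
      have h4 : d j (y - z) = (d j - l) (y - z) + l (y - z) := by simp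
      have h5 : |(d j - l) (y - z)| ≤ (‖l‖ / 32) * ‖y - z‖ := by
        have h6 := (d j - l).le_opNorm (y - z)
        rw [Real.norm_eq_abs] at h6
        exact h6.trans (mul_le_mul_of_nonneg_right hj.le (norm_nonneg _))
      rw [h4]
      refine (abs_add_le _ _).trans ?_
      linarith
    have h7 : 0 ≤ ‖y - z‖ := norm_nonneg _
    calc |d j (y - z)| * (2 * ‖a (d j)‖) ≤ (‖l‖ / 16) * ‖y - z‖ * (2 * ‖a (d j)‖) :=
          mul_le_mul_of_nonneg_right h3 (by positivity)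
      _ = (‖a (d j)‖ * ‖l‖) * (‖y - z‖ / 8) := by ring
      _ ≤ 4 * (‖y - z‖ / 8) := mul_le_mul_of_nonneg_right ha3 (by positivity)
      _ ≤ ‖y - z‖ := by linarith

/-- The replacement of the theorem on points of density. -/
theorem ae_zero' {F' : Type*} [NormedAddCommGroup F'] [NormedSpace ℝ F'] {m : ℕ}
    (h : Module.finrank ℝ Z = m + 1) {A : Set Z} (hA : MeasurableSet A) {f : Z → F'}
    (hf : ∀ z ∈ A, DifferentiableAt ℝ f z) :
    ∃ B ⊆ A, MeasurableSet B ∧ smM Z m (A \ B) = 0 ∧ ∀ z ∈ B, f z = 0 → fderiv ℝ f z = 0 := by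
  obtain ⟨N, hNm, hN, hNs⟩ := (sm_bad h f).measurable_superset
  refine ⟨A \ N, sdiff_subset, hA.diff hNm, smM_eq_zero.2 (hNs.mono ?_), ?_⟩
  · intro x hx
    by_contra hxN
    exact hx.2 ⟨hx.1, hxN⟩
  · intro z hz hfz
    by_contra hcon
    exact hz.2 (hN ⟨hfz, hf z hz.1, hcon⟩)

end Cone

end Pool.Agent.T2h25.Iv
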