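import Pool.Agent.H721R2.Ivrii.NPlane
import Pool.Agent.T2h25.Iv.Sm

/-!
# Planar tables: the periodic points form a countable union of curves

Port of `Pool.Agent.H721R2.Ivrii` (periodic trajectories of planar billiards with at most three
bounces at points of nonzero curvature) from Lebesgue null sets to countable unions of sets of
finite length.
-/

set_option autoImplicit false

open MeasureTheory Set Filter Topology
open scoped ComplexConjugate InnerProductSpace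
open Pool.Agent.H721R2.Ivrii

namespace Pool.Agent.T2h25.Iv

/-- One step of the differentiation procedure. -/
theorem stepS (E : Set (ℝ × ℝ)) (hE : MeasurableSet E) (f : ℝ × ℝ → ℝ)
    (hd : ∀ x ∈ E, DifferentiableAt ℝ f x) (h0 : ∀ x ∈ E, f x = 0) :
    ∃ E' ⊆ E, MeasurableSet E' ∧ (∀ x ∈ E', ∀ (v : ℝ × ℝ) (d : ℝ),
      HasDerivAt (fun t : ℝ => f (x + t • v)) d 0 → d = 0) ∧ smM (ℝ × ℝ) 1 (E \ E') = 0 := by
  obtain ⟨B, hB, hBm, h1, h2⟩ := ae_zero' (Z := ℝ × ℝ) (m := 1) (by simp) hE hd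
  refine ⟨B, hB, hBm, fun x hx v d hder => ?_, h1⟩
  have h5 : HasDerivAt (fun t : ℝ => f (x + t • v)) (fderiv ℝ f x v) 0 := by
    have hl : HasDerivAt (fun t : ℝ => x + t • v) v 0 := by
      have := ((hasDerivAt_id (0 : ℝ)).smul_const v).const_add x
      simpa using this
    have hf : HasFDerivAt f (fderiv ℝ f x) ((fun t : ℝ => x + t • v) 0) := by
      simpa using (hd x (hB hx)).hasFDerivAt
    exact hf.comp_hasDerivAt (0 : ℝ) hl
  rw [hder.unique h5, h2 x hx (h0 x (hB hx))]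
  rfl

theorem null_of_diffS (E E' : Set (ℝ × ℝ)) (h : smM (ℝ × ℝ) 1 (E \ E') = 0) (h' : smM (ℝ × ℝ) 1 E' = 0) :
    smM (ℝ × ℝ) 1 E = 0 := by
  refine measure_mono_null (t := (E \ E') ∪ E') ?_ (measure_union_null h h')
  intro x hx
  by_cases hx' : x ∈ E'
  · exact Or.inr hx'
  · exact Or.inl ⟨hx, hx'⟩

theorem exists_E2S (D : Lev) : ∃ E' ⊆ D.E, MeasurableSet E' ∧ smM (ℝ × ℝ) 1 (D.E \ E') = 0 ∧ ∀ x ∈ E',
    D.Dirs x ∧
    D.T1 x * (D.a x + D.c x - D.η * D.b x) + D.T2 x * (D.η * (D.a x + D.b x) - D.c x)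
      + D.T3 x * (D.b x + D.c x - D.η * D.a x) = 0 := by
  obtain ⟨E2, hs2, hm2, hp2, hv2⟩ := stepS D.E D.hE
    (fun x => 2 * D.κ x * (D.a x * D.c x) -
      D.ρ x * Real.sin (D.θ1 x) * (D.a x + D.c x - D.η * D.b x))
    (fun x hx => ((D.dκ x hx).const_mul 2 |>.mul ((D.da x hx).mul (D.dc x hx))).sub
        (((D.dρ x hx).mul (D.dθ1 x hx).sin).mul
          (((D.da x hx).add (D.dc x hx)).sub ((D.db x hx).const_mul D.η))))
    (fun x hx => by
      have := D.f2 x hx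
      linarith)
  refine ⟨E2, hs2, hm2, hv2, fun x hx => ⟨D.dirs x (hs2 hx), ?_⟩⟩
  have hxE := hs2 hx
  obtain ⟨v, hρ, hκ, ha, hb, hc, hθ, -, -⟩ := D.X1 x hxE
  have hf := D.f2 x hxE
  have hs1 : Real.sin (D.θ1 x) ≠ 0 := D.s1 x hxE
  have hr1 := D.nρ x hxE
  have ht1 : D.T1 x * Real.sin (D.θ1 x) = Real.cos (D.θ1 x) := div_mul_cancel₀ _ hs1
  have hsin := hθ.sin
  have hη := D.hηη
  have := hp2 x hx v _ (((hκ.const_mul 2).mul (ha.mul hc)).sub
    ((hρ.mul hsin).mul ((ha.add hc).sub (hb.const_mul D.η))))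
  simp only [zero_smul, add_zero, mul_zero, zero_mul, zero_add, Pi.mul_apply, Pi.add_apply,
    Pi.sub_apply] at this
  have e2 : Real.cos (D.θ2 x) / Real.sin (D.θ2 x) = D.T2 x := rfl
  have e3 : Real.cos (D.θ3 x) / Real.sin (D.θ3 x) = D.T3 x := rfl
  rw [e2, e3] at this
  have h2 : D.ρ x * Real.sin (D.θ1 x) * (D.T1 x * (D.a x + D.c x - D.η * D.b x)
      + D.T2 x * (D.η * (D.a x + D.b x) - D.c x)
      + D.T3 x * (D.b x + D.c x - D.η * D.a x)) = 0 := by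
    linear_combination -this + (D.T2 x + D.η * D.T3 x) * hf +
      (D.ρ x * (D.a x + D.c x - D.η * D.b x)) * ht1 -
      (D.ρ x * Real.sin (D.θ1 x) * D.T3 x * (D.b x + D.c x)) * hη
  rcases mul_eq_zero.1 h2 with h | h
  · exact absurd h (mul_ne_zero hr1 hs1)
  · exact h

/-- Passing to a smaller set of full measure on which a relation can be differentiated. -/
theorem advanceS (D : Lev) {P : ℝ × ℝ → Prop} (f : ℝ × ℝ → ℝ)
    (h : ∃ E' ⊆ D.E, MeasurableSet E' ∧ smM (ℝ × ℝ) 1 (D.E \ E') = 0 ∧ ∀ x ∈ E', P x)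
    (hd : ∀ x ∈ D.E, DifferentiableAt ℝ f x) (hf : ∀ x ∈ D.E, P x → f x = 0) :
    ∃ E' ⊆ D.E, MeasurableSet E' ∧ smM (ℝ × ℝ) 1 (D.E \ E') = 0 ∧ ∀ x ∈ E', P x ∧
      ∀ (v : ℝ × ℝ) (d : ℝ), HasDerivAt (fun t : ℝ => f (x + t • v)) d 0 → d = 0 := by
  obtain ⟨E1, hs, hm, hv, hp⟩ := h
  obtain ⟨E2, hs2, hm2, hp2, hv2⟩ := stepS E1 hm f (fun x hx => hd x (hs hx))
    (fun x hx => hf x (hs hx) (hp x hx))
  refine ⟨E2, hs2.trans hs, hm2, ?_, fun x hx => ⟨hp x (hs2 hx), hp2 x hx⟩⟩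
  refine measure_mono_null (t := (D.E \ E1) ∪ (E1 \ E2)) ?_ (measure_union_null hv hv2)
  intro x hx
  by_cases h : x ∈ E1
  · exact Or.inr ⟨h, hx.2⟩
  · exact Or.inl ⟨hx.1, h⟩

/-- The same, when the relation only holds on a part of the set. -/
theorem advanceS' (D : Lev) {P : ℝ × ℝ → Prop} (f : ℝ × ℝ → ℝ)
    (h : ∃ E' ⊆ D.E, MeasurableSet E' ∧ smM (ℝ × ℝ) 1 (D.E \ E') = 0 ∧ ∀ x ∈ E', P x)
    (hd : ∀ x ∈ D.E, DifferentiableAt ℝ f x) :
    ∃ E' ⊆ D.E, MeasurableSet E' ∧ smM (ℝ × ℝ) 1 (D.E \ E') = 0 ∧ ∀ x ∈ E', P x ∧ (f x = 0 →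
      ∀ (v : ℝ × ℝ) (d : ℝ), HasDerivAt (fun t : ℝ => f (x + t • v)) d 0 → d = 0) := by
  obtain ⟨E1, hs, hm, hv, hp⟩ := h
  have hZ : MeasurableSet (E1 ∩ {x | f x = 0}) := by
    have hc : ContinuousOn f E1 := fun x hx => (hd x (hs hx)).continuousAt.continuousWithinAt
    obtain ⟨u, hu, hu2⟩ := continuousOn_iff'.1 hc {0}ᶜ isOpen_compl_singleton
    have : E1 ∩ {x | f x = 0} = E1 \ u := by
      ext x
      have h3 : x ∈ f ⁻¹' {0}ᶜ ∩ E1 ↔ x ∈ u ∩ E1 := by rw [hu2]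
      simp only [mem_inter_iff, mem_preimage, mem_compl_iff, mem_singleton_iff] at h3
      constructor
      · rintro ⟨h1, h2⟩
        exact ⟨h1, fun h4 => (h3.2 ⟨h4, h1⟩).1 h2⟩
      · rintro ⟨h1, h2⟩
        refine ⟨h1, ?_⟩
        by_contra h4
        exact h2 (h3.1 ⟨h4, h1⟩).1
    rw [this]
    exact hm.diff hu.measurableSet
  obtain ⟨Z, hs2, hm2, hp2, hv2⟩ := stepS (E1 ∩ {x | f x = 0}) hZ f (fun x hx => hd x (hs hx.1))
    (fun x hx => hx.2)
  refine ⟨E1 \ ((E1 ∩ {x | f x = 0}) \ Z), fun x hx => hs hx.1, hm.diff (hZ.diff hm2), ?_,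
    fun x hx => ⟨hp x hx.1, fun h0 => ?_⟩⟩
  · refine measure_mono_null (t := (D.E \ E1) ∪ ((E1 ∩ {x | f x = 0}) \ Z)) ?_
      (measure_union_null hv hv2)
    intro x hx
    by_cases h : x ∈ E1
    · by_cases h' : x ∈ (E1 ∩ {x | f x = 0}) \ Z
      · exact Or.inr h'
      · exact absurd ⟨h, h'⟩ hx.2
    · exact Or.inl ⟨hx.1, h⟩
  · have : x ∈ Z := by
      by_contra hZ
      exact hx.2 ⟨⟨hx.1, h0⟩, hZ⟩
    exact hp2 x this

/-- The orientation preserving case. -/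
theorem null_posS (D : Lev) (hη : D.η = 1) : smM (ℝ × ℝ) 1 D.E = 0 := by
  have l3 := advanceS D (fun x => D.T1 x * (D.a x + D.c x - D.b x) +
      D.T2 x * (D.a x + D.b x - D.c x) + D.T3 x * (D.b x + D.c x - D.a x)) (exists_E2S D)
    (fun x hx => (((D.dT1 x hx).mul (((D.da x hx).add (D.dc x hx)).sub (D.db x hx))).add
      ((D.dT2 x hx).mul (((D.da x hx).add (D.db x hx)).sub (D.dc x hx)))).add
      ((D.dT3 x hx).mul (((D.db x hx).add (D.dc x hx)).sub (D.da x hx))))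
    (fun x hx h => by have := h.2; rw [hη] at this; linarith)
  have star3 : ∀ x ∈ D.E, (D.Dirs x ∧
    D.T1 x * (D.a x + D.c x - D.η * D.b x) + D.T2 x * (D.η * (D.a x + D.b x) - D.c x)
      + D.T3 x * (D.b x + D.c x - D.η * D.a x) = 0) ∧
    (∀ (v : ℝ × ℝ) (d : ℝ), HasDerivAt (fun t : ℝ => D.T1 (x + t • v) *
      (D.a (x + t • v) + D.c (x + t • v) - D.b (x + t • v)) +
      D.T2 (x + t • v) * (D.a (x + t • v) + D.b (x + t • v) - D.c (x + t • v)) +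
      D.T3 (x + t • v) * (D.b (x + t • v) + D.c (x + t • v) - D.a (x + t • v))) d 0 → d = 0) →
    0 < (D.a x + D.b x - D.c x) + (D.b x + D.c x - D.a x) ∧
    0 < (D.b x + D.c x - D.a x) + (D.a x + D.c x - D.b x) ∧
    0 < (D.a x + D.c x - D.b x) + (D.a x + D.b x - D.c x) ∧
    ((D.a x + D.c x - D.b x) * D.T1 x + (D.a x + D.b x - D.c x) * D.T2 x +
      (D.b x + D.c x - D.a x) * D.T3 x = 0) ∧
    (∀ α β γ x' y z : ℝ, α = D.a x + D.c x - D.b x → β = D.a x + D.b x - D.c x →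
      γ = D.b x + D.c x - D.a x → x' = D.T1 x → y = D.T2 x → z = D.T3 x →
    (((α + β) * y + (γ + α) * z) * x' - (γ + α) * z * y - (α + β) * y * z
      - α * (1 + x' ^ 2) + β * ((1 + y ^ 2) * γ / (β + γ)) + γ * ((1 + z ^ 2) * β / (β + γ)) = 0) ∧
    (-(β + γ) * z * x' + ((α + β) * x' + (β + γ) * z) * y - (α + β) * x' * z
      + α * ((1 + x' ^ 2) * γ / (γ + α)) - β * (1 + y ^ 2) +
        γ * ((1 + z ^ 2) * α / (γ + α)) = 0)) := by
    rintro x hx ⟨⟨⟨⟨v, hd⟩, ⟨w, hd'⟩⟩, hG⟩, hp⟩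
    have pa := D.pa x hx
    have pb := D.pb x hx
    have pc := D.pc x hx
    rw [hη] at hG hd hd'
    refine ⟨by linarith, by linarith, by linarith, by linarith, ?_⟩
    rintro α β γ x' y z rfl rfl rfl rfl rfl rfl
    have e1 : (D.a x + D.b x - D.c x) + (D.b x + D.c x - D.a x) = 2 * D.b x := by ring
    have e2 : (D.b x + D.c x - D.a x) + (D.a x + D.c x - D.b x) = 2 * D.c x := by ring
    rw [e1, e2]
    have h1 := hp v _ (((hd.hx.mul ((hd.ha.add hd.hc).sub hd.hb)).add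
      (hd.hy.mul ((hd.ha.add hd.hb).sub hd.hc))).add (hd.hz.mul ((hd.hb.add hd.hc).sub hd.ha)))
    have h2 := hp w _ (((hd'.hx.mul ((hd'.ha.add hd'.hc).sub hd'.hb)).add
      (hd'.hy.mul ((hd'.ha.add hd'.hb).sub hd'.hc))).add
      (hd'.hz.mul ((hd'.hb.add hd'.hc).sub hd'.ha)))
    simp only [zero_smul, add_zero, Pi.mul_apply, Pi.add_apply, Pi.sub_apply] at h1 h2
    constructor
    · rw [← h1]; field_simp; ring
    · rw [← h2]; field_simp; ring
  have l4 := advanceS D (fun x => (1 + D.T2 x * D.T3 x) * (3 * D.a x + D.b x + D.c x) -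
      (1 + D.T1 x * D.T2 x) * (D.a x + 3 * D.b x + D.c x)) l3
    (fun x hx => (((D.dT2 x hx).mul (D.dT3 x hx)).const_add 1 |>.mul
        ((((D.da x hx).const_mul 3).add (D.db x hx)).add (D.dc x hx))).sub
      (((D.dT1 x hx).mul (D.dT2 x hx)).const_add 1 |>.mul
        (((D.da x hx).add ((D.db x hx).const_mul 3)).add (D.dc x hx))))
    (fun x hx h => by
      obtain ⟨q1, q2, q3, q4, q5⟩ := star3 x hx h
      obtain ⟨q6, q7⟩ := q5 _ _ _ _ _ _ rfl rfl rfl rfl rfl rfl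
      obtain ⟨L, w1, w2, w3⟩ := star _ _ _ _ _ _ q1 q2 q3 q4 q6 q7
      rw [w1, w2]
      ring)
  have l5 := advanceS D (fun x => (1 + D.T3 x * D.T1 x) * (3 * D.a x + D.b x + D.c x) -
      (1 + D.T1 x * D.T2 x) * (D.a x + D.b x + 3 * D.c x)) l4
    (fun x hx => (((D.dT3 x hx).mul (D.dT1 x hx)).const_add 1 |>.mul
        ((((D.da x hx).const_mul 3).add (D.db x hx)).add (D.dc x hx))).sub
      (((D.dT1 x hx).mul (D.dT2 x hx)).const_add 1 |>.mul
        (((D.da x hx).add (D.db x hx)).add ((D.dc x hx).const_mul 3))))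
    (fun x hx h => by
      obtain ⟨q1, q2, q3, q4, q5⟩ := star3 x hx h.1
      obtain ⟨q6, q7⟩ := q5 _ _ _ _ _ _ rfl rfl rfl rfl rfl rfl
      obtain ⟨L, w1, w2, w3⟩ := star _ _ _ _ _ _ q1 q2 q3 q4 q6 q7
      rw [w1, w3]
      ring)
  have l6 := advanceS' D D.T1 l5 D.dT1
  obtain ⟨E', hs, hm, hv, hp⟩ := l6
  have hE' : E' = ∅ := by
    rw [Set.eq_empty_iff_forall_notMem]
    intro x hx
    obtain ⟨⟨⟨h3, h4⟩, h5⟩, h6⟩ := hp x hx
    have hxU := (hs hx)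
    have pa := D.pa x hxU
    have pb := D.pb x hxU
    have pc := D.pc x hxU
    obtain ⟨q1, q2, q3, q4, q5⟩ := star3 x hxU h3
    obtain ⟨q6, q7⟩ := q5 _ _ _ _ _ _ rfl rfl rfl rfl rfl rfl
    obtain ⟨⟨⟨⟨v, hd⟩, -⟩, -⟩, -⟩ := h3
    rw [hη] at hd
    have ht : D.T1 x ≠ 0 := by
      intro h0
      have := h6 h0 v _ hd.hx
      nlinarith [sq_nonneg (D.T1 x)]
    have g4 := h4 v _ ((((hd.hy.mul hd.hz).const_add 1).mul
        (((hd.ha.const_mul 3).add hd.hb).add hd.hc)).sub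
      (((hd.hx.mul hd.hy).const_add 1).mul ((hd.ha.add (hd.hb.const_mul 3)).add hd.hc)))
    have g5 := h5 v _ ((((hd.hz.mul hd.hx).const_add 1).mul
        (((hd.ha.const_mul 3).add hd.hb).add hd.hc)).sub
      (((hd.hx.mul hd.hy).const_add 1).mul ((hd.ha.add hd.hb).add (hd.hc.const_mul 3))))
    simp only [zero_smul, add_zero, Pi.mul_apply, Pi.add_apply, Pi.sub_apply] at g4 g5
    have e1 : (D.a x + D.b x - D.c x) + (D.b x + D.c x - D.a x) = 2 * D.b x := by ring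
    refine algPos _ _ _ _ _ _ q1 q2 q3 ht q4 q6 q7 ?_ ?_
    · rw [e1, ← g4]; field_simp; ring
    · rw [e1, ← g5]; field_simp; ring
  rw [hE', sdiff_empty] at hv
  exact hv

/-- The orientation reversing case. -/
theorem null_negS (D : Lev) (hη : D.η = -1) : smM (ℝ × ℝ) 1 D.E = 0 := by
  have l3 := advanceS D (fun x => D.T1 x - D.T2 x + D.T3 x) (exists_E2S D)
    (fun x hx => ((D.dT1 x hx).sub (D.dT2 x hx)).add (D.dT3 x hx))
    (fun x hx h => by
      have h2 := h.2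
      rw [hη] at h2
      have pa := D.pa x hx
      have pb := D.pb x hx
      have pc := D.pc x hx
      have h3 : (D.a x + D.b x + D.c x) * (D.T1 x - D.T2 x + D.T3 x) = 0 := by
        linear_combination h2
      rcases mul_eq_zero.1 h3 with h4 | h4
      · linarith
      · exact h4)
  have H3 : ∀ x ∈ D.E, (D.Dirs x ∧
    D.T1 x * (D.a x + D.c x - D.η * D.b x) + D.T2 x * (D.η * (D.a x + D.b x) - D.c x)
      + D.T3 x * (D.b x + D.c x - D.η * D.a x) = 0) ∧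
    (∀ (v : ℝ × ℝ) (d : ℝ), HasDerivAt (fun t : ℝ => D.T1 (x + t • v) - D.T2 (x + t • v) +
      D.T3 (x + t • v)) d 0 → d = 0) →
    D.T1 x - D.T2 x + D.T3 x = 0 ∧
    2 * D.b x * (1 + D.T1 x ^ 2) = (D.a x + D.c x - D.b x) * (2 + D.T2 x ^ 2 + D.T3 x ^ 2) ∧
    2 * D.c x * (1 + D.T2 x ^ 2) = (D.a x + D.b x - D.c x) * (2 + D.T1 x ^ 2 + D.T3 x ^ 2) := by
    rintro x hx ⟨⟨⟨⟨v, hd⟩, ⟨w, hd'⟩⟩, hG⟩, hp⟩
    have pa := D.pa x hx
    have pb := D.pb x hx
    have pc := D.pc x hx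
    rw [hη] at hG hd hd'
    have h0 : D.T1 x - D.T2 x + D.T3 x = 0 := by
      have h3 : (D.a x + D.b x + D.c x) * (D.T1 x - D.T2 x + D.T3 x) = 0 := by
        linear_combination hG
      rcases mul_eq_zero.1 h3 with h4 | h4
      · linarith
      · exact h4
    have h1 := hp v _ ((hd.hx.sub hd.hy).add hd.hz)
    have h2 := hp w _ ((hd'.hx.sub hd'.hy).add hd'.hz)
    refine ⟨h0, ?_, ?_⟩
    · field_simp at h1
      linear_combination -h1
    · field_simp at h2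
      linear_combination h2
  have l4 := advanceS D (fun x => (D.a x + D.b x - D.c x) * (2 + D.T1 x ^ 2 + D.T3 x ^ 2) -
      2 * D.c x * (1 + D.T2 x ^ 2)) l3
    (fun x hx => ((((D.da x hx).add (D.db x hx)).sub (D.dc x hx)).mul
        ((((D.dT1 x hx).pow 2).const_add 2).add ((D.dT3 x hx).pow 2))).sub
      (((D.dc x hx).const_mul 2).mul (((D.dT2 x hx).pow 2).const_add 1)))
    (fun x hx h => by
      obtain ⟨q1, q2, q3⟩ := H3 x hx h
      linarith)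
  have l5 := advanceS' D D.T2 l4 D.dT2
  obtain ⟨E', hs, hm, hv, hp⟩ := l5
  have hE' : E' = ∅ := by
    rw [Set.eq_empty_iff_forall_notMem]
    intro x hx
    obtain ⟨⟨h3, h4⟩, h5⟩ := hp x hx
    have hxU := (hs hx)
    have pa := D.pa x hxU
    have pb := D.pb x hxU
    have pc := D.pc x hxU
    obtain ⟨q1, q2, q3⟩ := H3 x hxU h3
    obtain ⟨⟨⟨-, ⟨v, hd⟩⟩, -⟩, -⟩ := h3
    rw [hη] at hd
    have g4 := h4 v _ ((((hd.ha.add hd.hb).sub hd.hc).mul
        (((hd.hx.pow 2).const_add 2).add (hd.hz.pow 2))).sub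
      ((hd.hc.const_mul 2).mul ((hd.hy.pow 2).const_add 1)))
    simp only [zero_smul, add_zero, Pi.mul_apply, Pi.add_apply, Pi.sub_apply, Pi.pow_apply] at g4
    have hy : D.T2 x = 0 := by
      refine algNeg _ _ _ _ _ _ pa pb pc q1 q2 q3 ?_
      rw [← g4]; push_cast; field_simp; ring
    have := h5 hy v _ hd.hy
    nlinarith [sq_nonneg (D.T2 x)]
  rw [hE', sdiff_empty] at hv
  exact hv

/-- Closed trajectories are negligible. -/
theorem null_ES (D : Lev) : smM (ℝ × ℝ) 1 D.E = 0 := by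
  rcases D.hη with h | h
  · exact null_posS D h
  · exact null_negS D h

/-- The points at which the closing relations can be differentiated. -/
theorem exists_E0S (D : NCfg) : ∃ E' ⊆ D.E, MeasurableSet E' ∧ smM (ℝ × ℝ) 1 (D.E \ E') = 0 ∧ ∀ x ∈ E', ∀ v : ℝ × ℝ,
    fderiv ℝ (D.S D.n) x v = fderiv ℝ (D.S 0) x v ∧
    fderiv ℝ (D.φ D.n) x v = D.ε * fderiv ℝ (D.φ 0) x v := by
  obtain ⟨E1, hs1, hm1, hp1, hv1⟩ := stepS D.E D.measurable_E (fun x => D.S D.n x - D.S 0 x)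
    (fun x hx => (D.dS _ le_rfl x hx.1).sub (D.dS 0 (Nat.zero_le _) x hx.1))
    (fun x hx => sub_eq_zero.2 hx.2.1)
  obtain ⟨E2, hs2, hm2, hp2, hv2⟩ := stepS D.E D.measurable_E
    (fun x => D.φ D.n x - (D.ε * D.φ 0 x + D.K))
    (fun x hx => (D.dφ _ le_rfl x hx.1).sub
      (((D.dφ 0 (Nat.zero_le _) x hx.1).const_mul D.ε).add_const D.K))
    (fun x hx => sub_eq_zero.2 hx.2.2.1)
  refine ⟨E1 ∩ E2, fun x hx => hs1 hx.1, hm1.inter hm2, ?_, ?_⟩
  · rw [sdiff_inter]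
    exact measure_union_null hv1 hv2
  · intro x hx v
    have hxU : x ∈ D.U := (hs1 hx.1).1
    constructor
    · have := hp1 x hx.1 v _ ((Cfg.line_deriv (D.dS _ le_rfl x hxU) v).sub
        (Cfg.line_deriv (D.dS 0 (Nat.zero_le _) x hxU) v))
      linarith
    · have := hp2 x hx.2 v _ ((Cfg.line_deriv (D.dφ _ le_rfl x hxU) v).sub
        (((Cfg.line_deriv (D.dφ 0 (Nat.zero_le _) x hxU) v).const_mul D.ε).add_const D.K))
      linarith

/-- Closed trajectories with at most three bounces at points of nonzero curvature are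
negligible. -/
theorem null3S (D : NCfg) (d1 d2 d3 : ℕ) (hn : D.n = d1 + d2 + d3 + 3)
    (hZ : ∀ k, 0 < k → k < D.n → k ≠ d1 + 1 → k ≠ d1 + d2 + 2 → k ∈ D.Z) :
    smM (ℝ × ℝ) 1 D.E = 0 := by
  obtain ⟨E1, hs, hm, hv, hp⟩ := (exists_E0S D)
  obtain ⟨s1, hs1⟩ : ∃ s, s = (-1 : ℝ) ^ d1 := ⟨_, rfl⟩
  obtain ⟨s2, hs2⟩ : ∃ s, s = (-1 : ℝ) ^ (d1 + d2) := ⟨_, rfl⟩
  obtain ⟨η, hη⟩ : ∃ s, s = (-1 : ℝ) ^ (d1 + d2 + d3) * D.ε := ⟨_, rfl⟩
  have q1 : s1 * s1 = 1 := by rw [hs1, ← mul_pow]; norm_num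
  have q2 : s2 * s2 = 1 := by rw [hs2, ← mul_pow]; norm_num
  have q3 : η * η = 1 := by
    have e1 : ((-1 : ℝ) ^ (d1 + d2 + d3)) * ((-1 : ℝ) ^ (d1 + d2 + d3)) = 1 := by
      rw [← mul_pow]; norm_num
    rw [hη]
    linear_combination (D.ε * D.ε) * e1 + D.hεε
  have q3' : η = 1 ∨ η = -1 := by
    have h3 : (η - 1) * (η + 1) = 0 := by linear_combination q3
    rcases mul_eq_zero.1 h3 with h4 | h4
    · left; linarith
    · right; linarith
  have hn0 : (0 : ℕ) ≤ D.n := Nat.zero_le _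
  have hn1 : 1 ≤ D.n := by omega
  have hnj : d1 + 1 ≤ D.n := by omega
  have hnl : d1 + d2 + 2 ≤ D.n := by omega
  have forms : ∀ x ∈ E1, ∀ v : ℝ × ℝ, _ := fun x hx v =>
    D.forms d1 d2 d3 hn hZ (hs hx) v (hp x hx v).1 (hp x hx v).2
  rw [← hs1, ← hs2, ← hη] at forms
  have ha_pos : ∀ x ∈ E1, 0 < ∑ t ∈ Finset.range (d1 + 1), D.a (0 + t) x := fun x hx =>
    Finset.sum_pos (fun t ht => D.pa _ (by have := Finset.mem_range.1 ht; omega) x (hs hx).1)
      ⟨0, by simp⟩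
  have hb_pos : ∀ x ∈ E1, 0 < ∑ t ∈ Finset.range (d2 + 1), D.a (d1 + 1 + t) x := fun x hx =>
    Finset.sum_pos (fun t ht => D.pa _ (by have := Finset.mem_range.1 ht; omega) x (hs hx).1)
      ⟨0, by simp⟩
  have hc_pos : ∀ x ∈ E1, 0 < ∑ t ∈ Finset.range (d3 + 1), D.a (d1 + d2 + 2 + t) x :=
    fun x hx =>
    Finset.sum_pos (fun t ht => D.pa _ (by have := Finset.mem_range.1 ht; omega) x (hs hx).1)
      ⟨0, by simp⟩
  have hS0 : ∀ x, D.S 0 x = x.1 := fun x => by rw [D.S0]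
  have dS0' : ∀ x v, fderiv ℝ (D.S 0) x v = v.1 := D.dS0
  have hsn : ∀ k ≤ D.n, ∀ x ∈ E1, Real.sin (D.θ k x) ≠ 0 := fun k hk x hx =>
    D.ns k hk x (hs hx).1
  have hs1' : s1 ≠ 0 := by rintro rfl; norm_num at q1
  have hs2' : s2 ≠ 0 := by rintro rfl; norm_num at q2
  have ct2 : ∀ x, Real.cos (s1 * D.θ (d1 + 1) x) / Real.sin (s1 * D.θ (d1 + 1) x) =
    s1 * D.ct x (d1 + 1) := fun x => NCfg.sign_cot _ _ q1
  have ct3 : ∀ x, Real.cos (s2 * D.θ (d1 + d2 + 2) x) / Real.sin (s2 * D.θ (d1 + d2 + 2) x) =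
    s2 * D.ct x (d1 + d2 + 2) := fun x => NCfg.sign_cot _ _ q2
  -- the second direction
  have dir2 : ∀ x ∈ E1, ∃ v : ℝ × ℝ, ∃ r : ℝ,
      v.1 * D.r 0 (D.S 0 x) * Real.sin (D.θ 0 x) =
        -∑ t ∈ Finset.range (d1 + 1), D.a (0 + t) x ∧
      (∑ t ∈ Finset.range (d3 + 1), D.a (d1 + d2 + 2 + t) x) * r =
        (∑ t ∈ Finset.range (d2 + 1), D.a (d1 + 1 + t) x) -
          η * ∑ t ∈ Finset.range (d1 + 1), D.a (0 + t) x ∧
      -1 + η * r = 2 * (v.1 * D.κ 0 (D.S 0 x)) ∧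
      fderiv ℝ (D.φ 0) x v = -1 ∧
      s1 * (fderiv ℝ (D.φ (d1 + 1)) x v -
        fderiv ℝ (D.S (d1 + 1)) x v * D.κ (d1 + 1) (D.S (d1 + 1) x)) = 1 ∧
      s2 * (fderiv ℝ (D.φ (d1 + d2 + 2)) x v -
        fderiv ℝ (D.S (d1 + d2 + 2)) x v * D.κ (d1 + d2 + 2) (D.S (d1 + d2 + 2) x)) =
        (r - 1) / 2 ∧
      ∑ t ∈ Finset.range (d1 + 1), fderiv ℝ (D.a (0 + t)) x v =
        (∑ t ∈ Finset.range (d1 + 1), D.a (0 + t) x) * D.ct x 0 ∧
      ∑ t ∈ Finset.range (d2 + 1), fderiv ℝ (D.a (d1 + 1 + t)) x v =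
        (∑ t ∈ Finset.range (d2 + 1), D.a (d1 + 1 + t) x) * (s2 * D.ct x (d1 + d2 + 2)) ∧
      ∑ t ∈ Finset.range (d3 + 1), fderiv ℝ (D.a (d1 + d2 + 2 + t)) x v =
        -((∑ t ∈ Finset.range (d1 + 1), D.a (0 + t) x) * D.ct x 0) -
        (∑ t ∈ Finset.range (d2 + 1), D.a (d1 + 1 + t) x) * (s2 * D.ct x (d1 + d2 + 2)) := by
    intro x hx
    obtain ⟨A, hA⟩ : ∃ A, A = ∑ t ∈ Finset.range (d1 + 1), D.a (0 + t) x := ⟨_, rfl⟩
    have hr0 := D.nr 0 hn0 x (hs hx).1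
    have hr1 := D.nr 1 hn1 x (hs hx).1
    have hs0 := hsn 0 hn0 x hx
    have hs1 := hsn 1 hn1 x hx
    have ha0 := (D.pa 0 (by omega) x (hs hx).1).ne'
    obtain ⟨v, hv1, hv2⟩ : ∃ v : ℝ × ℝ, v.1 * D.r 0 (D.S 0 x) * Real.sin (D.θ 0 x) = -A ∧
        v.2 * D.r 1 (D.S 1 x) * Real.sin (D.θ 1 x) = A - D.a 0 x :=
      ⟨(-A / (D.r 0 (D.S 0 x) * Real.sin (D.θ 0 x)),
        (A - D.a 0 x) / (D.r 1 (D.S 1 x) * Real.sin (D.θ 1 x))), by
        simp only; field_simp, by simp only; field_simp⟩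
    obtain ⟨ξ1, ξ2, ξ3, p, q, r, m2, m3, w1, -, -, w4, w5, w6, w7, w8, w9, w10, w11, w12, w13,
      w14, w15, w16, w17⟩ := forms x hx v
    rw [D.ξ_zero, hv1] at w1
    rw [D.ξ_one, hv2, w1] at w10
    have hp' : p = -1 := by
      have : D.a 0 x * (p + 1) = 0 := by linear_combination w10
      rcases mul_eq_zero.1 this with h | h
      · exact absurd h ha0
      · linarith
    rw [← hA, hp', w1] at w4
    have hξ2 : ξ2 = 0 := by linarith
    have hq : q = 1 := by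
      rw [w11 hξ2, hp'] at w7; linarith
    rw [hq, hξ2, mul_one, zero_add] at w5
    rw [← w5, w1] at w6
    refine ⟨v, r, ?_, ?_, ?_, ?_, ?_, ?_, ?_, ?_, ?_⟩
    · rw [hv1, hA]
    · rw [w6, ← hA]; ring
    · rw [← w9, hp']
    · rw [w12, hp']
    · rw [w13, hq, hp']; norm_num
    · rw [w14, hq]
    · rw [w15, hξ2, w1, ← hA]; ring
    · rw [w16, hξ2, ← w5]; ring
    · rw [w17, w1, ← w5, ← hA]; ring
  let L : Lev :=
    { E := E1
      hE := hm
      η := η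
      hη := q3'
      a := fun x => ∑ t ∈ Finset.range (d1 + 1), D.a (0 + t) x
      b := fun x => ∑ t ∈ Finset.range (d2 + 1), D.a (d1 + 1 + t) x
      c := fun x => ∑ t ∈ Finset.range (d3 + 1), D.a (d1 + d2 + 2 + t) x
      θ1 := D.θ 0
      θ2 := fun x => s1 * D.θ (d1 + 1) x
      θ3 := fun x => s2 * D.θ (d1 + d2 + 2) x
      ρ := fun x => D.r 0 x.1
      κ := fun x => D.κ 0 x.1
      da := fun x hx => D.sum_diff (fun t => 0 + t) (fun t ht => by omega) (hs hx).1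
      db := fun x hx => D.sum_diff (fun t => d1 + 1 + t) (fun t ht => by omega)
        (hs hx).1
      dc := fun x hx => D.sum_diff (fun t => d1 + d2 + 2 + t) (fun t ht => by omega)
        (hs hx).1
      dθ1 := fun x hx => D.dθ hn0 (hs hx).1
      dθ2 := fun x hx => (D.dθ hnj (hs hx).1).const_mul s1
      dθ3 := fun x hx => (D.dθ hnl (hs hx).1).const_mul s2
      dρ := fun x hx => by
        have := D.dr x (hs hx).1
        rw [hS0] at this
        exact Cfg.diff_fst this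
      dκ := fun x hx => by
        have := D.dκ 0 hn0 x (hs hx).1
        rw [hS0] at this
        exact Cfg.diff_fst this
      pa := ha_pos
      pb := hb_pos
      pc := hc_pos
      s1 := fun x hx => hsn 0 hn0 x hx
      s2 := fun x hx => by
        rw [NCfg.sign_sin _ _ q1]
        exact mul_ne_zero hs1' (hsn _ hnj x hx)
      s3 := fun x hx => by
        rw [NCfg.sign_sin _ _ q2]
        exact mul_ne_zero hs2' (hsn _ hnl x hx)
      nρ := fun x hx => by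
        have := D.nr 0 hn0 x (hs hx).1
        rwa [hS0] at this
      f2 := fun x hx => by
        obtain ⟨v, r, e1, e2, e3, -⟩ := dir2 x hx
        rw [hS0] at e1 e3
        obtain ⟨A, hA⟩ : ∃ A, A = ∑ t ∈ Finset.range (d1 + 1), D.a (0 + t) x := ⟨_, rfl⟩
        obtain ⟨B, hB⟩ : ∃ A, A = ∑ t ∈ Finset.range (d2 + 1), D.a (d1 + 1 + t) x := ⟨_, rfl⟩
        obtain ⟨C, hC⟩ : ∃ A, A = ∑ t ∈ Finset.range (d3 + 1), D.a (d1 + d2 + 2 + t) x :=
          ⟨_, rfl⟩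
        rw [← hA, ← hB, ← hC] at e2
        rw [← hA] at e1
        rw [← hA, ← hB, ← hC]
        have e4 : 2 * (v.1 * D.κ 0 x.1) * C = -(A + C - η * B) := by
          rw [← e3]
          linear_combination η * e2 - A * q3
        linear_combination (2 * D.κ 0 x.1 * C) * e1 - (D.r 0 x.1 * Real.sin (D.θ 0 x)) * e4
      X1 := fun x hx => by
        have hxU := (hs hx).1
        rw [ct2, ct3]
        obtain ⟨A, hA⟩ : ∃ A, A = ∑ t ∈ Finset.range (d1 + 1), D.a (0 + t) x := ⟨_, rfl⟩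
        obtain ⟨B, hB⟩ : ∃ A, A = ∑ t ∈ Finset.range (d2 + 1), D.a (d1 + 1 + t) x := ⟨_, rfl⟩
        obtain ⟨C, hC⟩ : ∃ A, A = ∑ t ∈ Finset.range (d3 + 1), D.a (d1 + d2 + 2 + t) x :=
          ⟨_, rfl⟩
        have hBp : B ≠ 0 := by rw [hB]; exact (hb_pos x hx).ne'
        have hr1 := D.nr 1 hn1 x hxU
        have hs1 := hsn 1 hn1 x hx
        have ha0 := (D.pa 0 (by omega) x hxU).ne'
        obtain ⟨v, hv1, hv2⟩ : ∃ v : ℝ × ℝ, v.1 = 0 ∧
            v.2 * D.r 1 (D.S 1 x) * Real.sin (D.θ 1 x) = D.a 0 x :=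
          ⟨(0, D.a 0 x / (D.r 1 (D.S 1 x) * Real.sin (D.θ 1 x))), rfl, by
            simp only; field_simp⟩
        obtain ⟨ξ1, ξ2, ξ3, p, q, r, m2, m3, w1, -, -, w4, w5, w6, w7, w8, w9, w10, w11, w12,
          w13, w14, w15, w16, w17⟩ := forms x hx v
        rw [D.ξ_zero, hv1] at w1
        have w1' : ξ1 = 0 := by rw [w1]; ring
        rw [D.ξ_one, hv2, w1'] at w10
        have hp' : p = 1 := by
          have : D.a 0 x * (p - 1) = 0 := by linear_combination w10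
          rcases mul_eq_zero.1 this with h | h
          · exact absurd h ha0
          · linarith
        rw [← hA, hp', w1'] at w4
        have hξ2 : ξ2 = A := by linarith
        rw [hv1, hp'] at w9
        have hr : r = -η := by linear_combination η * w9 - r * q3
        rw [← hC, w1', hr] at w6
        have hξ3 : ξ3 = -η * C := by linarith
        rw [← hB, hξ2, hξ3] at w5
        have hq : q = (A - η * C) / B := by
          rw [eq_div_iff hBp]; linear_combination w5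
        rw [← hA, ← hB, ← hC]
        refine ⟨v, ?_, ?_, ?_, ?_, ?_, ?_, ?_, ?_⟩
        · have := D.dr x hxU
          rw [hS0] at this
          refine (Cfg.line_fst this.hasDerivAt v).congr_deriv ?_
          rw [hv1]; simp
        · have := D.dκ 0 hn0 x hxU
          rw [hS0] at this
          refine (Cfg.line_fst this.hasDerivAt v).congr_deriv ?_
          rw [hv1]; simp
        · refine (D.sum_line (fun t => 0 + t) (fun t ht => by omega) hxU v).congr_deriv ?_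
          rw [w15, hξ2, w1']; ring
        · refine (D.sum_line (fun t => d1 + 1 + t) (fun t ht => by omega) hxU
            v).congr_deriv ?_
          rw [w16, hξ2, hξ3]; ring
        · refine (D.sum_line (fun t => d1 + d2 + 2 + t) (fun t ht => by omega) hxU
            v).congr_deriv ?_
          rw [w17, w1', hξ3]; ring
        · refine (D.θ_line hn0 hxU v).congr_deriv ?_
          rw [w12, dS0', hv1, hp']; ring
        · refine ((D.θ_line hnj hxU v).const_mul s1).congr_deriv ?_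
          rw [w13, hp', hq]; field_simp; ring
        · refine ((D.θ_line hnl hxU v).const_mul s2).congr_deriv ?_
          rw [w14, hr, hq]; field_simp; linear_combination A * q3
      X2 := fun x hx => by
        have hxU := (hs hx).1
        rw [ct3]
        obtain ⟨v, r, e1, e2, e3, e4, e5, e6, e7, e8, e9⟩ := dir2 x hx
        obtain ⟨A, hA⟩ : ∃ A, A = ∑ t ∈ Finset.range (d1 + 1), D.a (0 + t) x := ⟨_, rfl⟩
        obtain ⟨B, hB⟩ : ∃ A, A = ∑ t ∈ Finset.range (d2 + 1), D.a (d1 + 1 + t) x := ⟨_, rfl⟩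
        obtain ⟨C, hC⟩ : ∃ A, A = ∑ t ∈ Finset.range (d3 + 1), D.a (d1 + d2 + 2 + t) x :=
          ⟨_, rfl⟩
        have hCp : C ≠ 0 := by rw [hC]; exact (hc_pos x hx).ne'
        rw [← hA, ← hB] at e9
        rw [← hB] at e8
        rw [← hA] at e7
        rw [← hA, ← hB, ← hC] at e2
        rw [← hA, ← hB, ← hC]
        have hr : r = (B - η * A) / C := by
          rw [eq_div_iff hCp]; linear_combination e2
        refine ⟨v, ?_, ?_, ?_, ?_, ?_, ?_⟩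
        · refine (D.sum_line (fun t => 0 + t) (fun t ht => by omega) hxU v).congr_deriv ?_
          rw [e7]; rfl
        · refine (D.sum_line (fun t => d1 + 1 + t) (fun t ht => by omega) hxU
            v).congr_deriv ?_
          rw [e8]
        · refine (D.sum_line (fun t => d1 + d2 + 2 + t) (fun t ht => by omega) hxU
            v).congr_deriv ?_
          rw [e9]; rfl
        · refine (D.θ_line hn0 hxU v).congr_deriv ?_
          rw [e4, dS0', show v.1 * D.κ 0 (D.S 0 x) = (-1 + η * r) / 2 by linarith, hr]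
          field_simp
          linear_combination A * q3
        · refine ((D.θ_line hnj hxU v).const_mul s1).congr_deriv ?_
          rw [e5]
        · refine ((D.θ_line hnl hxU v).const_mul s2).congr_deriv ?_
          rw [e6, hr]; field_simp; ring }
  exact null_of_diffS D.E E1 hv (null_ES L)

/-- Trajectories with two bounces which close up to an isometry are negligible. -/
theorem null2S (D : NCfg) (hn : D.n = 2) : smM (ℝ × ℝ) 1 D.E = 0 := by
  obtain ⟨E1, hs, hm, hv, hp⟩ := (exists_E0S D)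
  have hn0 : (0 : ℕ) ≤ D.n := Nat.zero_le _
  have hn1 : 1 ≤ D.n := by omega
  have hεε := D.hεε
  have hsn : ∀ k ≤ D.n, ∀ x ∈ E1, Real.sin (D.θ k x) ≠ 0 := fun k hk x hx =>
    D.ns k hk x (hs hx).1
  -- the first direction
  have dir1 : ∀ x ∈ E1, D.ε = -1 ∧ D.a 0 x = D.a 1 x ∧ ∃ v : ℝ × ℝ,
      fderiv ℝ (D.a 0) x v = D.a 0 x * D.ct x 1 ∧ fderiv ℝ (D.a 1) x v = -(D.a 0 x * D.ct x 1) := by
    intro x hx
    have hxU := (hs hx).1
    obtain ⟨-, hS, hφ, -⟩ := hs hx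
    obtain ⟨c1, c2, c3, c4⟩ := D.close x hxU hS hφ
    have hr1 := D.nr 1 hn1 x hxU
    have hs1 := hsn 1 hn1 x hx
    have ha0 := D.pa 0 (by omega) x hxU
    have ha1 := D.pa 1 (by omega) x hxU
    obtain ⟨v, hv1, hv2⟩ : ∃ v : ℝ × ℝ, v.1 = 0 ∧
        v.2 * D.r 1 (D.S 1 x) * Real.sin (D.θ 1 x) = D.a 0 x :=
      ⟨(0, D.a 0 x / (D.r 1 (D.S 1 x) * Real.sin (D.θ 1 x))), rfl, by
        simp only; field_simp⟩
    obtain ⟨A1, A2⟩ := D.side_deriv (k := 0) (by omega) hxU v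
    obtain ⟨B1, B2⟩ := D.side_deriv (k := 1) (by omega) hxU v
    have R2 := D.refl_deriv (k := 1) (by omega) hxU v
    obtain ⟨P1, P2⟩ := hp x hx v
    rw [hn] at P1 P2 c1 c2 c3 c4
    have hξ0 : D.ξ x v 0 = 0 := by rw [D.ξ_zero, hv1]; ring
    have hξ1 : D.ξ x v 1 = D.a 0 x := by rw [D.ξ_one]; exact hv2
    have hξ2 : D.ξ x v 2 = 0 := by
      unfold NCfg.ξ
      rw [P1, D.dS0, hv1]; ring
    simp only [zero_add] at A1 A2
    have e11 : (1 + 1 : ℕ) = 2 := rfl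
    rw [e11, P2, P1, D.dS0, hv1, zero_mul, mul_zero] at R2
    rw [e11] at B1 B2
    rw [hξ0, hξ1] at A1 A2
    rw [hξ1, hξ2] at B1 B2
    have f0 : fderiv ℝ (D.φ 0) x v = 1 := by
      have : D.a 0 x * (fderiv ℝ (D.φ 0) x v - 1) = 0 := by linear_combination A2
      rcases mul_eq_zero.1 this with h | h
      · exact absurd h ha0.ne'
      · linarith
    rw [f0] at R2
    have f1 : fderiv ℝ (D.φ 1) x v = -D.ε := by linarith
    rw [f1] at B2
    have hε : D.ε = -1 := by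
      rcases D.hε with h | h
      · rw [h] at B2; nlinarith
      · exact h
    refine ⟨hε, ?_, v, by rw [A1]; ring, by rw [B1]; ring⟩
    rw [hε] at B2; linarith
  obtain ⟨E2, hs2, hm2, hp2, hv2⟩ := stepS E1 hm (fun x => D.a 0 x - D.a 1 x)
    (fun x hx => (D.da 0 (by omega) x (hs hx).1).sub (D.da 1 (by omega) x (hs hx).1))
    (fun x hx => sub_eq_zero.2 (dir1 x hx).2.1)
  have hcos : ∀ x ∈ E2, Real.cos (D.θ 1 x) = 0 := by
    intro x hx
    have hxU := (hs (hs2 hx)).1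
    obtain ⟨-, -, v, h1, h2⟩ := dir1 x (hs2 hx)
    have h3 := hp2 x hx v _ ((Cfg.line_deriv (D.da 0 (by omega) x hxU) v).sub
      (Cfg.line_deriv (D.da 1 (by omega) x hxU) v))
    rw [h1, h2] at h3
    have ha0 := D.pa 0 (by omega) x hxU
    have h4 : D.a 0 x * D.ct x 1 = 0 := by linarith
    rcases mul_eq_zero.1 h4 with h | h
    · exact absurd h ha0.ne'
    · unfold NCfg.ct at h
      rcases div_eq_zero_iff.1 h with h5 | h5
      · exact h5
      · exact absurd h5 (hsn 1 hn1 x (hs2 hx))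
  obtain ⟨E3, hs3, hm3, hp3, hv3⟩ := stepS E2 hm2 (fun x => Real.cos (D.θ 1 x))
    (fun x hx => (D.dθ hn1 (hs (hs2 hx)).1).cos) hcos
  have hE3 : E3 = ∅ := by
    rw [Set.eq_empty_iff_forall_notMem]
    intro x hx
    have hx1 := hs2 (hs3 hx)
    have hxU := (hs hx1).1
    have hr0 := D.nr 0 hn0 x hxU
    have hs0 := hsn 0 hn0 x hx1
    have ha0 := D.pa 0 (by omega) x hxU
    obtain ⟨v, hv1, hv2⟩ : ∃ v : ℝ × ℝ, v.1 * D.r 0 (D.S 0 x) * Real.sin (D.θ 0 x) = -D.a 0 x ∧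
        v.2 = 0 :=
      ⟨(-D.a 0 x / (D.r 0 (D.S 0 x) * Real.sin (D.θ 0 x)), 0), by
        simp only; field_simp, rfl⟩
    obtain ⟨-, A2⟩ := D.side_deriv (k := 0) (by omega) hxU v
    have R1 := D.refl_deriv (k := 0) (by omega) hxU v
    simp only [zero_add] at A2 R1
    have hξ0 : D.ξ x v 0 = -D.a 0 x := by rw [D.ξ_zero]; exact hv1
    have hξ1 : D.ξ x v 1 = 0 := by rw [D.ξ_one, hv2]; ring
    have hdS : fderiv ℝ (D.S 1) x v = 0 := D.dS_of_ξ hn1 hxU hξ1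
    rw [hξ0, hξ1] at A2
    rw [hdS, zero_mul, mul_zero] at R1
    have f0 : fderiv ℝ (D.φ 0) x v = -1 := by
      have : D.a 0 x * (fderiv ℝ (D.φ 0) x v + 1) = 0 := by linear_combination A2
      rcases mul_eq_zero.1 this with h | h
      · exact absurd h ha0.ne'
      · linarith
    have f1 : fderiv ℝ (D.φ 1) x v = 1 := by linarith
    have hθ := D.θ_line hn1 hxU v
    rw [f1, hdS, zero_mul, sub_zero] at hθ
    have h3 := hp3 x hx v _ hθ.cos
    simp only [zero_smul, add_zero, mul_one, neg_eq_zero] at h3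
    exact hsn 1 hn1 x hx1 h3
  rw [hE3, sdiff_empty] at hv3
  exact null_of_diffS D.E E1 hv (null_of_diffS E1 E2 hv2 hv3)

/-- The local theorem for trajectories with `n` bounces. -/
theorem nlocalS {Ω : Set ℂ} {g : ℂ ≃ᵃⁱ[ℝ] ℂ} (hg : g ⁻¹' Ω = Ω) {n : ℕ} (hn : 2 ≤ n)
    (Z : Finset ℕ) (hZ : ∀ k ∈ Z, k < n)
    (hnull : ∀ N : NCfg, N.n = n → N.Z = Z → smM (ℝ × ℝ) 1 N.E = 0)
    {p u : ℕ → ℂ} (h : OrbitG Ω g n p u) (m : ℕ) :
    ∃ Y : Set (ℂ × ℂ), smM (ℂ × ℂ) 1 Y = 0 ∧ ∀ᶠ w : (ℕ → ℂ) × (ℕ → ℂ) in 𝓝 (p, u),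
      (OrbitG Ω g n w.1 w.2 ∧ ∀ k ∈ Z, ZeroCurv Ω (w.1 k)) → (w.1 m, w.2 m) ∈ Y := by
  obtain ⟨ε, κ, hε, hG⟩ := isom_class g.linearIsometryEquiv
  obtain ⟨A, hA, hcl, hσ, htr⟩ := h.exists_mirrors hg (by omega) ε κ hG
  obtain ⟨D, hDA, hue⟩ := exists_chain h.step h.unit A hA htr
  subst hDA
  have hεε : ε * ε = 1 := by rcases hε with h | h <;> rw [h] <;> norm_num
  have hGexp : ∀ θ : ℝ, g.linearIsometryEquiv (Complex.exp (Complex.I * θ)) =
      Complex.exp (Complex.I * (κ + ε * θ : ℝ)) := by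
    intro θ
    have := hG 1 θ
    simpa only [Complex.ofReal_one, one_mul] using this
  obtain ⟨K, hKdef⟩ : ∃ K : ℝ, K = D.φ0 n - ε * D.φ0 0 := ⟨_, rfl⟩
  have hK : Complex.exp (Complex.I * κ) = Complex.exp (Complex.I * K) := by
    have h1 := h.peru 0
    rw [zero_add, hue n, hue 0, hGexp] at h1
    have h2 : Complex.exp (Complex.I * κ) = Complex.exp (Complex.I * (κ + ε * D.φ0 0 : ℝ)) *
        Complex.exp (Complex.I * (-(ε * D.φ0 0) : ℝ)) := by
      rw [← Complex.exp_add]; congr 1; push_cast; ring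
    rw [h2, ← h1, ← Complex.exp_add, hKdef]
    congr 1; push_cast; ring
  obtain ⟨N, hNn, hNZ, hN0, hNE⟩ := D.exists_ncfg n hn Z hZ ε κ K hε hK hcl
  have hvol := hnull N hNn hNZ
  -- the parametrisation of the phase points
  have hP := D.P_smooth
  have hΘ : ContDiffAt ℝ 1 (fun x : ℝ × ℝ => ((D.A m).M.γ (D.P m x).1,
      Complex.exp (Complex.I * (D.l m (D.P m x)).im))) 0 := by
    have h1 : ContDiffAt ℝ 1 (fun x : ℝ × ℝ => (D.P m x).1) 0 :=
      contDiffAt_fst.comp (0 : ℝ × ℝ) (hP m)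
    have h2 : ContDiffAt ℝ 1 (fun x : ℝ × ℝ => (D.A m).M.γ (D.P m x).1) 0 := by
      refine ContDiffAt.comp (0 : ℝ × ℝ) (g := (D.A m).M.γ) ?_ h1
      rw [D.P0]
      exact (D.A m).M.γs.of_le (by norm_num)
    have h3 : ContDiffAt ℝ 1 (fun x : ℝ × ℝ => D.l m (D.P m x)) 0 := by
      refine ContDiffAt.comp (0 : ℝ × ℝ) (g := D.l m) ?_ (hP m)
      rw [D.P0]
      exact (D.hl m).of_le (by norm_num)
    have h4 : ContDiffAt ℝ 1 (fun x : ℝ × ℝ => (D.l m (D.P m x)).im) 0 :=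
      Complex.imCLM.contDiff.contDiffAt.comp (0 : ℝ × ℝ) h3
    have h5 : ContDiffAt ℝ 1 (fun x : ℝ × ℝ => ((D.l m (D.P m x)).im : ℂ)) 0 :=
      Complex.ofRealCLM.contDiff.contDiffAt.comp (0 : ℝ × ℝ) h4
    exact h2.prodMk (contDiffAt_const.mul h5).cexp
  obtain ⟨k', t, ht, hlip⟩ := hΘ.exists_lipschitzOnWith
  refine ⟨(fun x : ℝ × ℝ => ((D.A m).M.γ (D.P m x).1,
      Complex.exp (Complex.I * (D.l m (D.P m x)).im))) '' (N.E ∩ t), ?_, ?_⟩
  · exact smM_eq_zero.2 (((smM_eq_zero.1 hvol).mono inter_subset_left).image_lip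
      (hlip.mono (inter_subset_right (s := N.E))))
  -- the coordinates of a nearby trajectory
  obtain ⟨s, hs⟩ : ∃ s : ℕ → (ℕ → ℂ) × (ℕ → ℂ) → ℝ, s = fun k w => (D.A k).M.σ (w.1 k) :=
    ⟨_, rfl⟩
  have T1 : ∀ k, Tendsto (fun w : (ℕ → ℂ) × (ℕ → ℂ) => w.1 k) (𝓝 (p, u)) (𝓝 (D.A k).q) := by
    intro k
    rw [hA k]
    have : Continuous (fun w : (ℕ → ℂ) × (ℕ → ℂ) => w.1 k) :=
      (continuous_apply k).comp continuous_fst
    exact this.tendsto (p, u)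
  have Ts : ∀ k, Tendsto (s k) (𝓝 (p, u)) (𝓝 0) := by
    intro k
    have h1 : Tendsto (D.A k).M.σ (𝓝 (D.A k).q) (𝓝 0) :=
      tendsto_of_cont (D.A k).M.σc (D.A k).M.σ0
    rw [hs]
    exact h1.comp (T1 k)
  have Ts2 : ∀ k j, Tendsto (fun w => (s k w, s j w)) (𝓝 (p, u)) (𝓝 (0 : ℝ × ℝ)) :=
    fun k j => (Ts k).prodMk_nhds (Ts j)
  have Ts3 : ∀ k i j, Tendsto (fun w => ((s k w, s i w), s j w)) (𝓝 (p, u))
      (𝓝 (0 : (ℝ × ℝ) × ℝ)) := fun k i j => (Ts2 k i).prodMk_nhds (Ts j)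
  have iml : ∀ k, Tendsto (fun w => (D.l k (s k w, s (k + 1) w)).im) (𝓝 (p, u))
      (𝓝 (D.φ0 k)) := by
    intro k
    have h1 : Tendsto (fun y => (D.l k y).im) (𝓝 0) (𝓝 (D.φ0 k)) :=
      tendsto_of_cont (Complex.continuous_im.continuousAt.comp (D.hl k).continuousAt) (D.l0 k)
    exact h1.comp (Ts2 k (k + 1))
  have imL : ∀ k, Tendsto (fun w => ((D.A k).M.L (s k w)).im) (𝓝 (p, u))
      (𝓝 ((D.A k).M.L 0).im) := by
    intro k
    have h1 : Tendsto (fun y => ((D.A k).M.L y).im) (𝓝 0) (𝓝 ((D.A k).M.L 0).im) :=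
      tendsto_of_cont (Complex.continuous_im.continuousAt.comp (D.A k).M.Ls.continuousAt) rfl
    exact h1.comp (Ts k)
  have small : ∀ f : (ℕ → ℂ) × (ℕ → ℂ) → ℝ, Tendsto f (𝓝 (p, u)) (𝓝 0) →
      ∀ᶠ w in 𝓝 (p, u), |f w| < 1 := by
    intro f hf
    have h1 := hf.abs
    rw [abs_zero] at h1
    exact h1.eventually (gt_mem_nhds one_pos)
  have q6 : ∀ k, ∀ᶠ w in 𝓝 (p, u), |(D.l (k + 1) (s (k + 1) w, s (k + 1 + 1) w)).im -
      (2 * ((D.A (k + 1)).M.L (s (k + 1) w)).im - (D.l k (s k w, s (k + 1) w)).im)| < 1 := by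
    intro k
    apply small
    have h1 := (iml (k + 1)).sub (((imL (k + 1)).const_mul 2).sub (iml k))
    have h2 := D.rf k
    have e : D.φ0 (k + 1) - (2 * ((D.A (k + 1)).M.L 0).im - D.φ0 k) = 0 := by linarith
    rwa [e] at h1
  have q8 : ∀ᶠ w in 𝓝 (p, u), |(D.l n (s n w, s (n + 1) w)).im -
      (ε * (D.l 0 (s 0 w, s (0 + 1) w)).im + K)| < 1 := by
    apply small
    have h1 := (iml n).sub (((iml 0).const_mul ε).add_const K)
    have e : D.φ0 n - (ε * D.φ0 0 + K) = 0 := by rw [hKdef]; ring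
    rwa [e] at h1
  have hall : ∀ᶠ w in 𝓝 (p, u), ∀ k ∈ Set.Iic (n + m + 2),
      ((D.A k).F (w.1 k) = 0 → (D.A k).M.γ ((D.A k).M.σ (w.1 k)) = w.1 k) ∧
      (∀ F' : ℂ → ℝ, LocalDef Ω (w.1 k) F' → LocalDef Ω (w.1 k) (D.A k).F) ∧
      (Complex.exp (D.l k (s k w, s (k + 1) w)) =
        (D.A (k + 1)).M.γ (s (k + 1) w) - (D.A k).M.γ (s k w)) ∧
      (⟪gradient (D.A k).F ((D.A k).M.γ (s k w)), Complex.exp ((D.A k).M.L (s k w))⟫_ℝ = 0 ∧
        gradient (D.A k).F ((D.A k).M.γ (s k w)) ≠ 0) ∧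
      ((D.l k (s k w, s (k + 1) w)).im + (D.l (k + 1) (s (k + 1) w, s (k + 1 + 1) w)).im =
        2 * ((D.A (k + 1)).M.L (s (k + 1) w)).im →
        s (k + 1 + 1) w = D.R k (s k w, s (k + 1) w)) ∧
      (|(D.l (k + 1) (s (k + 1) w, s (k + 1 + 1) w)).im -
      (2 * ((D.A (k + 1)).M.L (s (k + 1) w)).im - (D.l k (s k w, s (k + 1) w)).im)| < 1) ∧
      (ZeroCurv Ω ((D.A k).M.γ (s k w)) → (deriv (D.A k).M.L (s k w)).im = 0) := by
    rw [Filter.eventually_all_finite (Set.finite_Iic _)]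
    intro k _
    exact ((T1 k).eventually (D.A k).M.hs).and (((T1 k).eventually
      (localDef_near (D.A k).df)).and (((Ts2 k (k + 1)).eventually (D.le k)).and
      (((Ts k).eventually (D.A k).M.ho).and (((Ts3 k (k + 1) (k + 1 + 1)).eventually
      (D.Ru k)).and ((q6 k).and ((Ts k).eventually (zero_curv (D.A k).df (D.A k).M)))))))
  filter_upwards [hall, q8, (Ts2 0 1).eventually (N.hU.mem_nhds hN0),
    (Ts2 0 1).eventually ht] with w hw w8 wU wt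
  rintro ⟨hor, hzc⟩
  have hsw : ∀ k, (D.A k).M.σ (w.1 k) = s k w := fun k => by rw [hs]
  have hdf : ∀ k ≤ n + m + 2, LocalDef Ω (w.1 k) (D.A k).F := by
    intro k hk
    cases k with
    | zero =>
      obtain ⟨F0, hF0, -⟩ := hor.localDef0 hg (by omega)
      exact (hw 0 hk).2.1 F0 hF0
    | succ k =>
      obtain ⟨t, -, -, -, F, hF, -, -⟩ := hor.step k
      exact (hw (k + 1) hk).2.1 F hF
  have hγ : ∀ k ≤ n + m + 2, (D.A k).M.γ (s k w) = w.1 k := by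
    intro k hk
    rw [← hsw]
    exact (hw k hk).1 (hdf k hk).zero
  have hunit := unit_of_steps hor.step hor.unit
  have hue' : ∀ k, k + 1 ≤ n + m + 2 →
      w.2 k = Complex.exp (Complex.I * (D.l k (s k w, s (k + 1) w)).im) := by
    intro k hk
    obtain ⟨t', ht', hpt⟩ := (step_refl (hor.step k) (hdf (k + 1) hk)).2.2
    refine (polar_eq t' (w.2 k) _ ht' (hunit k) ?_).1
    rw [(hw k (by simp only [Set.mem_Iic]; omega)).2.2.1, hγ (k + 1) hk, hγ k (by omega), hpt]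
    ring
  have hrf : ∀ k, k + 1 + 1 ≤ n + m + 2 → (D.l k (s k w, s (k + 1) w)).im +
      (D.l (k + 1) (s (k + 1) w, s (k + 1 + 1) w)).im =
        2 * ((D.A (k + 1)).M.L (s (k + 1) w)).im := by
    intro k hk
    have hk' : k ∈ Set.Iic (n + m + 2) := by simp only [Set.mem_Iic]; omega
    have hk1 : k + 1 ∈ Set.Iic (n + m + 2) := by simp only [Set.mem_Iic]; omega
    have h1 := (step_refl (hor.step k) (hdf (k + 1) (by omega))).1
    have h2 := (hw (k + 1) hk1).2.2.2.1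
    rw [hγ (k + 1) (by omega)] at h2
    rw [hue' (k + 1) hk, hue' k (by omega), rfl_exp _ _ _ h2.2 h2.1] at h1
    have h3 := angle_eq _ _ h1 (hw k hk').2.2.2.2.2.1
    linarith
  have hPs : ∀ k, k + 1 ≤ n + m + 2 → D.P k (s 0 w, s 1 w) = (s k w, s (k + 1) w) := by
    intro k
    induction k with
    | zero => intro _; rfl
    | succ k ih =>
      intro hk
      have hk' : k ∈ Set.Iic (n + m + 2) := by simp only [Set.mem_Iic]; omega
      rw [D.P_succ]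
      simp only
      rw [ih (by omega)]
      have h1 := (hw k hk').2.2.2.2.1 (hrf k hk)
      rw [h1]
  refine ⟨(s 0 w, s 1 w), ⟨?_, wt⟩, ?_⟩
  · rw [hNE]
    refine ⟨wU, ?_, ?_, ?_⟩
    · rw [hPs n (by omega)]
      simp only
      have h1 := hor.perp 0
      rw [zero_add] at h1
      rw [← hsw n, ← hsw 0, h1, hσ]
    · rw [hPs n (by omega)]
      have h1 := hor.peru 0
      rw [zero_add, hue' n (by omega), hue' 0 (by omega), hGexp] at h1
      refine angle_eq _ _ ?_ w8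
      rw [h1]
      have e1 : Complex.exp (Complex.I * (κ + ε * (D.l 0 (s 0 w, s (0 + 1) w)).im : ℝ)) =
          Complex.exp (Complex.I * κ) *
            Complex.exp (Complex.I * (ε * (D.l 0 (s 0 w, s (0 + 1) w)).im : ℝ)) := by
        rw [← Complex.exp_add]; congr 1; push_cast; ring
      rw [e1, hK, ← Complex.exp_add]
      congr 1; push_cast; ring
    · intro k hk
      have hkn := hZ k hk
      have hk' : k ∈ Set.Iic (n + m + 2) := by simp only [Set.mem_Iic]; omega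
      rw [hPs k (by omega)]
      refine (hw k hk').2.2.2.2.2.2 ?_
      rw [hγ k (by omega)]
      exact hzc k hk
  · simp only
    rw [hPs m (by omega)]
    simp only
    rw [hγ m (by omega), ← hue' m (by omega)]

/-- Orbits with prescribed bounces of zero curvature form a negligible set. -/
theorem wnullS {Ω : Set ℂ} {g : ℂ ≃ᵃⁱ[ℝ] ℂ} (hg : g ⁻¹' Ω = Ω) {n : ℕ} (hn : 2 ≤ n)
    (Z : Finset ℕ) (hZ : ∀ k ∈ Z, k < n)
    (hnull : ∀ N : NCfg, N.n = n → N.Z = Z → smM (ℝ × ℝ) 1 N.E = 0) (m : ℕ) :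
    smM (ℂ × ℂ) 1 ((fun w : (ℕ → ℂ) × (ℕ → ℂ) => (w.1 m, w.2 m)) ''
      {w | OrbitG Ω g n w.1 w.2 ∧ ∀ k ∈ Z, ZeroCurv Ω (w.1 k)}) = 0 := by
  apply null_of_locally_null
  rintro ⟨p, u⟩ ⟨h, -⟩
  exact nlocalS hg hn Z hZ hnull h m

/-- Pulling back by an isometry preserves negligible sets. -/
theorem pull_nullS (g : ℂ ≃ᵃⁱ[ℝ] ℂ) (Y : Set (ℂ × ℂ)) (hY : smM (ℂ × ℂ) 1 Y = 0) :
    smM (ℂ × ℂ) 1 {z : ℂ × ℂ | (g z.1, g.linearIsometryEquiv z.2) ∈ Y} = 0 := by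
  have hlip : LipschitzWith 1
      (fun z : ℂ × ℂ => (g.symm z.1, g.linearIsometryEquiv.symm z.2)) := by
    refine LipschitzWith.of_dist_le_mul fun x y => ?_
    simp only [Prod.dist_eq, LinearIsometryEquiv.dist_map, AffineIsometryEquiv.dist_map,
      NNReal.coe_one, one_mul]
    exact le_rfl
  have h0 := (smM_eq_zero.1 hY).image_lip (K := 1) (hlip.lipschitzOnWith (s := Y))
  refine measure_mono_null ?_ (smM_eq_zero.2 h0)
  intro z hz
  exact ⟨_, hz, by simp⟩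

theorem null_idxS (d1 d2 d3 : ℕ) (N : NCfg) (hn : N.n = d1 + d2 + d3 + 3)
    (hZ : N.Z = idx (d1 + d2 + d3 + 3) (d1 + 1) (d1 + d2 + 2)) : smM (ℝ × ℝ) 1 N.E = 0 := by
  refine null3S N d1 d2 d3 hn fun k h1 h2 h3 h4 => ?_
  rw [hZ, idx, Finset.mem_filter, Finset.mem_range]
  exact ⟨by omega, h1, h3, h4⟩

/-- The main theorem in the complex plane. -/
theorem perMod_nullS (Ω : Set ℂ) (Γ : Set (ℂ ≃ᵃⁱ[ℝ] ℂ)) (hΓ : Γ.Countable)
    (hinv : ∀ g ∈ Γ, g ⁻¹' Ω = Ω) : smM (ℂ × ℂ) 1 (PerMod Γ Ω) = 0 := by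
  -- the pieces
  obtain ⟨Y, hY⟩ : ∃ Y : (ℂ ≃ᵃⁱ[ℝ] ℂ) → ℕ → ℕ → ℕ → ℕ → Set (ℂ × ℂ), Y = fun g d1 d2 d3 m =>
      ((fun w : (ℕ → ℂ) × (ℕ → ℂ) => (w.1 m, w.2 m)) ''
      {w | OrbitG Ω g (d1 + d2 + d3 + 3) w.1 w.2 ∧
        ∀ k ∈ idx (d1 + d2 + d3 + 3) (d1 + 1) (d1 + d2 + 2), ZeroCurv Ω (w.1 k)}) := ⟨_, rfl⟩
  have hY0 : ∀ g : ℂ ≃ᵃⁱ[ℝ] ℂ, g ⁻¹' Ω = Ω → ∀ d1 d2 d3 m, smM (ℂ × ℂ) 1 (Y g d1 d2 d3 m) = 0 := by
    intro g hg d1 d2 d3 m
    rw [hY]
    exact wnullS hg (by omega) _ (idx_lt _ _ _) (fun N hn hZ => null_idxS d1 d2 d3 N hn hZ) m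
  have hT : ∀ g : ℂ ≃ᵃⁱ[ℝ] ℂ, g ⁻¹' Ω = Ω →
      smM (ℂ × ℂ) 1 ((fun w : (ℕ → ℂ) × (ℕ → ℂ) => (w.1 0, w.2 0)) ''
      {w | OrbitG Ω g 2 w.1 w.2 ∧ ∀ k ∈ (∅ : Finset ℕ), ZeroCurv Ω (w.1 k)}) = 0 := by
    intro g hg
    exact wnullS hg le_rfl _ (by simp) (fun N hn _ => null2S N hn) 0
  refine measure_mono_null (t := ⋃ g ∈ Γ,
    ((((fun w : (ℕ → ℂ) × (ℕ → ℂ) => (w.1 0, w.2 0)) ''
      {w | OrbitG Ω g 2 w.1 w.2 ∧ ∀ k ∈ (∅ : Finset ℕ), ZeroCurv Ω (w.1 k)}) ∪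
      Y (g * (g * g)) 0 0 0 0) ∪
      ⋃ d1 : ℕ, ⋃ d2 : ℕ, ⋃ d3 : ℕ, ⋃ m : ℕ,
        {z : ℂ × ℂ | (g z.1, g.linearIsometryEquiv z.2) ∈ Y g d1 d2 d3 m})) ?_ ?_
  · rintro z ⟨g, hgΓ, n, p, u, h, rfl, hcard⟩
    have hg := hinv g hgΓ
    refine mem_iUnion₂.2 ⟨g, hgΓ, ?_⟩
    have hG := h.toG
    have hpos := h.pos
    rcases Nat.lt_or_ge n 3 with hn | hn
    · have : n = 1 ∨ n = 2 := by omega
      rcases this with rfl | rfl
      · -- period one
        left; right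
        rw [hY]
        refine ⟨(p, u), ⟨⟨h.unit, fun k => ?_, fun k => ?_, h.step⟩, ?_⟩, rfl⟩
        · have e1 := h.perp k
          have e2 := h.perp (k + 1)
          have e3 := h.perp (k + 1 + 1)
          change p (k + 1 + 1 + 1) = g (g (g (p k)))
          rw [e3, e2, e1]
        · have e1 := h.peru k
          have e2 := h.peru (k + 1)
          have e3 := h.peru (k + 1 + 1)
          rw [lin_mul, lin_mul]
          change u (k + 1 + 1 + 1) = _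
          rw [e3, e2, e1]
        · intro k hk
          rw [idx, Finset.mem_filter, Finset.mem_range] at hk
          omega
      · left; left
        exact ⟨(p, u), ⟨hG, by simp⟩, rfl⟩
    right
    obtain ⟨a, b, c, hab, hbc, hcn, hf⟩ := three_indices n hn (fun k => ¬ ZeroCurv Ω (p k)) hcard
    have hf' : ∀ k, k < n → k ≠ a → k ≠ b → k ≠ c → ZeroCurv Ω (p k) := by
      intro k hk h1 h2 h3
      by_contra hcon
      rcases hf k hk hcon with h4 | h4 | h4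
      · exact h1 h4
      · exact h2 h4
      · exact h3 h4
    obtain ⟨d1, hd1⟩ : ∃ d1, d1 = b - a - 1 := ⟨_, rfl⟩
    obtain ⟨d2, hd2⟩ : ∃ d2, d2 = c - b - 1 := ⟨_, rfl⟩
    obtain ⟨d3, hd3⟩ : ∃ d3, d3 = n - (c - a) - 1 := ⟨_, rfl⟩
    have hnd : d1 + d2 + d3 + 3 = n := by omega
    refine mem_iUnion.2 ⟨d1, mem_iUnion.2 ⟨d2, mem_iUnion.2 ⟨d3, mem_iUnion.2 ⟨n - a, ?_⟩⟩⟩⟩
    rw [hY]
    refine ⟨(fun k => p (k + a), fun k => u (k + a)), ⟨?_, ?_⟩, ?_⟩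
    · rw [hnd]; exact hG.shift a
    · intro k hk
      rw [idx, Finset.mem_filter, Finset.mem_range] at hk
      obtain ⟨k1, k2, k3, k4⟩ := hk
      change ZeroCurv Ω (p (k + a))
      rcases Nat.lt_or_ge (k + a) n with h1 | h1
      · exact hf' _ h1 (by omega) (by omega) (by omega)
      · have e : k + a = (k + a - n) + n := by omega
        rw [e, h.perp]
        have h5 : ZeroCurv Ω (p (k + a - n)) := hf' _ (by omega) (by omega) (by omega) (by omega)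
        have h6 : ZeroCurv Ω (g.symm (g (p (k + a - n)))) := by
          rw [g.symm_apply_apply]; exact h5
        have h7 := h6.comp g.symm
        have h8 : g.symm ⁻¹' Ω = Ω := by
          nth_rewrite 1 [← hg]
          rw [← preimage_comp]
          have : (g : ℂ → ℂ) ∘ g.symm = id := by ext x; simp
          rw [this, preimage_id]
        rwa [h8] at h7
    · have e : n - a + a = 0 + n := by omega
      simp only [e, h.perp, h.peru]
  · refine (measure_biUnion_null_iff hΓ).2 fun g hgΓ => ?_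
    have hg := hinv g hgΓ
    refine measure_union_null (measure_union_null (hT g hg) (hY0 _ ?_ 0 0 0 0)) ?_
    · change (fun x => g (g (g x))) ⁻¹' Ω = Ω
      have e : (fun x => g (g (g x))) = g ∘ (g ∘ g) := rfl
      rw [e, preimage_comp, preimage_comp, hg, hg, hg]
    · exact measure_iUnion_null fun d1 => measure_iUnion_null fun d2 =>
        measure_iUnion_null fun d3 => measure_iUnion_null fun m =>
          pull_nullS g _ (hY0 g hg d1 d2 d3 m)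

theorem perMod_nullS_of_isom {E : Type*} [NormedAddCommGroup E] [InnerProductSpace ℝ E]
    [FiniteDimensional ℝ E] [MeasurableSpace E] [BorelSpace E] (e : E ≃ₗᵢ[ℝ] ℂ) (Ω : Set E)
    (Γ : Set (E ≃ᵃⁱ[ℝ] E)) (hΓ : Γ.Countable) (hinv : ∀ g ∈ Γ, g ⁻¹' Ω = Ω) :
    smM (E × E) 1 (PerMod Γ Ω) = 0 := by
  have hlip : LipschitzWith 1 (fun z : ℂ × ℂ => (e.symm z.1, e.symm z.2)) := by
    refine LipschitzWith.of_dist_le_mul fun x y => ?_
    simp only [Prod.dist_eq, LinearIsometryEquiv.dist_map, NNReal.coe_one, one_mul]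
    exact le_rfl
  have h00 : smM (ℂ × ℂ) 1 (PerMod (cj e '' Γ) (e.symm ⁻¹' Ω)) = 0 := by
    refine perMod_nullS _ _ (hΓ.image _) ?_
    rintro _ ⟨g, hg, rfl⟩
    exact cj_inv e g (hinv g hg)
  have h0 := (smM_eq_zero.1 h00).image_lip (K := 1) (hlip.lipschitzOnWith
    (s := PerMod (cj e '' Γ) (e.symm ⁻¹' Ω)))
  · refine measure_mono_null ?_ (smM_eq_zero.2 h0)
    rintro z ⟨g, hg, n, p, u, h, rfl, hcard⟩
    refine ⟨(e (p 0), e (u 0)), ⟨cj e g, ⟨g, hg, rfl⟩, n, _, _, orbitMod_transport e h, rfl, ?_⟩,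
      ?_⟩
    · refine le_trans (Set.ncard_le_ncard ?_ ?_) hcard
      · rintro k ⟨hk1, hk2⟩
        exact ⟨hk1, fun hf => hk2 (zero_transport e hf)⟩
      · exact (Set.finite_lt_nat n).subset fun k hk => hk.1
    · simp

end Pool.Agent.T2h25.Iv
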